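import Pool.Agent.Lib.MP_8daebb_an.G6.Id

/-! The energy is spread in every three-dimensional subspace. -/

open MeasureTheory Metric Set Module Real
open scoped RealInnerProductSpace

namespace Pool.Agent.Lib.MP_8daebb_an.G6

open AS HK

variable {E : Type*} [NormedAddCommGroup E] [InnerProductSpace ℝ E] [FiniteDimensional ℝ E]
  [MeasurableSpace E] [BorelSpace E]

/-- The statement: a point of the good set `Γ` far from every plane of codimension three. -/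
def SpreadAt (E : Type*) [NormedAddCommGroup E] [InnerProductSpace ℝ E] [FiniteDimensional ℝ E]
    [MeasurableSpace E] [BorelSpace E] (C₁ c₁ : ℝ) : Prop :=
  ∀ (ε : E → ℝ) (T : E → E →L[ℝ] E) (c : E) (R μ : ℝ), St ε T c R μ →
    ∀ n : Fin 3 → E, Orthonormal ℝ n → ∀ (l σ : ℝ) (x₀ p : E), 0 < l →
    0 < σ → 2 * l ^ 2 ≤ R ^ 2 → ‖x₀ - c‖ ≤ R → ‖p - x₀‖ ≤ C₁ * l →
    σ ≤ l ^ 2 * P (l ^ 2) (tau T) x₀ → 4 * l ^ 2 * P (4 * l ^ 2) (tau T) x₀ ≤ 16 * σ →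
    rad T (l ^ 2) x₀ + l ^ 2 * P (2 * l ^ 2) (fun y => |bet ε T y|) x₀ + μ * l ^ 2 ≤ c₁ * σ →
    ∀ Γ : Set E, MeasurableSet Γ →
    ∫ y in ball x₀ (C₁ * l) \ Γ, tau T y ≤ c₁ * σ * (l ^ finrank ℝ E / l ^ 2) →
    ∃ x ∈ Γ, ‖x - x₀‖ < C₁ * l ∧ c₁ * l ≤ ‖Pn n (x - p)‖

omit [FiniteDimensional ℝ E] [MeasurableSpace E] [BorelSpace E] in
theorem zu_Spread {l C₁ c : ℝ} (hl : 0 < l) (hC : 0 ≤ C₁) (hc : 0 ≤ c) {τ ind : ℝ} (hτ : 0 ≤ τ)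
    (hi : 0 ≤ ind) {z u : E} (hu : ‖u‖ ≤ ‖z‖ + C₁ * l)
    (h : ‖u‖ ≤ c * l ∨ (ind = τ ∧ ‖z‖ ≤ C₁ * l) ∨ C₁ * l ≤ ‖z‖) :
    G (l ^ 2) z * (‖z‖ * ‖u‖) * τ ≤ l ^ 2 * ((5 * c + 16 * exp (-(C₁ ^ 2 / 2 / 8))) *
      (2 ^ hd E) ^ 2 * (G (4 * l ^ 2) z * τ) + 2 * C₁ ^ 2 * (G (l ^ 2) z * ind)) := by
  have ht : 0 < l ^ 2 := by positivity
  have hH : (0 : ℝ) < 2 ^ hd E := by positivity
  have g1 := G_pos ht z
  have g2 := G_pos (show 0 < 2 * l ^ 2 by positivity) z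
  have g4 := G_pos (show 0 < 4 * l ^ 2 by positivity) z
  have e4 : 2 * (2 * l ^ 2) = 4 * l ^ 2 := by ring
  have h24 := G_le_two (show 0 < 2 * l ^ 2 by positivity) z
  rw [e4] at h24
  have hz := norm_nonneg z
  have hun := norm_nonneg u
  have hex := exp_pos (-(C₁ ^ 2 / 2 / 8))
  have p1 : 0 ≤ l ^ 2 * (5 * c * (2 ^ hd E) ^ 2 * (G (4 * l ^ 2) z * τ)) := by positivity
  have p2 : 0 ≤ l ^ 2 * (16 * exp (-(C₁ ^ 2 / 2 / 8)) * (2 ^ hd E) ^ 2 *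
      (G (4 * l ^ 2) z * τ)) := by positivity
  have p3 : 0 ≤ l ^ 2 * (2 * C₁ ^ 2 * (G (l ^ 2) z * ind)) := by positivity
  rcases h with h | ⟨h, h'⟩ | h
  · have h1 := norm_mul_G_le ht z
    rw [sqrt_sq hl.le] at h1
    have : G (l ^ 2) z * (‖z‖ * ‖u‖) * τ ≤
        l ^ 2 * (5 * c * (2 ^ hd E) ^ 2 * (G (4 * l ^ 2) z * τ)) := by
      calc _ = (‖z‖ * G (l ^ 2) z) * ‖u‖ * τ := by ring
        _ ≤ (5 * 2 ^ hd E * l * (2 ^ hd E * G (4 * l ^ 2) z)) * (c * l) * τ :=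
          mul_le_mul_of_nonneg_right (mul_le_mul (h1.trans
            (mul_le_mul_of_nonneg_left h24 (by positivity))) h hun (by positivity)) hτ
        _ = _ := by ring
    linarith
  · have : G (l ^ 2) z * (‖z‖ * ‖u‖) * τ ≤ l ^ 2 * (2 * C₁ ^ 2 * (G (l ^ 2) z * ind)) := by
      rw [h]
      calc _ ≤ G (l ^ 2) z * ((C₁ * l) * (C₁ * l + C₁ * l)) * τ := by
            gcongr
            linarith
        _ = _ := by ring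
    linarith
  · have h1 := sq_mul_G_le ht z
    have h2 := G_tail (A := C₁ ^ 2 / 2) (show 0 < 2 * l ^ 2 by positivity) (z := z) (by
      have : (C₁ * l) ^ 2 ≤ ‖z‖ ^ 2 := by gcongr
      linarith [show C₁ ^ 2 / 2 * (2 * l ^ 2) = (C₁ * l) ^ 2 by ring])
    rw [e4] at h2
    have : G (l ^ 2) z * (‖z‖ * ‖u‖) * τ ≤ l ^ 2 * (16 * exp (-(C₁ ^ 2 / 2 / 8)) *
        (2 ^ hd E) ^ 2 * (G (4 * l ^ 2) z * τ)) := by
      calc _ ≤ G (l ^ 2) z * (‖z‖ * (‖z‖ + ‖z‖)) * τ := by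
            gcongr
            linarith
        _ = 2 * (‖z‖ ^ 2 * G (l ^ 2) z) * τ := by ring
        _ ≤ 2 * (8 * 2 ^ hd E * l ^ 2 *
              (2 ^ hd E * exp (-(C₁ ^ 2 / 2 / 8)) * G (4 * l ^ 2) z)) * τ :=
          mul_le_mul_of_nonneg_right (mul_le_mul_of_nonneg_left (h1.trans
            (mul_le_mul_of_nonneg_left h2 (by positivity))) (by norm_num)) hτ
        _ = _ := by ring
    linarith

omit [FiniteDimensional ℝ E] [MeasurableSpace E] [BorelSpace E] in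
theorem zu'_Spread {l C₁ : ℝ} (hl : 0 < l) {z u : E} (hu : ‖u‖ ≤ ‖z‖ + C₁ * l) :
    G (l ^ 2) z * (‖z‖ * ‖u‖) ≤ l ^ 2 * ((12 + C₁ ^ 2 / 2) * 2 ^ hd E * G (2 * l ^ 2) z) := by
  have ht : 0 < l ^ 2 := by positivity
  have g1 := G_pos ht z
  have h1 := sq_mul_G_le ht z
  have h2 := G_le_two ht z
  have hz := norm_nonneg z
  have h3 : ‖z‖ * ‖u‖ ≤ 3 / 2 * ‖z‖ ^ 2 + C₁ ^ 2 / 2 * l ^ 2 := by
    have := mul_le_mul_of_nonneg_left hu hz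
    nlinarith [sq_nonneg (‖z‖ - C₁ * l)]
  calc _ ≤ G (l ^ 2) z * (3 / 2 * ‖z‖ ^ 2 + C₁ ^ 2 / 2 * l ^ 2) := by gcongr
    _ = 3 / 2 * (‖z‖ ^ 2 * G (l ^ 2) z) + C₁ ^ 2 / 2 * l ^ 2 * G (l ^ 2) z := by ring
    _ ≤ 3 / 2 * (8 * 2 ^ hd E * l ^ 2 * G (2 * l ^ 2) z) +
        C₁ ^ 2 / 2 * l ^ 2 * (2 ^ hd E * G (2 * l ^ 2) z) := by gcongr
    _ = _ := by ring

omit [FiniteDimensional ℝ E] [MeasurableSpace E] [BorelSpace E] in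
theorem uu_Spread {l C₁ : ℝ} (hl : 0 < l) {z u : E} (hu : ‖u‖ ≤ ‖z‖ + C₁ * l) :
    G (l ^ 2) z * ‖u‖ ^ 2 ≤ l ^ 2 * ((16 + 2 * C₁ ^ 2) * (2 ^ hd E) ^ 2 * G (4 * l ^ 2) z) := by
  have ht : 0 < l ^ 2 := by positivity
  have g1 := G_pos ht z
  have g4 := G_pos (show 0 < 4 * l ^ 2 by positivity) z
  have h1 := sq_mul_G_le ht z
  have h2 := G_le_two ht z
  have h24 := G_le_two (show 0 < 2 * l ^ 2 by positivity) z
  rw [show 2 * (2 * l ^ 2) = 4 * l ^ 2 by ring] at h24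
  have h3 : ‖u‖ ^ 2 ≤ 2 * ‖z‖ ^ 2 + 2 * C₁ ^ 2 * l ^ 2 := by
    have : ‖u‖ ^ 2 ≤ (‖z‖ + C₁ * l) ^ 2 := by gcongr
    nlinarith [sq_nonneg (‖z‖ - C₁ * l)]
  calc _ ≤ G (l ^ 2) z * (2 * ‖z‖ ^ 2 + 2 * C₁ ^ 2 * l ^ 2) := by gcongr
    _ = 2 * (‖z‖ ^ 2 * G (l ^ 2) z) + 2 * C₁ ^ 2 * l ^ 2 * G (l ^ 2) z := by ring
    _ ≤ 2 * (8 * 2 ^ hd E * l ^ 2 * (2 ^ hd E * G (4 * l ^ 2) z)) +
        2 * C₁ ^ 2 * l ^ 2 * (2 ^ hd E * (2 ^ hd E * G (4 * l ^ 2) z)) :=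
      add_le_add (mul_le_mul_of_nonneg_left (h1.trans
        (mul_le_mul_of_nonneg_left h24 (by positivity))) (by norm_num))
        (mul_le_mul_of_nonneg_left (h2.trans
        (mul_le_mul_of_nonneg_left h24 (by positivity))) (by positivity))
    _ = _ := by ring

theorem pt_Spread {l C₁ c η : ℝ} (hl : 0 < l) (hC : 0 ≤ C₁) (hc : 0 ≤ c) (hη : 0 < η)
    {A : E →L[ℝ] E} (hA : Psd A) {ε b ind : ℝ} (hb : 0 ≤ b) (hε : |ε| ≤ (tr A + b) / 2)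
    (hi : 0 ≤ ind) {z u : E} (hu : ‖u‖ ≤ ‖z‖ + C₁ * l)
    (h : ‖u‖ ≤ c * l ∨ (ind = tr A ∧ ‖z‖ ≤ C₁ * l) ∨ C₁ * l ≤ ‖z‖) :
    |G (l ^ 2) z * ((ε * ⟪z, u⟫ - ⟪A u, z⟫) / (2 * l ^ 2))| ≤
      (3 + C₁ ^ 2 / 8) * 2 ^ hd E * (G (2 * l ^ 2) z * b) +
      (5 / 4 * c + 4 * exp (-(C₁ ^ 2 / 2 / 8)) + η * (8 + C₁ ^ 2)) * (2 ^ hd E) ^ 2 *
        (G (4 * l ^ 2) z * tr A) + C₁ ^ 2 / 2 * (G (l ^ 2) z * ind) +
      (2 * η * l ^ 2)⁻¹ * (G (l ^ 2) z * (⟪A z, z⟫ / 4)) := by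
  have ht : 0 < l ^ 2 := by positivity
  have g1 := G_pos ht z
  have hτ := hA.tr_nonneg
  have h1 := zu_Spread hl hC hc hτ hi hu h
  have h2 := mul_le_mul_of_nonneg_right (zu'_Spread hl hu) hb
  have h3 := mul_le_mul_of_nonneg_right (uu_Spread hl hu) (mul_nonneg hη.le hτ)
  have h4 := hA.amgm hη u z
  have h5 := hA.le_tr u
  have h6 : |ε * ⟪z, u⟫| ≤ (tr A + b) / 2 * (‖z‖ * ‖u‖) := by
    rw [abs_mul]
    exact mul_le_mul hε (abs_real_inner_le_norm z u) (abs_nonneg _) (by positivity)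
  have h7 : |ε * ⟪z, u⟫ - ⟪A u, z⟫| ≤ (tr A + b) / 2 * (‖z‖ * ‖u‖) +
      (η * (tr A * ‖u‖ ^ 2) + ⟪A z, z⟫ / (4 * η)) := by
    refine (abs_sub _ _).trans (add_le_add h6 (h4.trans ?_))
    gcongr
  have h8 := mul_le_mul_of_nonneg_left h7 g1.le
  rw [abs_mul, abs_div, abs_of_pos g1, abs_of_pos (show 0 < 2 * l ^ 2 by positivity),
    ← mul_div_assoc, div_le_iff₀ (by positivity)]
  have e : (2 * η * l ^ 2)⁻¹ * (G (l ^ 2) z * (⟪A z, z⟫ / 4)) * (2 * l ^ 2) =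
      G (l ^ 2) z * (⟪A z, z⟫ / (4 * η)) := by
    field_simp
  rw [add_mul, e]
  nlinarith

theorem spread : ∃ C₁ ≥ (2 : ℝ), ∃ c₁ > (0 : ℝ), SpreadAt E C₁ c₁ := by
  obtain ⟨C, hC1, hid⟩ := ident (E := E)
  have hH1 : (1 : ℝ) ≤ 2 ^ hd E := one_le_rpow (by norm_num) hd_nonneg
  obtain ⟨H, hH⟩ : ∃ H : ℝ, H = 2 ^ hd E := ⟨_, rfl⟩
  rw [← hH] at hH1
  obtain ⟨C₁, hC₁⟩ : ∃ C₁ : ℝ, C₁ = 48 * H := ⟨_, rfl⟩
  have hC2 : 2 ≤ C₁ := by linarith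
  have hC0 : 0 < C₁ := by linarith
  have hH0 : 0 < H := by linarith
  have hex : 16 * H ^ 2 * exp (-(C₁ ^ 2 / 2 / 8)) ≤ 1 / 8 := by
    have h1 := add_one_le_exp (C₁ ^ 2 / 2 / 8)
    rw [exp_neg, ← div_eq_mul_inv, div_le_iff₀ (exp_pos _)]
    have : C₁ ^ 2 = 2304 * H ^ 2 := by rw [hC₁]; ring
    nlinarith [sq_nonneg H]
  obtain ⟨η, hη⟩ : ∃ η : ℝ, η = (32 * H ^ 2 * (8 + C₁ ^ 2))⁻¹ := ⟨_, rfl⟩
  have hη0 : 0 < η := by rw [hη]; positivity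
  have hη1 : 4 * H ^ 2 * (η * (8 + C₁ ^ 2)) = 1 / 8 := by
    rw [hη]; field_simp; norm_num
  obtain ⟨K, hK⟩ : ∃ K : ℝ, K = (9 / 2 + C₁ ^ 2 / 8) * H + 5 * H ^ 2 + C₁ ^ 2 / 2 + (2 * η)⁻¹ +
      C * (1 + C₁) := ⟨_, rfl⟩
  have hK0 : 0 < K := by rw [hK]; positivity
  obtain ⟨c₁, hc₁⟩ : ∃ c₁ : ℝ, c₁ = (8 * K)⁻¹ := ⟨_, rfl⟩
  have hc0 : 0 < c₁ := by rw [hc₁]; positivity
  have hcK : K * c₁ = 1 / 8 := by rw [hc₁]; field_simp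
  refine ⟨C₁, hC2, c₁, hc0, ?_⟩
  intro ε T c R μ h n hn l σ x₀ p hl hσ hR hx hp hlow hup hsm Γ hΓ hfew
  by_contra hcon
  push Not at hcon
  have ht : 0 < l ^ 2 := by positivity
  have ht2 : 0 < 2 * l ^ 2 := by positivity
  have ht4 : 0 < 4 * l ^ 2 := by positivity
  have key := hid ε T c R μ h 3 n hn (l ^ 2) C₁ x₀ p ht hR hx hC0.le (by rwa [sqrt_sq hl.le])
  have hS : MeasurableSet (ball x₀ (C₁ * l) \ Γ) := measurableSet_ball.diff hΓ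
  have bτ := h.bm_tau
  have bβ := h.bm_bet.abs
  have bi := bτ.indicator hS
  have ba : BM fun y => ((3 : ℕ) : ℝ) * ε y - ∑ i, ⟪T y (n i), n i⟫ :=
    (h.bε.const_mul _).sub (BM.sum _ fun i _ => h.bT _ _)
  have i0 : ∀ y, 0 ≤ (ball x₀ (C₁ * l) \ Γ).indicator (tau T) y := fun y =>
    indicator_nonneg (fun y _ => h.tau_nonneg y) y
  have hpt : ∀ y, |G (l ^ 2) (y - x₀) * ((ε y * ⟪y - x₀, Pn n (y - p)⟫ -
      ⟪T y (Pn n (y - p)), y - x₀⟫) / (2 * l ^ 2))| ≤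
      (3 + C₁ ^ 2 / 8) * H * (G (2 * l ^ 2) (y - x₀) * |bet ε T y|) +
      (5 / 4 * c₁ + 4 * exp (-(C₁ ^ 2 / 2 / 8)) + η * (8 + C₁ ^ 2)) * H ^ 2 *
        (G (4 * l ^ 2) (y - x₀) * tau T y) +
      C₁ ^ 2 / 2 * (G (l ^ 2) (y - x₀) * (ball x₀ (C₁ * l) \ Γ).indicator (tau T) y) +
      (2 * η * l ^ 2)⁻¹ * (G (l ^ 2) (y - x₀) * (⟪T y (y - x₀), y - x₀⟫ / 4)) := by
    intro y
    rw [hH]
    refine pt_Spread hl hC0.le hc0.le hη0 (h.psd' y) (abs_nonneg _) (abs_eps_le h y) (i0 y) ?_ ?_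
    · refine (norm_Pn_le hn _).trans ?_
      have := norm_sub_le (y - x₀) (p - x₀)
      rw [sub_sub_sub_cancel_right] at this
      linarith
    · by_cases h1 : ‖y - x₀‖ < C₁ * l
      · by_cases h2 : y ∈ Γ
        · exact Or.inl (hcon y h2 h1).le
        · refine Or.inr (Or.inl ⟨?_, h1.le⟩)
          exact indicator_of_mem (show y ∈ ball x₀ (C₁ * l) \ Γ from
            ⟨mem_ball_iff_norm.2 h1, h2⟩) _
      · exact Or.inr (Or.inr (not_lt.1 h1))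
  have j1 := (bβ.integrable_G ht2 x₀).const_mul ((3 + C₁ ^ 2 / 8) * H)
  have j2 := (bτ.integrable_G ht4 x₀).const_mul
    ((5 / 4 * c₁ + 4 * exp (-(C₁ ^ 2 / 2 / 8)) + η * (8 + C₁ ^ 2)) * H ^ 2)
  have j3 := (bi.integrable_G ht x₀).const_mul (C₁ ^ 2 / 2)
  have j4 : Integrable fun y =>
      (2 * η * l ^ 2)⁻¹ * (G (l ^ 2) (y - x₀) * (⟪T y (y - x₀), y - x₀⟫ / 4)) := by
    refine Integrable.const_mul ?_ _
    simpa only [mul_div_assoc] using (h.integrable_rad ht x₀ x₀).div_const 4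
  have j := ((j1.add j2).add j3).add j4
  have mPn : Measurable fun y : E => Pn n (y - p) := by fun_prop
  have mz : Measurable fun y : E => y - x₀ := by fun_prop
  have mq : Measurable fun y => G (l ^ 2) (y - x₀) * ((ε y * ⟪y - x₀, Pn n (y - p)⟫ -
      ⟪T y (Pn n (y - p)), y - x₀⟫) / (2 * l ^ 2)) :=
    (BM.G_sub ht x₀).meas.mul
      (((h.bε.meas.mul (mz.inner mPn)).sub (h.meas_T mPn mz)).div_const _)
  have iq : Integrable fun y => G (l ^ 2) (y - x₀) * ((ε y * ⟪y - x₀, Pn n (y - p)⟫ -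
      ⟪T y (Pn n (y - p)), y - x₀⟫) / (2 * l ^ 2)) :=
    j.mono' mq.aestronglyMeasurable (Filter.Eventually.of_forall hpt)
  have hq : ∫ y, G (l ^ 2) (y - x₀) * ((ε y * ⟪y - x₀, Pn n (y - p)⟫ -
      ⟪T y (Pn n (y - p)), y - x₀⟫) / (2 * l ^ 2)) ≤
      (3 + C₁ ^ 2 / 8) * H * P (2 * l ^ 2) (fun y => |bet ε T y|) x₀ +
      (5 / 4 * c₁ + 4 * exp (-(C₁ ^ 2 / 2 / 8)) + η * (8 + C₁ ^ 2)) * H ^ 2 *
        P (4 * l ^ 2) (tau T) x₀ +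
      C₁ ^ 2 / 2 * P (l ^ 2) ((ball x₀ (C₁ * l) \ Γ).indicator (tau T)) x₀ +
      (2 * η * l ^ 2)⁻¹ * rad T (l ^ 2) x₀ := by
    refine (integral_mono iq j fun y => (le_abs_self _).trans (hpt y)).trans (le_of_eq ?_)
    have := integral_add ((j1.add j2).add j3) j4
    have h2 := integral_add (j1.add j2) j3
    have h3 := integral_add j1 j2
    simp only [Pi.add_apply] at this h2 h3 ⊢
    rw [this, h2, h3]
    simp only [integral_const_mul]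
    rfl
  simp only [mul_sub (G (l ^ 2) _) (_ - _)] at key
  rw [integral_sub (ba.integrable_G ht x₀) iq] at key
  have k1 := (le_abs_self _).trans key
  have k2 : P (l ^ 2) (fun y => 1 / 2 * tau T y - 3 / 2 * |bet ε T y|) x₀ ≤
      P (l ^ 2) (fun y => ((3 : ℕ) : ℝ) * ε y - ∑ i, ⟪T y (n i), n i⟫) x₀ := by
    refine P_mono ((bτ.const_mul _).sub (bβ.const_mul _)) ba ht (fun y => ?_) x₀
    have h1 := (h.psd' y).par_nonneg hn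
    have h2 := neg_abs_le (bet ε T y)
    unfold tau
    unfold bet at h2 ⊢
    push_cast
    linarith
  rw [P_sub (bτ.const_mul _) (bβ.const_mul _) ht, P_const_mul, P_const_mul] at k2
  have k3 := P_le_of_le_mul (c := 2) bβ (fun y => abs_nonneg _) ht
    (show l ^ 2 ≤ 2 * l ^ 2 by linarith) le_rfl x₀
  rw [← hH] at k3
  have k4 : l ^ 2 * P (l ^ 2) ((ball x₀ (C₁ * l) \ Γ).indicator (tau T)) x₀ ≤ c₁ * σ := by
    have ii : Integrable ((ball x₀ (C₁ * l) \ Γ).indicator (tau T)) :=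
      (integrable_indicator_iff hS).2 (bτ.integrableOn (isBounded_ball.subset sdiff_subset))
    have h1 := P_le_integral ii i0 ht x₀
    rw [integral_indicator hS] at h1
    have h2 : (4 * π * l ^ 2) ^ (-hd E) ≤ (l ^ finrank ℝ E)⁻¹ := by
      have h3 := rpow_hd_eq (V := E) ht
      rw [sqrt_sq hl.le] at h3
      rw [← h3, ← rpow_neg ht.le]
      refine rpow_le_rpow_of_nonpos ht ?_ (neg_nonpos.2 hd_nonneg)
      nlinarith [pi_gt_three]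
    have h4 : (4 * π * l ^ 2) ^ (-hd E) * ∫ y in ball x₀ (C₁ * l) \ Γ, tau T y ≤
        (l ^ finrank ℝ E)⁻¹ * (c₁ * σ * (l ^ finrank ℝ E / l ^ 2)) :=
      (mul_le_mul_of_nonneg_left hfew (by positivity)).trans
        (mul_le_mul_of_nonneg_right h2 (by positivity))
    calc _ ≤ l ^ 2 * ((l ^ finrank ℝ E)⁻¹ * (c₁ * σ * (l ^ finrank ℝ E / l ^ 2))) :=
          mul_le_mul_of_nonneg_left (h1.trans h4) ht.le
      _ = _ := by field_simp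
  have n1 := h.rad_nonneg ht x₀
  have n2 : 0 ≤ l ^ 2 * P (2 * l ^ 2) (fun y => |bet ε T y|) x₀ :=
    mul_nonneg ht.le (P_nonneg ht2.le (fun y => abs_nonneg _) x₀)
  have n3 : 0 ≤ μ * l ^ 2 := mul_nonneg h.μ0 ht.le
  have tot : 1 / 2 * P (l ^ 2) (tau T) x₀ ≤
      (9 / 2 + C₁ ^ 2 / 8) * H * P (2 * l ^ 2) (fun y => |bet ε T y|) x₀ +
      (5 / 4 * c₁ + 4 * exp (-(C₁ ^ 2 / 2 / 8)) + η * (8 + C₁ ^ 2)) * H ^ 2 *
        P (4 * l ^ 2) (tau T) x₀ +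
      C₁ ^ 2 / 2 * P (l ^ 2) ((ball x₀ (C₁ * l) \ Γ).indicator (tau T)) x₀ +
      (2 * η * l ^ 2)⁻¹ * rad T (l ^ 2) x₀ + C * (1 + C₁) * μ := by
    have : P (l ^ 2) (fun y => ((3 : ℕ) : ℝ) * ε y - ∑ i, ⟪T y (n i), n i⟫) x₀ =
      ∫ y, G (l ^ 2) (y - x₀) * (((3 : ℕ) : ℝ) * ε y - ∑ i, ⟪T y (n i), n i⟫) := rfl
    rw [← this] at k1
    have k5 := (sub_le_sub k2 hq).trans k1
    linarith
  have t1 : (9 / 2 + C₁ ^ 2 / 8) * H * (l ^ 2 * P (2 * l ^ 2) (fun y => |bet ε T y|) x₀) ≤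
      (9 / 2 + C₁ ^ 2 / 8) * H * (c₁ * σ) :=
    mul_le_mul_of_nonneg_left (by linarith) (by positivity)
  have t2 : (5 / 4 * c₁ + 4 * exp (-(C₁ ^ 2 / 2 / 8)) + η * (8 + C₁ ^ 2)) * H ^ 2 *
      (l ^ 2 * P (4 * l ^ 2) (tau T) x₀) ≤
      (5 / 4 * c₁ + 4 * exp (-(C₁ ^ 2 / 2 / 8)) + η * (8 + C₁ ^ 2)) * H ^ 2 * (4 * σ) :=
    mul_le_mul_of_nonneg_left (by linarith) (by positivity)
  have t3 := mul_le_mul_of_nonneg_left k4 (show 0 ≤ C₁ ^ 2 / 2 by positivity)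
  have t4 : (2 * η)⁻¹ * rad T (l ^ 2) x₀ ≤ (2 * η)⁻¹ * (c₁ * σ) :=
    mul_le_mul_of_nonneg_left (by linarith) (by positivity)
  have t5 : C * (1 + C₁) * (μ * l ^ 2) ≤ C * (1 + C₁) * (c₁ * σ) :=
    mul_le_mul_of_nonneg_left (by linarith) (by positivity)
  have e4 : l ^ 2 * ((2 * η * l ^ 2)⁻¹ * rad T (l ^ 2) x₀) = (2 * η)⁻¹ * rad T (l ^ 2) x₀ := by
    field_simp
  have tot' := mul_le_mul_of_nonneg_left tot ht.le
  rw [mul_add, mul_add, e4] at tot'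
  have f1 := mul_le_mul_of_nonneg_right hex hσ.le
  have f2 : 4 * H ^ 2 * (η * (8 + C₁ ^ 2)) * σ = 1 / 8 * σ := by rw [hη1]
  have f3 : K * c₁ * σ = 1 / 8 * σ := by rw [hcK]
  rw [hK] at f3
  nlinarith

end Pool.Agent.Lib.MP_8daebb_an.G6
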