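import Pool.Agent.Lib.MP_8daebb_an.G6.Mass
import Pool.Agent.Lib.MP_8daebb_an.G6.Spread

/-! The tangential energy is small for the right plane. -/

open MeasureTheory Metric Set Module Real
open scoped RealInnerProductSpace

namespace Pool.Agent.Lib.MP_8daebb_an.G6

open AS HK

variable {E : Type*} [NormedAddCommGroup E] [InnerProductSpace ℝ E] [FiniteDimensional ℝ E]
  [MeasurableSpace E] [BorelSpace E]

theorem len_Plane {A r lam l' : ℝ} (hA : 2 ≤ A) (h0 : 0 < r) (hr : r ≤ lam) (hl : lam ≤ l') :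
    0 < lam ∧ 0 < lam ^ 2 ∧ r ^ 2 ≤ lam ^ 2 ∧ lam ^ 2 ≤ l' ^ 2 ∧ 4 * lam ^ 2 ≤ (A * l') ^ 2 ∧
      0 ≤ A * l' ∧ A * lam ≤ A * l' := by
  have h1 : 0 < lam := h0.trans_le hr
  have h2 : 0 < l' := h1.trans_le hl
  have h3 : 2 * lam ≤ A * l' := mul_le_mul hA hl h1.le (by linarith)
  refine ⟨h1, by positivity, pow_le_pow_left₀ h0.le hr 2, pow_le_pow_left₀ h1.le hl 2, ?_,
    by linarith, mul_le_mul_of_nonneg_left hl (by linarith)⟩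
  calc 4 * lam ^ 2 = (2 * lam) ^ 2 := by ring
    _ ≤ _ := pow_le_pow_left₀ (by linarith) h3 2

theorem Cell.calm_Plane {ε : E → ℝ} {T : E → E →L[ℝ] E} {e : E → ℝ} {x₀ : E}
    {A Cg μ σ κ r l l' : ℝ} (h : Cell ε T e x₀ A Cg μ σ κ r l l') (hCg : 1 ≤ Cg) {η t : ℝ}
    (hη : η ≤ 1 / Cg) {x : E} (hx : ‖x - x₀‖ ≤ A * l') (ex : e x ≤ η) (ht : r ^ 2 ≤ t)
    (ht' : t ≤ (A * l') ^ 2) :
    rad T t x ≤ Cg * η * σ ∧ t * P t (fun y => |bet ε T y|) x ≤ Cg * η * σ := by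
  have ht0 : 0 < t := lt_of_lt_of_le (pow_pos h.r0 2) ht
  have a1 := (h.calm x hx (ex.trans hη) t ht ht').1
  have a2 : Cg * e x * σ ≤ Cg * η * σ :=
    mul_le_mul_of_nonneg_right (mul_le_mul_of_nonneg_left ex (by linarith)) h.σ0.le
  have b1 : 0 ≤ t * P t (fun y => |bet ε T y|) x :=
    mul_nonneg ht0.le (P_nonneg ht0.le (fun y => abs_nonneg _) x)
  have b2 := h.st.rad_nonneg ht0 x
  constructor <;> linarith

/-- The hypotheses of `SpreadAt` hold in a cell at every scale. -/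
theorem Cell.spread {C₁ c₁ : ℝ} (hs : SpreadAt E C₁ c₁) {ε : E → ℝ} {T : E → E →L[ℝ] E}
    {e : E → ℝ} {x₀ : E} {A Cg μ σ κ r l l' : ℝ} (h : Cell ε T e x₀ A Cg μ σ κ r l l')
    (hA : 2 ≤ A) (hCg : 1 ≤ Cg) (hκ : (2 * Cg + 1) * κ ≤ c₁) (hκ' : κ ≤ 1 / Cg) {lam : ℝ}
    (hr : r ≤ lam) (hl : lam ≤ l') {n : Fin 3 → E} (hn : Orthonormal ℝ n) {p : E}
    (hp : ‖p - x₀‖ ≤ C₁ * lam) {Γ : Set E} (hΓ : MeasurableSet Γ)
    (hm : ∫ y in ball x₀ (C₁ * lam) \ Γ, tau T y ≤ c₁ * σ * (lam ^ finrank ℝ E / lam ^ 2)) :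
    ∃ x ∈ Γ, ‖x - x₀‖ < C₁ * lam ∧ c₁ * lam ≤ ‖Pn n (x - p)‖ := by
  obtain ⟨l0, l1, l2, l3, l4, l5, -⟩ := len_Plane hA h.r0 hr hl
  have h0 : ‖x₀ - x₀‖ ≤ A * l' := by rwa [sub_self, norm_zero]
  refine hs ε T x₀ (A * l') μ h.st n hn lam σ x₀ p l0 h.σ0 (by linarith) h0 hp
    (h.base _ l2 (by linarith)).1 (h.base _ (by linarith) l4).2 ?_ Γ hΓ hm
  have a1 := (h.calm_Plane hCg hκ' h0 h.e_base l2 (by linarith)).1
  have a2 := (h.calm_Plane hCg hκ' h0 h.e_base (t := 2 * lam ^ 2) (by linarith) (by linarith)).2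
  have a3 : 0 ≤ lam ^ 2 * P (2 * lam ^ 2) (fun y => |bet ε T y|) x₀ :=
    mul_nonneg l1.le (P_nonneg (by linarith) (fun y => abs_nonneg _) x₀)
  have a4 : μ * lam ^ 2 ≤ κ * σ := le_trans (mul_le_mul_of_nonneg_left l3 h.st.μ0) h.μ_le
  have a5 := mul_le_mul_of_nonneg_right hκ h.σ0.le
  linarith

/-- The averaged tensor is small on differences of calm points. -/
theorem Cell.two {ε : E → ℝ} {T : E → E →L[ℝ] E} {e : E → ℝ} {x₀ : E}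
    {A Cg μ σ κ r l l' : ℝ} (h : Cell ε T e x₀ A Cg μ σ κ r l l') (hA : 2 ≤ A) (hCg : 1 ≤ Cg)
    {C₁ lam η : ℝ} (hC₁ : C₁ ≤ A) (hr : r ≤ lam) (hl : lam ≤ l') (hη : η ≤ 1 / Cg) {x p : E}
    (hx : ‖x - x₀‖ ≤ C₁ * lam) (hp : ‖p - x₀‖ ≤ C₁ * lam) (ex : e x ≤ η) (ep : e p ≤ η) :
    P (lam ^ 2) (fun y => ⟪T y (x - p), x - p⟫) x₀ ≤
      16 * 2 ^ hd E * exp (C₁ ^ 2 / 4) * Cg * η * σ := by
  obtain ⟨l0, l1, l2, l3, l4, l5, l6⟩ := len_Plane hA h.r0 hr hl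
  have l7 : C₁ * lam ≤ A * l' := (mul_le_mul_of_nonneg_right hC₁ l0.le).trans l6
  have a1 := (h.calm_Plane hCg hη (hx.trans l7) ex (t := 2 * lam ^ 2) (by linarith)
    (by linarith)).1
  have a2 := (h.calm_Plane hCg hη (hp.trans l7) ep (t := 2 * lam ^ 2) (by linarith)
    (by linarith)).1
  have a3 := two_point h.st (a := C₁ ^ 2) l1 (x₀ := x₀) (x := x) (p := p)
    (by rw [← mul_pow]; exact pow_le_pow_left₀ (norm_nonneg _) hx 2)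
    (by rw [← mul_pow]; exact pow_le_pow_left₀ (norm_nonneg _) hp 2)
  calc _ ≤ _ := a3
    _ ≤ 8 * 2 ^ hd E * exp (C₁ ^ 2 / 4) * (Cg * η * σ + Cg * η * σ) :=
      mul_le_mul_of_nonneg_left (add_le_add a1 a2) (by positivity)
    _ = _ := by ring

theorem fin_Plane {m lam q c D κ σ X : ℝ} (hm : 0 ≤ m) (hq : 0 ≤ q) (hc : 0 < c) (hκ : 0 ≤ κ)
    (hσ : 0 ≤ σ) (hX : X ≤ m * lam) (h : lam * (c * q) ≤ D * κ * σ) :
    q * X ≤ (1 + m * D / c) * κ * σ := by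
  have h1 : lam * q ≤ D * κ * σ / c := by
    rw [le_div_iff₀ hc]
    linarith
  calc q * X ≤ q * (m * lam) := mul_le_mul_of_nonneg_left hX hq
    _ = m * (lam * q) := by ring
    _ ≤ m * (D * κ * σ / c) := mul_le_mul_of_nonneg_left h1 hm
    _ ≤ κ * σ + m * (D * κ * σ / c) := le_add_of_nonneg_left (mul_nonneg hκ hσ)
    _ = _ := by ring

theorem plane_big (h3 : 3 ≤ finrank ℝ E) {C₁ c₁ : ℝ} (hs : SpreadAt E C₁ c₁) (hC₁ : 2 ≤ C₁)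
    (hc₁ : 0 < c₁) {A Cg : ℝ} (hA : C₁ ≤ A) (hCg : 1 ≤ Cg) :
    ∃ c₀ > (0 : ℝ), ∃ C ≥ (1 : ℝ), ∀ (ε : E → ℝ) (T : E → E →L[ℝ] E) (e : E → ℝ) (x₀ : E)
    (μ σ κ r l l' : ℝ), Cell ε T e x₀ A Cg μ σ κ r l l' → r ≤ l' → κ ≤ c₀ →
    ∃ n : Fin 2 → E, Orthonormal ℝ n ∧ l' ^ 2 * P (l' ^ 2) (tpar T n) x₀ ≤ C * κ * σ := by
  have hCg0 : 0 < Cg := by linarith
  obtain ⟨M, hM⟩ : ∃ M, M = 1 + 1 / c₁ := ⟨_, rfl⟩
  have hM1 : 1 ≤ M := by rw [hM]; exact le_add_of_nonneg_right (by positivity)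
  have hM2 : 1 / c₁ ≤ M := by rw [hM]; linarith
  have hM0 : 0 < M := by linarith
  refine ⟨min (c₁ / (2 * Cg + 1)) (1 / Cg / M), by positivity,
    1 + finrank ℝ E * (16 * 2 ^ hd E * exp (C₁ ^ 2 / 4) * Cg * M) / c₁ ^ 2,
    le_add_of_nonneg_right (by positivity), fun ε T e x₀ μ σ κ r l l' h hr hκ => ?_⟩
  have hκ0 := h.κ0
  have k1 : (2 * Cg + 1) * κ ≤ c₁ := by
    have := hκ.trans (min_le_left _ _)
    rwa [le_div_iff₀ (by positivity), mul_comm] at this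
  have k2 : M * κ ≤ 1 / Cg := by
    have := hκ.trans (min_le_right _ _)
    rwa [le_div_iff₀ hM0, mul_comm] at this
  have k3 : κ ≤ M * κ := le_mul_of_one_le_left hκ0.le hM1
  have k4 : κ / c₁ ≤ M * κ := by
    rw [div_eq_mul_one_div, mul_comm]
    exact mul_le_mul_of_nonneg_right hM2 hκ0.le
  have hA2 : 2 ≤ A := hC₁.trans hA
  obtain ⟨l0, l1, -⟩ := len_Plane hA2 h.r0 hr le_rfl
  obtain ⟨B, hB, hB1, -, hB3⟩ := h.st.exists_av l1 x₀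
  obtain ⟨n, hn, lam, hlam, e1, e2⟩ := eig3 h3 hB
  have hp : ‖x₀ - x₀‖ ≤ C₁ * l' := by
    rw [sub_self, norm_zero]
    positivity
  obtain ⟨x, hx, hx1, hx2⟩ := h.spread hs hA2 hCg k1 (k3.trans k2) hr le_rfl hn hp
    (Γ := {y | e y ≤ κ / c₁}) (measurableSet_le h.be.meas measurable_const) (by
      refine (mass_not_calm h.st.bm_tau h.st.tau_nonneg h.be h.e0
        (mul_le_mul_of_nonneg_right hA l0.le) (by positivity) h.few').trans (le_of_eq ?_)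
      field_simp)
  have a1 := h.two hA2 hCg hA hr le_rfl k2 hx1.le hp (le_trans hx k4) (h.e_base.trans k3)
  rw [← hB1] at a1
  refine ⟨_, orthonormal_two hn, ?_⟩
  rw [← hB3]
  refine fin_Plane (Nat.cast_nonneg _) l1.le (by positivity) hκ0.le h.σ0.le e2 ?_
  calc lam * (c₁ ^ 2 * l' ^ 2) = lam * (c₁ * l') ^ 2 := by ring
    _ ≤ lam * ‖Pn n (x - x₀)‖ ^ 2 :=
      mul_le_mul_of_nonneg_left (pow_le_pow_left₀ (by positivity) hx2 2) hlam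
    _ ≤ _ := (e1 _).trans a1
    _ = _ := by ring

theorem three_Plane {n : Fin 2 → E} (hn : Orthonormal ℝ n) {v : E}
    (hv : Orthonormal ℝ ![n 0, n 1, v]) (u : E) :
    ‖Pn ![n 0, n 1, v] u‖ ^ 2 = ‖Pn n u‖ ^ 2 + ⟪v, u - Pn n u⟫ ^ 2 := by
  have h0 : ⟪n 0, v⟫ = 0 := hv.2 (i := 0) (j := 2) (by decide)
  have h1 : ⟪n 1, v⟫ = 0 := hv.2 (i := 1) (j := 2) (by decide)
  have h2 : Pn n v = 0 := by
    rw [Pn_apply, Fin.sum_univ_two, h0, h1, zero_smul, zero_smul, add_zero]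
  rw [norm_Pn_sq hv, norm_Pn_sq hn, Fin.sum_univ_three, Fin.sum_univ_two, inner_sub_right,
    inner_Pn_of_Pn_eq_zero h2, sub_zero]
  rfl

theorem plane_small (h3 : 3 ≤ finrank ℝ E) {C₁ c₁ : ℝ} (hs : SpreadAt E C₁ c₁) (hC₁ : 2 ≤ C₁)
    (hc₁ : 0 < c₁) {A Cg C₀ : ℝ} (hA : C₁ ≤ A) (hCg : 1 ≤ Cg) (hC₀ : 1 ≤ C₀) :
    ∃ c₀ > (0 : ℝ), ∃ C ≥ (1 : ℝ), ∀ (ε : E → ℝ) (T : E → E →L[ℝ] E) (e : E → ℝ) (x₀ : E)
    (μ σ κ r l l' : ℝ), Cell ε T e x₀ A Cg μ σ κ r l l' → r ≤ l → l ≤ l' → r ^ 2 ≤ κ * l ^ 2 →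
    κ ≤ c₀ → ∀ n : Fin 2 → E, Orthonormal ℝ n → ∀ p : E, ‖p - x₀‖ ≤ C₁ * l → e p ≤ C₀ * κ →
    ∀ Γ : Set E, MeasurableSet Γ →
    (∀ x ∈ Γ, ‖x - x₀‖ < C₁ * l → e x ≤ C₀ * κ ∧ ‖Pn n (x - p)‖ ≤ C₀ * r) →
    ∫ y in ball x₀ (C₁ * l) \ Γ, tau T y ≤ c₁ * σ * (l ^ finrank ℝ E / l ^ 2) →
    l ^ 2 * P (l ^ 2) (tpar T n) x₀ ≤ C * κ * σ := by
  have hCg0 : 0 < Cg := by linarith
  have hC0 : 0 < C₀ := by linarith
  refine ⟨min (c₁ / (2 * Cg + 1)) (min (1 / Cg / C₀) (c₁ ^ 2 / 2 / C₀ ^ 2)), by positivity,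
    1 + finrank ℝ E * (2 * (16 * 2 ^ hd E * exp (C₁ ^ 2 / 4) * Cg * C₀) + 32 * C₀ ^ 2) /
      (c₁ ^ 2 / 2),
    le_add_of_nonneg_right (by positivity),
    fun ε T e x₀ μ σ κ r l l' h hr hl hrκ hκ n hn p hp ep Γ hΓ hg hm => ?_⟩
  have hκ0 := h.κ0
  have k1 : (2 * Cg + 1) * κ ≤ c₁ := by
    have := hκ.trans (min_le_left _ _)
    rwa [le_div_iff₀ (by positivity), mul_comm] at this
  have k2 : C₀ * κ ≤ 1 / Cg := by
    have := hκ.trans ((min_le_right _ _).trans (min_le_left _ _))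
    rwa [le_div_iff₀ hC0, mul_comm] at this
  have k3 : κ ≤ C₀ * κ := le_mul_of_one_le_left hκ0.le hC₀
  have k4 : κ * C₀ ^ 2 ≤ c₁ ^ 2 / 2 := by
    have := hκ.trans ((min_le_right _ _).trans (min_le_right _ _))
    rwa [le_div_iff₀ (by positivity)] at this
  have hA2 : 2 ≤ A := hC₁.trans hA
  obtain ⟨l0, l1, l2, -, l4, -⟩ := len_Plane hA2 h.r0 hr hl
  obtain ⟨B, hB, hB1, hB2, hB3⟩ := h.st.exists_av l1 x₀
  obtain ⟨v, hv, lam, hlam, e1, e2⟩ := eig1 h3 hB hn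
  obtain ⟨x, hx, hx1, hx2⟩ := h.spread hs hA2 hCg k1 (k3.trans k2) hr hl hv hp hΓ hm
  obtain ⟨g1, g2⟩ := hg x hx hx1
  have a1 := h.two hA2 hCg hA hr hl k2 hx1.le hp g1 ep
  rw [← hB1] at a1
  have a2 : ‖Pn n (x - p)‖ ^ 2 ≤ C₀ ^ 2 * (κ * l ^ 2) := by
    refine (pow_le_pow_left₀ (norm_nonneg _) g2 2).trans ?_
    rw [mul_pow]
    exact mul_le_mul_of_nonneg_left hrκ (by positivity)
  have a3 : c₁ ^ 2 / 2 * l ^ 2 ≤ ⟪v, x - p - Pn n (x - p)⟫ ^ 2 := by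
    have b1 := pow_le_pow_left₀ (by positivity) hx2 2
    rw [three_Plane hn hv, mul_pow] at b1
    have b2 := mul_le_mul_of_nonneg_right k4 l1.le
    linarith
  have a4 : l ^ 2 * tr B ≤ 16 * σ := by
    rw [hB2]
    exact (h.base _ l2 (by linarith)).2
  have a5 : ⟪B (Pn n (x - p)), Pn n (x - p)⟫ ≤ C₀ ^ 2 * κ * (16 * σ) := by
    calc _ ≤ _ := hB.le_tr _
      _ ≤ tr B * (C₀ ^ 2 * (κ * l ^ 2)) := mul_le_mul_of_nonneg_left a2 hB.tr_nonneg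
      _ = C₀ ^ 2 * κ * (l ^ 2 * tr B) := by ring
      _ ≤ _ := mul_le_mul_of_nonneg_left a4 (by positivity)
  rw [← hB3]
  refine fin_Plane (Nat.cast_nonneg _) l1.le (by positivity) hκ0.le h.σ0.le e2 ?_
  calc lam * (c₁ ^ 2 / 2 * l ^ 2) ≤ _ := mul_le_mul_of_nonneg_left a3 hlam
    _ ≤ _ := e1 _ (Pn_par hn _)
    _ ≤ _ := hB.sub_le _ _
    _ ≤ 2 * (16 * 2 ^ hd E * exp (C₁ ^ 2 / 4) * Cg * (C₀ * κ) * σ) +
        2 * (C₀ ^ 2 * κ * (16 * σ)) := by linarith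
    _ = _ := by ring

theorem rpow_Plane {l : ℝ} (hl : 0 < l) :
    (4 * π * l ^ 2) ^ hd E = (4 * π) ^ hd E * l ^ finrank ℝ E := by
  rw [mul_rpow (by positivity) (by positivity), rpow_hd_eq (t := l ^ 2) (by positivity),
    sqrt_sq hl.le]

/-- From heat averages to the masses in the conclusion. -/
theorem geo_out {C₁ A Cg C₀ : ℝ} (hC₁ : 2 ≤ C₁) (hA : C₁ ≤ A) (hCg : 1 ≤ Cg) (hC₀ : 1 ≤ C₀) :
    ∃ C ≥ (1 : ℝ), ∀ (ε : E → ℝ) (T : E → E →L[ℝ] E) (e : E → ℝ) (x₀ : E)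
    (μ σ κ r l l' : ℝ), Cell ε T e x₀ A Cg μ σ κ r l l' → 2 * r ≤ l → l ≤ l' →
    C₀ * κ ≤ 1 / Cg → ∀ n : Fin 2 → E, Orthonormal ℝ n → ∀ p : E, ‖p - x₀‖ ≤ C₁ * l →
    e p ≤ C₀ * κ → l ^ 2 * P (l ^ 2) (tpar T n) x₀ ≤ C₀ * κ * σ →
    ∫ y in ball x₀ (A * l), tpar T n y ≤ C * κ * σ * (l ^ finrank ℝ E / l ^ 2) ∧
    ∫ y in ball x₀ (A * l), ‖Pn n (y - p)‖ ^ 2 * tau T y ≤ C * κ * σ * l ^ finrank ℝ E := by
  obtain ⟨C₂, hC₂, H⟩ := cell_Hs (E := E)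
  have hCg0 : 0 < Cg := by linarith
  have hC0 : 0 < C₀ := by linarith
  have hC20 : 0 < C₂ := by linarith
  obtain ⟨K₁, hK₁⟩ : ∃ K, K = (4 * π) ^ hd E * exp (A ^ 2 / 4) * C₀ := ⟨_, rfl⟩
  obtain ⟨K₂, hK₂⟩ : ∃ K, K = (4 * π) ^ hd E * exp (16 * A ^ 2 / 4) *
    (C₂ * (2 * Cg * C₀ + 1 + 2 ^ hd E * exp (2 * C₁ ^ 2 / 4) * C₀ / 4)) := ⟨_, rfl⟩
  have hK1 : 0 ≤ K₁ := by rw [hK₁]; positivity
  have hK2 : 0 ≤ K₂ := by rw [hK₂]; positivity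
  refine ⟨1 + K₁ + K₂, by linarith, fun ε T e x₀ μ σ κ r l l' h hr hl hκ n hn p hp ep hP => ?_⟩
  have hκ0 := h.κ0
  have hσ0 := h.σ0
  have hr0 := h.r0
  have hA2 : 2 ≤ A := hC₁.trans hA
  obtain ⟨l0, l1, -, l3, l4, -, l6⟩ := len_Plane hA2 hr0 (show r ≤ l by linarith) hl
  have l7 : C₁ * l ≤ A * l := mul_le_mul_of_nonneg_right hA l0.le
  have t0 := h.st.tpar_nonneg hn
  constructor
  · have a1 := mass_ball_le_P (h.st.bm_tpar n) t0 l1 (A := A ^ 2) (r := A * l) x₀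
      (le_of_eq (mul_pow _ _ _))
    have a2 : P (l ^ 2) (tpar T n) x₀ ≤ C₀ * κ * σ / l ^ 2 := by
      rw [le_div_iff₀ l1, mul_comm]
      exact hP
    rw [rpow_Plane l0] at a1
    calc _ ≤ _ := a1
      _ ≤ (4 * π) ^ hd E * l ^ finrank ℝ E * exp (A ^ 2 / 4) * (C₀ * κ * σ / l ^ 2) :=
        mul_le_mul_of_nonneg_left a2 (by positivity)
      _ = K₁ * (κ * σ * (l ^ finrank ℝ E / l ^ 2)) := by rw [hK₁]; ring
      _ ≤ (1 + K₁ + K₂) * (κ * σ * (l ^ finrank ℝ E / l ^ 2)) :=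
        mul_le_mul_of_nonneg_right (by linarith) (by positivity)
      _ = _ := by ring
  · have a1 := moment_le_Hs h.st hn (t := l ^ 2 / 4) (a := 16 * A ^ 2) (by positivity) (x := p)
      (B := ball x₀ (A * l)) measurableSet_ball fun y hy => by
        have b1 : ‖y - x₀‖ < A * l := mem_ball_iff_norm.1 hy
        have b2 : ‖y - p‖ ≤ ‖y - x₀‖ + ‖p - x₀‖ := by
          simpa using norm_sub_le (y - x₀) (p - x₀)
        calc ‖y - p‖ ^ 2 ≤ (2 * (A * l)) ^ 2 := pow_le_pow_left₀ (norm_nonneg _) (by linarith) 2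
          _ = _ := by ring
    have a2 := H ε T e x₀ A Cg μ σ κ r l l' h n hn (l ^ 2 / 4) p (hp.trans (l7.trans l6))
      (ep.trans hκ) (by
        have := pow_le_pow_left₀ (by positivity) hr 2
        linarith) (by linarith) (by linarith)
    have a3 := P_shift_le (h.st.bm_tpar n) t0 (A := 2 * C₁ ^ 2) (t := 2 * (l ^ 2 / 4))
      (by positivity) (x := x₀) (x' := p) (by
        rw [norm_sub_rev]
        calc _ ≤ (C₁ * l) ^ 2 := pow_le_pow_left₀ (norm_nonneg _) hp 2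
          _ = _ := by ring)
    rw [show 2 * (2 * (l ^ 2 / 4)) = l ^ 2 by ring] at a3
    have a4 : l ^ 2 / 4 * P (2 * (l ^ 2 / 4)) (tpar T n) p ≤
        2 ^ hd E * exp (2 * C₁ ^ 2 / 4) / 4 * (C₀ * κ * σ) := by
      calc _ ≤ _ := mul_le_mul_of_nonneg_left a3 (by positivity)
        _ = 2 ^ hd E * exp (2 * C₁ ^ 2 / 4) / 4 * (l ^ 2 * P (l ^ 2) (tpar T n) x₀) := by ring
        _ ≤ _ := mul_le_mul_of_nonneg_left hP (by positivity)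
    have a5 : Cg * e p * σ ≤ Cg * (C₀ * κ) * σ :=
      mul_le_mul_of_nonneg_right (mul_le_mul_of_nonneg_left ep hCg0.le) hσ0.le
    have a6 : Hs ε T n (l ^ 2 / 4) p ≤ C₂ * (2 * (Cg * (C₀ * κ) * σ) + κ * σ +
        2 ^ hd E * exp (2 * C₁ ^ 2 / 4) / 4 * (C₀ * κ * σ)) :=
      a2.trans (mul_le_mul_of_nonneg_left (by linarith) hC20.le)
    have a7 : (4 * π * (l ^ 2 / 4)) ^ hd E ≤ (4 * π) ^ hd E * l ^ finrank ℝ E := by
      rw [← rpow_Plane l0]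
      exact rpow_le_rpow (by positivity)
        (mul_le_mul_of_nonneg_left (by linarith) (by positivity)) hd_nonneg
    calc _ ≤ _ := a1
      _ ≤ (4 * π) ^ hd E * l ^ finrank ℝ E * exp (16 * A ^ 2 / 4) *
          (C₂ * (2 * (Cg * (C₀ * κ) * σ) + κ * σ +
            2 ^ hd E * exp (2 * C₁ ^ 2 / 4) / 4 * (C₀ * κ * σ))) :=
        mul_le_mul (mul_le_mul_of_nonneg_right a7 (exp_pos _).le) a6
          (h.st.Hs_nonneg n (by positivity) p) (by positivity)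
      _ = K₂ * (κ * σ * l ^ finrank ℝ E) := by rw [hK₂]; ring
      _ ≤ (1 + K₁ + K₂) * (κ * σ * l ^ finrank ℝ E) :=
        mul_le_mul_of_nonneg_right (by linarith) (by positivity)
      _ = _ := by ring

end Pool.Agent.Lib.MP_8daebb_an.G6
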