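import Pool.Agent.Lib.MP_8daebb_an.G6.Core
import Pool.Agent.Lib.MP_8daebb_an.G6.Plane

/-! The geometry theorem. -/

open MeasureTheory Metric Set Module Real
open scoped RealInnerProductSpace

namespace Pool.Agent.Lib.MP_8daebb_an.G6

open AS HK

variable {E : Type*} [NormedAddCommGroup E] [InnerProductSpace ℝ E] [FiniteDimensional ℝ E]
  [MeasurableSpace E] [BorelSpace E]

theorem exists_J {r B : ℝ} (hr : 0 < r) (h : r ≤ B) :
    ∃ J : ℕ, 2 ^ J * r ^ 2 ≤ B ^ 2 ∧ B ^ 2 ≤ 2 * (2 ^ J * r ^ 2) := by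
  have hr2 : 0 < r ^ 2 := by positivity
  have h1 : 1 ≤ B ^ 2 / r ^ 2 := by
    rw [le_div_iff₀ hr2, one_mul]; gcongr
  obtain ⟨J, a, b⟩ := exists_nat_pow_near h1 (show (1 : ℝ) < 2 by norm_num)
  rw [le_div_iff₀ hr2] at a
  rw [div_lt_iff₀ hr2, pow_succ (2 : ℝ)] at b
  exact ⟨J, a, by linarith⟩

theorem near_plane {n n' : Fin 2 → E} {a : Fin 2 → E} {γ : Fin 2 → ℝ} {x₀ x p : E} {ρ : ℝ}
    (hρ : 0 ≤ ρ) (hf : ∀ z, ‖Pn n' z‖ ^ 2 ≤ ∑ i, ⟪n i - a i, z⟫ ^ 2)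
    (hx : ∀ i, |⟪n i - a i, x - x₀⟫ - γ i| ≤ ρ) (hp : ∀ i, |⟪n i - a i, p - x₀⟫ - γ i| ≤ ρ) :
    ‖Pn n' (x - p)‖ ≤ 3 * ρ := by
  have h1 : ∀ i, ⟪n i - a i, x - p⟫ ^ 2 ≤ (2 * ρ) ^ 2 := fun i => by
    have e : ⟪n i - a i, x - p⟫ = (⟪n i - a i, x - x₀⟫ - γ i) - (⟪n i - a i, p - x₀⟫ - γ i) := by
      rw [show x - p = (x - x₀) - (p - x₀) by abel, inner_sub_right _ (x - x₀)]; ring
    rw [e]
    refine sq_le_sq' ?_ ?_ <;> linarith [abs_le.1 (hx i), abs_le.1 (hp i)]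
  refine le_of_sq_le_sq ((hf _).trans ?_) (by positivity)
  rw [Fin.sum_univ_two]
  nlinarith [h1 0, h1 1, sq_nonneg ρ]

theorem geomStmt (h3 : 3 ≤ finrank ℝ E) : GeomStmt E := by
  obtain ⟨C₁, hC₁, c₁, hc₁, hs⟩ := spread (E := E)
  refine ⟨C₁, by linarith, fun A hA Cg hCg => ?_⟩
  have hA2 : 2 ≤ A := hC₁.trans hA
  obtain ⟨cb, hcb, Cb, hCb, Hb⟩ := plane_big h3 hs hC₁ hc₁ hA hCg
  obtain ⟨Ch, hCh, Hh⟩ := cell_Hs (E := E)
  set CH : ℝ := Cb + Ch * (2 * Cg + 1 + Cb) with hCHd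
  have hCH0 : 0 ≤ Ch * (2 * Cg + 1 + Cb) := by positivity
  have hCH : 1 ≤ CH := by linarith
  obtain ⟨cp, hcp, Cp, hCp, Hp⟩ := core_pt (E := E) hA2 hCg hCH
  obtain ⟨Cm, hCm, Hm⟩ := core_mass (E := E) hA2 hCg hCH
  set C₀ : ℝ := 3 * Cp + 2 / c₁ with hC₀d
  have hc₁' : 0 < 2 / c₁ := by positivity
  have hC₀ : 1 ≤ C₀ := by linarith
  obtain ⟨cs, hcs, Cs, hCs, Hs'⟩ := plane_small h3 hs hC₁ hc₁ hA hCg hC₀
  obtain ⟨Co, hCo, Ho⟩ := geo_out (E := E) (C₀ := C₀ + Cs) hC₁ hA hCg (by linarith)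
  set M : ℝ := 4 * A + (C₀ + Cs) * Cg + (2 * Cg + 1) / c₁ + 2 * Cm / c₁ + 1 / cb + 1 / cp + 1 / cs
    with hM
  have m1 : 0 < (C₀ + Cs) * Cg := by positivity
  have m2 : 0 < (2 * Cg + 1) / c₁ := by positivity
  have m3 : 0 < 2 * Cm / c₁ := by positivity
  have m4 : 0 < 1 / cb := by positivity
  have m5 : 0 < 1 / cp := by positivity
  have m6 : 0 < 1 / cs := by positivity
  have hM0 : 0 < M := by positivity
  refine ⟨1 / M, by positivity, C₀ + Cm + Co, by linarith,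
    fun ε T e x₀ μ σ κ κ₂ r B l l' h hp => ?_⟩
  have hcM : ∀ {X u : ℝ}, X ≤ M → 0 ≤ u → u ≤ 1 / M → X * u ≤ 1 := fun {X u} hX hu hu' => by
    calc X * u ≤ M * u := by gcongr
      _ ≤ M * (1 / M) := by gcongr
      _ = 1 := by field_simp
  have hinv : ∀ {a u : ℝ}, 0 < a → 1 / a ≤ M → 0 ≤ u → u ≤ 1 / M → u ≤ a :=
    fun {a u} ha hX hu hu' => by
      have := hcM hX hu hu'
      rwa [one_div, inv_mul_le_iff₀ ha, mul_one] at this
  have hc0 : 0 < 1 / M := by positivity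
  have hr := h.r0
  have hσ := h.σ0
  have hκ := h.κ0
  have c1 : A * (1 / M) ≤ 1 / 4 := by linarith [hcM (X := 4 * A) (by linarith) hc0.le le_rfl]
  obtain ⟨hB, hl, hl', hBl, hll, -, -, -, hκ2⟩ := hp.basic hr hκ hc0
    (by linarith [mul_le_mul_of_nonneg_right hA2 hc0.le])
  have hκc : κ ≤ 1 / M := hκ2.trans hp.small
  have hκ₂ : 0 < κ₂ := hκ.trans_le hκ2
  have hrB := hp.r_le
  have k1 : (C₀ + Cs) * κ ≤ 1 / Cg := by
    rw [le_div_iff₀ (by positivity)]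
    linarith [hcM (X := (C₀ + Cs) * Cg) (by linarith) hκ.le hκc]
  have k2 : κ ≤ 1 / Cg := le_trans (le_mul_of_one_le_left hκ.le (by linarith)) k1
  have k3 : (2 * Cg + 1) * κ ≤ c₁ := by
    have := hcM (X := (2 * Cg + 1) / c₁) (by linarith) hκ.le hκc
    rwa [div_mul_eq_mul_div, div_le_one hc₁] at this
  have k4 : Cm * κ₂ ≤ c₁ / 2 := by
    have := hcM (X := 2 * Cm / c₁) (by linarith) hκ₂.le hp.small
    rw [div_mul_eq_mul_div, div_le_one hc₁] at this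
    linarith
  obtain ⟨n, hn, hτ⟩ := Hb ε T e x₀ μ σ κ r l l' h (by linarith) (hinv hcb (by linarith) hκ.le hκc)
  have hκσ : 0 < κ * σ := by positivity
  have hτ' : l' ^ 2 * P (l' ^ 2) (tpar T n) x₀ ≤ CH * κ * σ := hτ.trans (by gcongr; linarith)
  obtain ⟨J, hJ, hJ'⟩ := exists_J hr hrB
  obtain ⟨-, -, hAl, hR, hR2, hB4, -, -, -⟩ :=
    len_facts hA2 c1 hB hl hl' hBl hll hp.l_le (by positivity) hJ hJ'
  have hll2 : 0 < l' ^ 2 := by positivity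
  have hrB2 : r ^ 2 ≤ B ^ 2 := by gcongr
  have hH : Hs ε T n (l' ^ 2 / 2) x₀ ≤ CH * κ * σ := by
    have a1 := Hh ε T e x₀ A Cg μ σ κ r l l' h n hn (l' ^ 2 / 2) x₀ (by simp; positivity)
      (h.e_base.trans k2) (by linarith) (by linarith) (by linarith)
    rw [show 2 * (l' ^ 2 / 2) = l' ^ 2 by ring] at a1
    have a2 : Cg * e x₀ * σ ≤ Cg * κ * σ := by gcongr; exact h.e_base
    have a3 : 0 ≤ Cb * κ * σ := by positivity
    calc _ ≤ _ := a1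
      _ ≤ Ch * (2 * (Cg * κ * σ) + κ * σ + Cb * κ * σ) :=
        mul_le_mul_of_nonneg_left (by linarith) (by linarith)
      _ = Ch * (2 * Cg + 1 + Cb) * κ * σ := by ring
      _ ≤ _ := by gcongr; linarith
  obtain ⟨a, γ, ha, hcore⟩ := Hp ε T e x₀ _ μ σ κ κ₂ r B l l' h hp hc0
    (hinv hcp (by linarith) hc0.le le_rfl) n hn hτ' hH J hJ hJ'
  have hmass := Hm ε T e x₀ _ μ σ κ κ₂ r B l l' h hp hc0 c1 n hn hτ' hH J hJ hJ'
  obtain ⟨n', hn', hf⟩ := frame hn ha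
  have hG := h.measurableSet_good n B J
  have hE : MeasurableSet {y | e y ≤ C₀ * κ} := measurableSet_le h.be.meas measurable_const
  have hCA : C₁ * l ≤ A * l := by gcongr
  have hq : 0 < l ^ finrank ℝ E / l ^ 2 := by positivity
  have hτ0 := h.st.tau_nonneg
  have hτb := h.st.bm_tau
  have hm : ∫ y in ball x₀ (C₁ * l) \ (Good T e n x₀ Cg σ r B J ∩ {y | e y ≤ C₀ * κ}), tau T y ≤
      c₁ * σ * (l ^ finrank ℝ E / l ^ 2) := by
    refine (mass_diff_inter_le hτb hτ0 hG hE).trans ?_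
    have a1 : ∫ y in ball x₀ (C₁ * l) \ Good T e n x₀ Cg σ r B J, tau T y ≤
        ∫ y in ball x₀ (A * l) \ Good T e n x₀ Cg σ r B J, tau T y :=
      setIntegral_mono_set (hτb.integrableOn (isBounded_ball.subset sdiff_subset))
        (Filter.Eventually.of_forall hτ0) (sdiff_subset_sdiff_left (ball_subset_ball hCA)).eventuallyLE
    have a2 := mass_not_calm hτb hτ0 h.be h.e0 hCA (ρ := C₀ * κ) (by positivity) h.few
    have a3 : κ * σ * (l ^ finrank ℝ E / l ^ 2) / (C₀ * κ) ≤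
        c₁ / 2 * σ * (l ^ finrank ℝ E / l ^ 2) := by
      calc _ ≤ κ * σ * (l ^ finrank ℝ E / l ^ 2) / (2 / c₁ * κ) := by gcongr; linarith
        _ = _ := by field_simp
    have a4 : Cm * κ₂ * σ * (l ^ finrank ℝ E / l ^ 2) ≤
        c₁ / 2 * σ * (l ^ finrank ℝ E / l ^ 2) := by gcongr
    linarith
  obtain ⟨n₃, hn₃, -⟩ := eig3 h3 (h.st.psd' x₀)
  obtain ⟨p, ⟨pG, pE⟩, pn, -⟩ := h.spread hs hA2 hCg k3 k2 (lam := l) (by linarith) (by linarith)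
    hn₃ (p := x₀) (by simp; positivity) (hG.inter hE) hm
  have hnear : ∀ x ∈ Good T e n x₀ Cg σ r B J, ‖x - x₀‖ < A * l → ‖Pn n' (x - p)‖ ≤ C₀ * r :=
    fun x hx hx' => by
      have := near_plane (x := x) (p := p) (by positivity) hf
        (hcore x hx' hx.1 hx.2.1 hx.2.2) (hcore p (pn.trans_le hCA) pG.1 pG.2.1 pG.2.2)
      calc _ ≤ _ := this
        _ = 3 * Cp * r := by ring
        _ ≤ _ := by gcongr; linarith
  have hpar := Hs' ε T e x₀ μ σ κ r l l' h (by linarith) (by linarith) hp.p5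
    (hinv hcs (by linarith) hκ.le hκc) n' hn' p pn.le pE _ (hG.inter hE)
    (fun x hx hx' => ⟨hx.2, hnear x hx.1 (hx'.trans_le hCA)⟩) hm
  obtain ⟨o1, o2⟩ := Ho ε T e x₀ μ σ κ r l l' h (by linarith) (by linarith) k1 n' hn' p pn.le
    (le_trans pE (by gcongr; linarith)) (hpar.trans (by gcongr; linarith))
  refine ⟨p, n', hn', pn.le, ?_, o1.trans (by gcongr; linarith), o2.trans (by gcongr; linarith)⟩
  have b1 : ball x₀ (A * l) ∩ {y | (C₀ + Cm + Co) * r < ‖Pn n' (y - p)‖} ⊆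
      ball x₀ (A * l) \ Good T e n x₀ Cg σ r B J := fun y hy => ⟨hy.1, fun hg => by
    have a1 := hnear y hg (by simpa [dist_eq_norm] using hy.1)
    have a2 : (C₀ + Cm + Co) * r < ‖Pn n' (y - p)‖ := hy.2
    have a3 : C₀ * r ≤ (C₀ + Cm + Co) * r := by gcongr; linarith
    linarith⟩
  refine (setIntegral_mono_set (hτb.integrableOn (isBounded_ball.subset sdiff_subset))
    (Filter.Eventually.of_forall hτ0) b1.eventuallyLE).trans (hmass.trans ?_)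
  gcongr
  linarith

end Pool.Agent.Lib.MP_8daebb_an.G6
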