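import Pool.Agent.Lib.MP_8daebb_an.AS.Def
import Pool.Agent.Lib.MP_8daebb_an.HK.Mass

/-! Geometry of a good cell: definitions and the statement. -/

open MeasureTheory Metric Set Module Real
open scoped RealInnerProductSpace

namespace Pool.Agent.Lib.MP_8daebb_an.G6

open AS HK

variable {E : Type*} [NormedAddCommGroup E] [InnerProductSpace ℝ E] [FiniteDimensional ℝ E]
  [MeasurableSpace E] [BorelSpace E]

/-- The orthogonal projection onto the span of an orthonormal family. -/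
noncomputable def Pn {d : ℕ} (n : Fin d → E) : E →L[ℝ] E :=
  ∑ i, (innerSL ℝ (n i)).smulRight (n i)

/-- Energy density. -/
noncomputable def tau (T : E → E →L[ℝ] E) (y : E) : ℝ := tr (T y)

/-- The defect. -/
noncomputable def bet (ε : E → ℝ) (T : E → E →L[ℝ] E) (y : E) : ℝ := 2 * ε y - tr (T y)

/-- The part of the energy tangent to the orthogonal complement of the family `n`. -/
noncomputable def tpar {d : ℕ} (T : E → E →L[ℝ] E) (n : Fin d → E) (y : E) : ℝ :=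
  tr (T y) - ∑ i, ⟪T y (n i), n i⟫

/-- The radial energy. -/
noncomputable def rad (T : E → E →L[ℝ] E) (t : ℝ) (x : E) : ℝ :=
  ∫ y, G t (y - x) * (⟪T y (y - x), y - x⟫ / 4)

/-- A stress pair, divergence free up to `μ` against fields dominated by a Gaussian of time at most
`R ^ 2` centred within `R` of `c`. -/
structure St (ε : E → ℝ) (T : E → E →L[ℝ] E) (c : E) (R μ : ℝ) : Prop where
  bε : BM ε
  bT : ∀ v w, BM fun y => ⟪T y v, w⟫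
  symm : ∀ y v w, ⟪T y v, w⟫ = ⟪v, T y w⟫
  psd : ∀ y v, 0 ≤ ⟪T y v, v⟫
  μ0 : 0 ≤ μ
  R_le : R ≤ 1
  s1 : ∀ (Y : E → E) (K s : ℝ) (w : E), ContDiff ℝ 1 Y → 0 < s → s ≤ R ^ 2 → ‖w - c‖ ≤ R →
    (∀ y, ‖Y y‖ ≤ K * G s (y - w)) → (∀ y, ‖fderiv ℝ Y y‖ ≤ K * G s (y - w)) →
    |∫ y, pair (ε y) (T y) (fderiv ℝ Y y)| ≤ μ * K

/-- A good cell: base point `x₀`, density `σ`, the function `e` that measures calmness, scales
`r ≤ l ≤ l'`. -/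
structure Cell (ε : E → ℝ) (T : E → E →L[ℝ] E) (e : E → ℝ) (x₀ : E)
    (A Cg μ σ κ r l l' : ℝ) : Prop where
  st : St ε T x₀ (A * l') μ
  be : BM e
  e0 : ∀ x, 0 ≤ e x
  σ0 : 0 < σ
  κ0 : 0 < κ
  r0 : 0 < r
  e_base : e x₀ ≤ κ
  base : ∀ t, r ^ 2 ≤ t → t ≤ (A * l') ^ 2 → σ ≤ t * P t (tau T) x₀ ∧ t * P t (tau T) x₀ ≤ 16 * σ
  calm : ∀ x, ‖x - x₀‖ ≤ A * l' → e x ≤ 1 / Cg → ∀ t, r ^ 2 ≤ t → t ≤ (A * l') ^ 2 →
    rad T t x + t * P t (fun y => |bet ε T y|) x ≤ Cg * e x * σ ∧ t * P t (tau T) x ≤ Cg * σ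
  few : ∫ y in ball x₀ (A * l), e y * tau T y ≤ κ * σ * (l ^ finrank ℝ E / l ^ 2)
  few' : ∫ y in ball x₀ (A * l'), e y * tau T y ≤ κ * σ * (l' ^ finrank ℝ E / l' ^ 2)
  μ_le : μ * l' ^ 2 ≤ κ * σ

/-- The relations between the parameters; `B` is the width of the flat cutoff. -/
structure Par (m : ℕ) (c κ κ₂ r B l l' : ℝ) : Prop where
  r_le : r ≤ B
  B_le : B ≤ c * l
  l_le : l ≤ c * l'
  p2 : κ * (l' / B) ^ (m + 4) * l' ≤ r
  p3 : κ * l ^ 4 ≤ r ^ 2 * l' ^ 2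
  p5 : r ^ 2 ≤ κ * l ^ 2
  p6 : κ * (l' / l) ^ m * ((l' / B) ^ 2 + B / r) ≤ κ₂
  small : κ₂ ≤ c

/-- The conclusion: an affine plane of codimension two through `p` with normal frame `n`. -/
structure Geo (T : E → E →L[ℝ] E) (x₀ p : E) (n : Fin 2 → E) (C₁ A C σ κ κ₂ r l : ℝ) : Prop where
  on : Orthonormal ℝ n
  near : ‖p - x₀‖ ≤ C₁ * l
  far : ∫ y in ball x₀ (A * l) ∩ {y | C * r < ‖Pn n (y - p)‖}, tau T y ≤
    C * κ₂ * σ * (l ^ finrank ℝ E / l ^ 2)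
  par : ∫ y in ball x₀ (A * l), tpar T n y ≤ C * κ * σ * (l ^ finrank ℝ E / l ^ 2)
  dist : ∫ y in ball x₀ (A * l), ‖Pn n (y - p)‖ ^ 2 * tau T y ≤ C * κ * σ * l ^ finrank ℝ E

/-- The statement of the geometry theorem. -/
def GeomStmt (E : Type*) [NormedAddCommGroup E] [InnerProductSpace ℝ E] [FiniteDimensional ℝ E]
    [MeasurableSpace E] [BorelSpace E] : Prop :=
  ∃ C₁ ≥ (1 : ℝ), ∀ A ≥ C₁, ∀ Cg ≥ (1 : ℝ), ∃ c > (0 : ℝ), ∃ C ≥ (1 : ℝ),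
    ∀ (ε : E → ℝ) (T : E → E →L[ℝ] E) (e : E → ℝ) (x₀ : E) (μ σ κ κ₂ r B l l' : ℝ),
      Cell ε T e x₀ A Cg μ σ κ r l l' → Par (finrank ℝ E) c κ κ₂ r B l l' →
      ∃ p n, Geo T x₀ p n C₁ A C σ κ κ₂ r l

end Pool.Agent.Lib.MP_8daebb_an.G6
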