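import Pool.Agent.Lib.MP_8daebb_an.G6.Lin

/-! Eigenvectors, frames, and the averaged operator. -/

open MeasureTheory Metric Set Module Real
open scoped RealInnerProductSpace

namespace Pool.Agent.Lib.MP_8daebb_an.G6

open AS HK

variable {E : Type*} [NormedAddCommGroup E] [InnerProductSpace ℝ E] [FiniteDimensional ℝ E]
  [MeasurableSpace E] [BorelSpace E]

theorem spec_eig {A : E →L[ℝ] E} (hA : Psd A) :
    ∃ (b : OrthonormalBasis (Fin (finrank ℝ E)) ℝ E) (μ : Fin (finrank ℝ E) → ℝ), Antitone μ ∧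
      (∀ i, A (b i) = μ i • b i) ∧ (∀ i, ⟪A (b i), b i⟫ = μ i) ∧ (∀ i, 0 ≤ μ i) ∧
      (∀ z, ⟪A z, z⟫ = ∑ i, μ i * ⟪b i, z⟫ ^ 2) ∧ tr A = ∑ i, μ i := by
  have S : (A : E →ₗ[ℝ] E).IsSymmetric := fun v w => hA.symm v w
  have h1 : ∀ i, A (S.eigenvectorBasis rfl i) =
      S.eigenvalues rfl i • S.eigenvectorBasis rfl i := fun i => S.apply_eigenvectorBasis rfl i
  have h2 : ∀ i, ⟪A (S.eigenvectorBasis rfl i), S.eigenvectorBasis rfl i⟫ =
      S.eigenvalues rfl i := fun i => by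
    rw [h1, real_inner_smul_left, real_inner_self_eq_norm_sq,
      (S.eigenvectorBasis rfl).orthonormal.1 i]
    ring
  refine ⟨S.eigenvectorBasis rfl, S.eigenvalues rfl, S.eigenvalues_antitone rfl, h1, h2,
    fun i => h2 i ▸ hA.psd _, fun z => ?_, ?_⟩
  · rw [← (S.eigenvectorBasis rfl).sum_inner_mul_inner]
    refine Finset.sum_congr rfl fun i _ => ?_
    rw [hA.symm, h1, real_inner_smul_right, real_inner_comm]
    ring
  · rw [tr_eq_sum (S.eigenvectorBasis rfl)]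
    exact Finset.sum_congr rfl fun i _ => h2 i

omit [FiniteDimensional ℝ E] [MeasurableSpace E] [BorelSpace E] in
theorem on_two_eig {u v : E} (hu : ‖u‖ = 1) (hv : ‖v‖ = 1) (h : ⟪u, v⟫ = 0) :
    Orthonormal ℝ ![u, v] := by
  have h' : ⟪v, u⟫ = 0 := by rw [real_inner_comm]; exact h
  refine ⟨fun i => ?_, fun i j hij => ?_⟩
  · fin_cases i
    · exact hu
    · exact hv
  · fin_cases i <;> fin_cases j
    · exact absurd rfl hij
    · exact h
    · exact h'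
    · exact absurd rfl hij

omit [FiniteDimensional ℝ E] [MeasurableSpace E] [BorelSpace E] in
theorem on_three_eig {n : Fin 2 → E} (hn : Orthonormal ℝ n) {e : E} (he : ‖e‖ = 1)
    (h : ∀ i, ⟪n i, e⟫ = 0) : Orthonormal ℝ ![n 0, n 1, e] := by
  have h' : ∀ i, ⟪e, n i⟫ = 0 := fun i => by rw [real_inner_comm]; exact h i
  refine ⟨fun i => ?_, fun i j hij => ?_⟩
  · fin_cases i
    · exact hn.1 0
    · exact hn.1 1
    · exact he
  · fin_cases i <;> fin_cases j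
    · exact absurd rfl hij
    · exact hn.2 (by decide : (0 : Fin 2) ≠ 1)
    · exact h 0
    · exact hn.2 (by decide : (1 : Fin 2) ≠ 0)
    · exact absurd rfl hij
    · exact h 1
    · exact h' 0
    · exact h' 1
    · exact absurd rfl hij

omit [FiniteDimensional ℝ E] [MeasurableSpace E] [BorelSpace E] in
theorem unit_eig {v : E} (hv : v ≠ 0) : ‖(‖v‖⁻¹ : ℝ) • v‖ = 1 := by
  rw [norm_smul, norm_inv, norm_norm, inv_mul_cancel₀ (norm_ne_zero_iff.2 hv)]

omit [FiniteDimensional ℝ E] [MeasurableSpace E] [BorelSpace E] in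
theorem expand_eig {ι : Type*} [Fintype ι] (b : OrthonormalBasis ι ℝ E) (B : E →L[ℝ] E)
    (u v : E) : ⟪B u, v⟫ = ∑ i, ∑ j, ⟪b i, u⟫ * ⟪b j, v⟫ * ⟪B (b i), b j⟫ := by
  conv_lhs => rw [← b.sum_repr' u]
  rw [map_sum, sum_inner]
  refine Finset.sum_congr rfl fun i _ => ?_
  rw [map_smul, real_inner_smul_left, ← b.sum_inner_mul_inner (B (b i)) v, Finset.mul_sum]
  exact Finset.sum_congr rfl fun j _ => by ring

theorem eig3 (h3 : 3 ≤ finrank ℝ E) {A : E →L[ℝ] E} (hA : Psd A) :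
    ∃ n : Fin 3 → E, Orthonormal ℝ n ∧ ∃ lam : ℝ, 0 ≤ lam ∧
      (∀ z, lam * ‖Pn n z‖ ^ 2 ≤ ⟪A z, z⟫) ∧
      tr A - ∑ i, ⟪A (![n 0, n 1] i), ![n 0, n 1] i⟫ ≤ finrank ℝ E * lam := by
  obtain ⟨b, μ, hanti, _, h2, h0, hq, htr⟩ := spec_eig hA
  have hon : Orthonormal ℝ (fun i : Fin 3 => b (Fin.castLE h3 i)) :=
    b.orthonormal.comp _ (Fin.castLE_injective h3)
  refine ⟨fun i => b (Fin.castLE h3 i), hon, μ (Fin.castLE h3 2), h0 _, fun z => ?_, ?_⟩
  · rw [norm_Pn_sq hon, hq, Finset.mul_sum]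
    calc ∑ i : Fin 3, μ (Fin.castLE h3 2) * ⟪b (Fin.castLE h3 i), z⟫ ^ 2
        ≤ ∑ i : Fin 3, μ (Fin.castLE h3 i) * ⟪b (Fin.castLE h3 i), z⟫ ^ 2 := by
          refine Finset.sum_le_sum fun i _ => mul_le_mul_of_nonneg_right (hanti ?_) (sq_nonneg _)
          have := i.2
          simp only [Fin.le_def, Fin.val_castLE, Fin.val_two]
          omega
      _ = ∑ j ∈ Finset.univ.map (Fin.castLEEmb h3), μ j * ⟪b j, z⟫ ^ 2 := by
          rw [Finset.sum_map]
          rfl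
      _ ≤ _ := Finset.sum_le_sum_of_subset_of_nonneg (Finset.subset_univ _)
          fun j _ _ => mul_nonneg (h0 j) (sq_nonneg _)
  · rw [Fin.sum_univ_two]
    simp only [Matrix.cons_val_zero, Matrix.cons_val_one]
    rw [h2, h2, htr]
    have h5 : ∑ j, μ j ≤ ∑ j, (μ (Fin.castLE h3 2) +
        (if j = Fin.castLE h3 0 then μ (Fin.castLE h3 0) else 0) +
        (if j = Fin.castLE h3 1 then μ (Fin.castLE h3 1) else 0)) := by
      refine Finset.sum_le_sum fun j _ => ?_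
      have a0 := h0 (Fin.castLE h3 0)
      have a1 := h0 (Fin.castLE h3 1)
      have a2 := h0 (Fin.castLE h3 2)
      split_ifs with c0 c1 c1
      · rw [c0]; linarith
      · rw [c0]; linarith
      · rw [c1]; linarith
      · have : μ j ≤ μ (Fin.castLE h3 2) := by
          refine hanti ?_
          simp only [Fin.ext_iff, Fin.val_castLE, Fin.val_zero, Fin.val_one] at c0 c1
          simp only [Fin.le_def, Fin.val_castLE, Fin.val_two]
          omega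
        linarith
    rw [Finset.sum_add_distrib, Finset.sum_add_distrib, Finset.sum_ite_eq', Finset.sum_ite_eq',
      if_pos (Finset.mem_univ _), if_pos (Finset.mem_univ _), Finset.sum_const, Finset.card_univ,
      Fintype.card_fin, nsmul_eq_mul] at h5
    linarith

theorem orthonormal_two {n : Fin 3 → E} (hn : Orthonormal ℝ n) : Orthonormal ℝ ![n 0, n 1] := by
  exact on_two_eig (hn.1 0) (hn.1 1) (hn.2 (by decide : (0 : Fin 3) ≠ 1))

theorem eig1 (h3 : 3 ≤ finrank ℝ E) {A : E →L[ℝ] E} (hA : Psd A) {n : Fin 2 → E}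
    (hn : Orthonormal ℝ n) :
    ∃ e : E, Orthonormal ℝ ![n 0, n 1, e] ∧ ∃ lam : ℝ, 0 ≤ lam ∧
      (∀ w, Pn n w = 0 → lam * ⟪e, w⟫ ^ 2 ≤ ⟪A w, w⟫) ∧
      tr A - ∑ i, ⟪A (n i), n i⟫ ≤ finrank ℝ E * lam := by
  obtain ⟨A', hA', hc, htr'⟩ := hA.compress hn
  obtain ⟨b, μ, hanti, h1, _, h0, hq, htr⟩ := spec_eig hA'
  set j0 : Fin (finrank ℝ E) := ⟨0, by omega⟩ with hj0
  have hle : tr A - ∑ i, ⟪A (n i), n i⟫ ≤ finrank ℝ E * μ j0 := by
    rw [← htr', htr]
    have h5 : ∑ j, μ j ≤ ∑ _j : Fin (finrank ℝ E), μ j0 :=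
      Finset.sum_le_sum fun j _ => hanti (by simp only [hj0, Fin.le_def]; omega)
    rwa [Finset.sum_const, Finset.card_univ, Fintype.card_fin, nsmul_eq_mul] at h5
  rcases (h0 j0).eq_or_lt with hz | hp
  · have hex : ∃ z : E, z - Pn n z ≠ 0 := by
      by_contra hcon
      have h6 : Pn n = ContinuousLinearMap.id ℝ E := by
        ext z
        by_contra h7
        exact hcon ⟨z, fun h8 => h7 (sub_eq_zero.1 h8).symm⟩
      have h7 := tr_Pn hn
      rw [h6, tr_id] at h7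
      have h8 : finrank ℝ E = 2 := by exact_mod_cast h7
      omega
    obtain ⟨z, hz0⟩ := hex
    refine ⟨(‖z - Pn n z‖⁻¹ : ℝ) • (z - Pn n z), on_three_eig hn (unit_eig hz0) fun i => ?_,
      μ j0, h0 _, fun w _ => ?_, hle⟩
    · rw [real_inner_smul_right, inner_n_of_Pn_eq_zero hn (Pn_par hn z), mul_zero]
    · rw [← hz, zero_mul]
      exact hA.psd w
  · refine ⟨b j0, on_three_eig hn (b.orthonormal.1 j0) fun i => ?_, μ j0, h0 _, fun w hw => ?_,
      hle⟩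
    · have h6 := hc (b j0) (n i)
      rw [h1, Pn_n hn, sub_self, inner_zero_right, real_inner_smul_left] at h6
      rw [real_inner_comm]
      exact (mul_eq_zero.1 h6).resolve_left hp.ne'
    · have h6 := hc w w
      rw [hw, sub_zero] at h6
      rw [← h6, hq]
      exact Finset.single_le_sum (f := fun i => μ i * ⟪b i, w⟫ ^ 2)
        (fun j _ => mul_nonneg (h0 j) (sq_nonneg _)) (Finset.mem_univ j0)

theorem frame {n : Fin 2 → E} (hn : Orthonormal ℝ n) {a : Fin 2 → E} (ha : ∀ i, Pn n (a i) = 0) :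
    ∃ n' : Fin 2 → E, Orthonormal ℝ n' ∧ ∀ z, ‖Pn n' z‖ ^ 2 ≤ ∑ i, ⟪n i - a i, z⟫ ^ 2 := by
  have hna : ∀ i j, ⟪n i, a j⟫ = 0 := fun i j => inner_n_of_Pn_eq_zero hn (ha j) i
  have h00 : ⟪n 0, n 0 - a 0⟫ = 1 := by
    rw [inner_sub_right, hna, real_inner_self_eq_norm_sq, hn.1 0]; ring
  have h11 : ⟪n 1, n 1 - a 1⟫ = 1 := by
    rw [inner_sub_right, hna, real_inner_self_eq_norm_sq, hn.1 1]; ring
  have h01 : ⟪n 0, n 1 - a 1⟫ = 0 := by
    rw [inner_sub_right, hna, hn.2 (by decide : (0 : Fin 2) ≠ 1)]; ring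
  have h10 : ⟪n 1, n 0 - a 0⟫ = 0 := by
    rw [inner_sub_right, hna, hn.2 (by decide : (1 : Fin 2) ≠ 0)]; ring
  simp only [Fin.sum_univ_two]
  generalize n 0 - a 0 = p at *
  generalize n 1 - a 1 = q at *
  have hp : p ≠ 0 := fun h => by simp [h] at h00
  set u : E := (‖p‖⁻¹ : ℝ) • p with hu
  have hu1 : ‖u‖ = 1 := unit_eig hp
  set v : E := q - ⟪u, q⟫ • u with hv
  have hv0 : v ≠ 0 := fun h => by
    have h5 : ⟪n 1, v⟫ = 1 := by
      rw [hv, inner_sub_right, real_inner_smul_right, hu, real_inner_smul_right, h10, h11]; ring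
    simp [h] at h5
  have huv : ⟪u, v⟫ = 0 := by
    rw [hv, inner_sub_right, real_inner_smul_right, real_inner_self_eq_norm_sq, hu1]; ring
  have hon : Orthonormal ℝ ![u, (‖v‖⁻¹ : ℝ) • v] :=
    on_two_eig hu1 (unit_eig hv0) (by rw [real_inner_smul_right, huv, mul_zero])
  refine ⟨_, hon, fun z => ?_⟩
  obtain ⟨s, t, hst⟩ : ∃ s t : ℝ, Pn ![u, (‖v‖⁻¹ : ℝ) • v] z = s • p + t • q := by
    rw [Pn_apply, Fin.sum_univ_two]
    simp only [Matrix.cons_val_zero, Matrix.cons_val_one]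
    generalize ⟪u, z⟫ = α
    generalize ⟪(‖v‖⁻¹ : ℝ) • v, z⟫ = β
    generalize (‖v‖⁻¹ : ℝ) = γ
    refine ⟨α * ‖p‖⁻¹ - β * γ * ⟪u, q⟫ * ‖p‖⁻¹, β * γ, ?_⟩
    rw [hv]
    generalize ⟪u, q⟫ = δ
    rw [hu]
    module
  have h5 := inner_Pn_self hon z
  have h6 := norm_Pn_le hn (Pn ![u, (‖v‖⁻¹ : ℝ) • v] z)
  have h7 := norm_Pn_sq hn (Pn ![u, (‖v‖⁻¹ : ℝ) • v] z)
  have h8 := pow_le_pow_left₀ (norm_nonneg _) h6 2
  rw [h7, Fin.sum_univ_two] at h8
  rw [← h5] at h8 ⊢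
  rw [hst] at h8 ⊢
  simp only [inner_add_right, real_inner_smul_right, h00, h01, h10, h11] at h8 ⊢
  rw [real_inner_comm p z, real_inner_comm q z] at h8 ⊢
  nlinarith [sq_nonneg (s - ⟪p, z⟫), sq_nonneg (t - ⟪q, z⟫)]

variable {ε : E → ℝ} {T : E → E →L[ℝ] E} {c : E} {R μ : ℝ}

theorem St.meas_T (h : St ε T c R μ) {u v : E → E} (hu : Measurable u) (hv : Measurable v) :
    Measurable fun y => ⟪T y (u y), v y⟫ := by
  have h1 : (fun y => ⟪T y (u y), v y⟫) = fun y => ∑ i, ∑ j, ⟪stdOrthonormalBasis ℝ E i, u y⟫ *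
      ⟪stdOrthonormalBasis ℝ E j, v y⟫ *
      ⟪T y (stdOrthonormalBasis ℝ E i), stdOrthonormalBasis ℝ E j⟫ :=
    funext fun y => expand_eig _ _ _ _
  rw [h1]
  refine Finset.measurable_sum _ fun i _ => Finset.measurable_sum _ fun j _ => ?_
  exact ((measurable_const.inner hu).mul (measurable_const.inner hv)).mul (h.bT _ _).meas

theorem St.bm_tau (h : St ε T c R μ) : BM (tau T) := by
  have h1 : tau T = fun y => ∑ i, ⟪T y (stdOrthonormalBasis ℝ E i), stdOrthonormalBasis ℝ E i⟫ :=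
    funext fun y => tr_eq_sum _ _
  rw [h1]
  exact BM.sum _ fun i _ => h.bT _ _

theorem St.bm_bet (h : St ε T c R μ) : BM (bet ε T) := by
  exact (h.bε.const_mul 2).sub h.bm_tau

theorem St.bm_tpar (h : St ε T c R μ) {d : ℕ} (n : Fin d → E) : BM (tpar T n) := by
  exact h.bm_tau.sub (BM.sum _ fun i _ => h.bT _ _)

theorem St.tau_nonneg (h : St ε T c R μ) (y : E) : 0 ≤ tau T y := by
  exact (h.psd' y).tr_nonneg

theorem St.tpar_nonneg (h : St ε T c R μ) {d : ℕ} {n : Fin d → E} (hn : Orthonormal ℝ n) (y : E) :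
    0 ≤ tpar T n y := by
  exact (h.psd' y).par_nonneg hn

theorem abs_eps_le (h : St ε T c R μ) (y : E) : |ε y| ≤ (tau T y + |bet ε T y|) / 2 := by
  have h1 := h.tau_nonneg y
  have h2 := le_abs_self (bet ε T y)
  have h3 := neg_abs_le (bet ε T y)
  have h4 : bet ε T y = 2 * ε y - tau T y := rfl
  rw [abs_le]
  constructor <;> linarith

/-- Functions dominated by a Gaussian are integrable. -/
theorem integrable_of_le_G {k : E → ℝ} (hk : Measurable k) {C s : ℝ} (hs : 0 < s) {x : E}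
    (h : ∀ y, |k y| ≤ C * G s (y - x)) : Integrable k := by
  exact ((integrable_G_sub hs x).const_mul C).mono' hk.aestronglyMeasurable
    (Filter.Eventually.of_forall h)

theorem St.integrable_rad (h : St ε T c R μ) {t : ℝ} (ht : 0 < t) (x w : E) :
    Integrable fun y => G t (y - x) * ⟪T y (y - w), y - w⟫ := by
  obtain ⟨B, hB0, hB⟩ := h.bm_tau.bdd'
  have hm : Measurable fun y : E => y - w := measurable_id.sub_const w
  refine integrable_of_le_G ((BM.G_sub ht x).meas.mul (h.meas_T hm hm))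
    (C := 2 * B * (8 * 2 ^ hd E * t) + 2 * B * ‖x - w‖ ^ 2 * 2 ^ hd E) (s := 2 * t) (x := x)
    (by linarith) fun y => ?_
  have g0 := G_pos ht (y - x)
  have h1 := (h.psd' y).le_tr (y - w)
  have h2 : tr (T y) ≤ B := (le_abs_self _).trans (hB y)
  have h3 : ‖y - w‖ ≤ ‖y - x‖ + ‖x - w‖ := norm_sub_le_norm_sub_add_norm_sub y x w
  have h4 : ‖y - w‖ ^ 2 ≤ 2 * ‖y - x‖ ^ 2 + 2 * ‖x - w‖ ^ 2 := by
    nlinarith [pow_le_pow_left₀ (norm_nonneg _) h3 2, sq_nonneg (‖y - x‖ - ‖x - w‖)]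
  have h5 : ⟪T y (y - w), y - w⟫ ≤ B * (2 * ‖y - x‖ ^ 2 + 2 * ‖x - w‖ ^ 2) :=
    h1.trans (mul_le_mul h2 h4 (sq_nonneg _) hB0)
  have h6 := mul_le_mul_of_nonneg_left (sq_mul_G_le ht (y - x)) (by linarith : 0 ≤ 2 * B)
  have h7 := mul_le_mul_of_nonneg_left (G_le_two ht (y - x))
    (by positivity : 0 ≤ 2 * B * ‖x - w‖ ^ 2)
  rw [abs_of_nonneg (mul_nonneg g0.le (h.psd y _))]
  calc G t (y - x) * ⟪T y (y - w), y - w⟫
      ≤ G t (y - x) * (B * (2 * ‖y - x‖ ^ 2 + 2 * ‖x - w‖ ^ 2)) :=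
        mul_le_mul_of_nonneg_left h5 g0.le
    _ = 2 * B * (‖y - x‖ ^ 2 * G t (y - x)) + 2 * B * ‖x - w‖ ^ 2 * G t (y - x) := by ring
    _ ≤ _ := by linarith

theorem St.rad_nonneg (h : St ε T c R μ) {t : ℝ} (ht : 0 < t) (x : E) : 0 ≤ rad T t x := by
  exact integral_nonneg fun y =>
    mul_nonneg (G_pos ht _).le (div_nonneg (h.psd y _) (by norm_num))

/-- The heat average of the tensor. -/
theorem St.exists_av (h : St ε T c R μ) {t : ℝ} (ht : 0 < t) (x : E) :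
    ∃ A : E →L[ℝ] E, Psd A ∧ (∀ v w, ⟪A v, w⟫ = P t (fun y => ⟪T y v, w⟫) x) ∧
      tr A = P t (tau T) x ∧
      ∀ n : Fin 2 → E, tr A - ∑ i, ⟪A (n i), n i⟫ = P t (tpar T n) x := by
  set b := stdOrthonormalBasis ℝ E with hb
  obtain ⟨A, hA⟩ : ∃ A : E →L[ℝ] E, ∀ v w, ⟪A v, w⟫ = P t (fun y => ⟪T y v, w⟫) x := by
    refine ⟨∑ i, ∑ j, P t (fun y => ⟪T y (b i), b j⟫) x • (innerSL ℝ (b i)).smulRight (b j),
      fun v w => ?_⟩
    have h1 : (fun y => ⟪T y v, w⟫) =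
        fun y => ∑ i, ∑ j, ⟪b i, v⟫ * ⟪b j, w⟫ * ⟪T y (b i), b j⟫ :=
      funext fun y => expand_eig _ _ _ _
    rw [h1, P_sum _ (fun i _ => BM.sum _ fun j _ => (h.bT _ _).const_mul _) ht,
      ContinuousLinearMap.sum_apply, sum_inner]
    refine Finset.sum_congr rfl fun i _ => ?_
    rw [P_sum _ (fun j _ => (h.bT _ _).const_mul _) ht, ContinuousLinearMap.sum_apply, sum_inner]
    refine Finset.sum_congr rfl fun j _ => ?_
    rw [P_const_mul, ContinuousLinearMap.smul_apply, ContinuousLinearMap.smulRight_apply,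
      real_inner_smul_left, real_inner_smul_left, innerSL_apply_apply]
    ring
  have htr : tr A = P t (tau T) x := by
    have h1 : tau T = fun y => ∑ i, ⟪T y (b i), b i⟫ := funext fun y => tr_eq_sum _ _
    rw [h1, P_sum _ (fun i _ => h.bT _ _) ht, tr_eq_sum b]
    exact Finset.sum_congr rfl fun i _ => hA _ _
  refine ⟨A, ⟨fun v w => ?_, fun v => ?_⟩, hA, htr, fun n => ?_⟩
  · rw [real_inner_comm (A w) v, hA, hA]
    congr 1
    funext y
    rw [h.symm, real_inner_comm]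
  · rw [hA]
    exact P_nonneg ht.le (fun y => h.psd y v) x
  · have h1 : tpar T n = fun y => tau T y - ∑ i, ⟪T y (n i), n i⟫ := rfl
    rw [h1, P_sub h.bm_tau (BM.sum _ fun i _ => h.bT _ _) ht, P_sum _ (fun i _ => h.bT _ _) ht,
      htr]
    congr 1
    exact Finset.sum_congr rfl fun i _ => hA _ _

end Pool.Agent.Lib.MP_8daebb_an.G6
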