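import Pool.Agent.Lib.MP_8daebb_an.G6.Ker
import Pool.Agent.Lib.MP_8daebb_an.G6.Eig

/-! Taylor expansion of moments along the plane, and the final algebra. -/

open MeasureTheory Metric Set Module Real
open scoped RealInnerProductSpace

namespace Pool.Agent.Lib.MP_8daebb_an.G6

open AS HK

variable {E : Type*} [NormedAddCommGroup E] [InnerProductSpace ℝ E] [FiniteDimensional ℝ E]
  [MeasurableSpace E] [BorelSpace E]

theorem exp_rem_Tay (u : ℝ) : |exp u - 1 - u| ≤ 2 * u ^ 2 * exp |u| := by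
  have h1 : 1 + |u| ≤ exp |u| := by linarith [Real.add_one_le_exp |u|]
  have h0 := abs_nonneg u
  rcases le_total |u| 1 with h | h
  · have h2 := Real.abs_exp_sub_one_sub_id_le h
    nlinarith [sq_nonneg u]
  · have h2 : exp u ≤ exp |u| := exp_le_exp.2 (le_abs_self u)
    have h3 : 1 ≤ u ^ 2 := by
      rw [← sq_abs]
      nlinarith
    have h4 : |exp u - 1 - u| ≤ 2 * exp |u| := by
      rw [abs_le]
      constructor <;> linarith [exp_pos u, le_abs_self u, neg_abs_le u]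
    nlinarith [exp_pos |u|]

theorem scalar_Tay {a s x : ℝ} (hs0 : 0 ≤ s) (hs : s ≤ 1) (hx : 0 ≤ x) (ha : |a| ≤ s * x / 2) :
    |exp (a - s ^ 2 / 4) - 1 - a| * exp (-(x ^ 2 / 8)) ≤ (4 * exp 3 + 1) * s ^ 2 := by
  set u := a - s ^ 2 / 4 with hu
  set w := x / 2 + 1 / 4 with hw
  have hw0 : 0 ≤ w := by positivity
  have h1 : |u| ≤ s * w := by
    have k1 : |u| ≤ |a| + |s ^ 2 / 4| := abs_sub _ _
    rw [abs_of_nonneg (by positivity : 0 ≤ s ^ 2 / 4)] at k1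
    nlinarith
  have h2 : |u| ≤ w := h1.trans (mul_le_of_le_one_left hw0 hs)
  have h3 : u ^ 2 ≤ s ^ 2 * w ^ 2 := by
    rw [← sq_abs, ← mul_pow]
    exact pow_le_pow_left₀ (abs_nonneg u) h1 2
  have h4 : w ^ 2 ≤ 2 * exp w := by linarith [Real.quadratic_le_exp_of_nonneg hw0]
  have h5 : exp |u| ≤ exp w := exp_le_exp.2 h2
  have h6 : |exp u - 1 - a| ≤ |exp u - 1 - u| + s ^ 2 / 4 := by
    have k1 : |exp u - 1 - u - s ^ 2 / 4| ≤ |exp u - 1 - u| + |s ^ 2 / 4| := abs_sub _ _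
    rw [abs_of_nonneg (by positivity : 0 ≤ s ^ 2 / 4)] at k1
    have e : exp u - 1 - a = exp u - 1 - u - s ^ 2 / 4 := by
      rw [hu]
      ring
    rwa [e]
  have h7 : 2 * u ^ 2 * exp |u| ≤ 2 * (s ^ 2 * (2 * exp w)) * exp w :=
    mul_le_mul (by nlinarith [sq_nonneg s]) h5 (exp_pos _).le (by positivity)
  have h8 : exp w * exp w * exp (-(x ^ 2 / 8)) ≤ exp 3 := by
    rw [← exp_add, ← exp_add]
    exact exp_le_exp.2 (by nlinarith [sq_nonneg (x - 4)])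
  have h9 : exp (-(x ^ 2 / 8)) ≤ 1 := exp_le_one_iff.2 (by nlinarith [sq_nonneg x])
  have h10 := exp_rem_Tay u
  have h11 : |exp u - 1 - a| ≤ 4 * s ^ 2 * (exp w * exp w) + s ^ 2 / 4 := by linarith
  have h12 := mul_le_mul_of_nonneg_right h11 (exp_pos (-(x ^ 2 / 8))).le
  have h13 := mul_le_mul_of_nonneg_left h8 (sq_nonneg s)
  have h14 := mul_le_mul_of_nonneg_left h9 (sq_nonneg s)
  nlinarith [sq_nonneg s]

omit [FiniteDimensional ℝ E] [MeasurableSpace E] [BorelSpace E] in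
theorem two_rpow_Tay : (1 : ℝ) ≤ 2 ^ hd E := Real.one_le_rpow one_le_two hd_nonneg

theorem inner_par_Tay {n : Fin 2 → E} {v : E} (hv : Pn n v = 0) (z : E) :
    ⟪v, z - Pn n z⟫ = ⟪v, z⟫ := by
  rw [inner_sub_right, inner_Pn_of_Pn_eq_zero hv, sub_zero]

theorem gk_taylor : ∃ C ≥ (1 : ℝ), ∀ n : Fin 2 → E, Orthonormal ℝ n → ∀ (t : ℝ) (v z : E), 0 < t →
    Pn n v = 0 → ‖v‖ ^ 2 ≤ t →
    |gk n t (z - v) - gk n t z - ⟪v, z⟫ / (2 * t) * gk n t z| ≤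
      C * (‖v‖ ^ 2 / t) * gk n (2 * t) z := by
  have h2 := two_rpow_Tay (E := E)
  have he : 0 < exp 3 := exp_pos 3
  refine ⟨2 ^ hd E * (4 * exp 3 + 1), by nlinarith, ?_⟩
  intro n _ t v z ht hv hvt
  set p := z - Pn n z with hp
  have hr : 0 < √t := sqrt_pos.2 ht
  have hr2 : √t ^ 2 = t := sq_sqrt ht.le
  have e1 : gk n t (z - v) = gk n t z * exp (⟪v, z⟫ / (2 * t) - (‖v‖ / √t) ^ 2 / 4) := by
    have k1 : z - v - Pn n (z - v) = p - v := by
      rw [map_sub, hv, hp]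
      abel
    rw [gk, gk, k1, ← hp, G, G, mul_assoc _ _ (exp _), mul_assoc _ _ (exp _), ← exp_add,
      norm_sub_sq_real, real_inner_comm, hp, inner_par_Tay hv, div_pow, hr2]
    congr 3
    field_simp
    ring
  have e2 : gk n t z = 2 ^ hd E * exp (-((‖p‖ / √t) ^ 2 / 8)) * gk n (2 * t) z / 2 := by
    rw [gk, gk, ← hp, G_eq_two ht p, div_pow, hr2]
    ring
  have k1 : |⟪v, z⟫ / (2 * t)| ≤ ‖v‖ / √t * (‖p‖ / √t) / 2 := by
    rw [← inner_par_Tay hv, ← hp, abs_div, abs_of_pos (by positivity : 0 < 2 * t),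
      div_mul_div_comm, ← sq, hr2, div_div, mul_comm t 2]
    exact div_le_div_of_nonneg_right (abs_real_inner_le_norm v p) (by positivity)
  have k2 : ‖v‖ / √t ≤ 1 := by
    rw [div_le_one hr]
    exact Real.le_sqrt_of_sq_le hvt
  have k3 := scalar_Tay (by positivity) k2 (by positivity) k1
  have hg := (gk_pos n ht z).le
  have hg2 := (gk_pos n (by positivity : 0 < 2 * t) z).le
  have e3 : gk n t (z - v) - gk n t z - ⟪v, z⟫ / (2 * t) * gk n t z =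
      (exp (⟪v, z⟫ / (2 * t) - (‖v‖ / √t) ^ 2 / 4) - 1 - ⟪v, z⟫ / (2 * t)) * gk n t z := by
    rw [e1]
    ring
  have e4 : ‖v‖ ^ 2 / t = (‖v‖ / √t) ^ 2 := by rw [div_pow, hr2]
  rw [e3, abs_mul, abs_of_nonneg hg, e2, e4]
  have k4 := mul_le_mul_of_nonneg_right k3 (by positivity : 0 ≤ 2 ^ hd E * gk n (2 * t) z / 2)
  have k5 : 0 ≤ (4 * exp 3 + 1) * (‖v‖ / √t) ^ 2 * (2 ^ hd E * gk n (2 * t) z / 2) := by positivity
  linarith

theorem expand : ∃ C ≥ (1 : ℝ), ∀ n : Fin 2 → E, Orthonormal ℝ n → ∀ (f : E → ℝ) (t N : ℝ)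
    (x₀ : E), 0 < t → Measurable f → Integrable (fun y => |f y| * gk n (2 * t) (y - x₀)) →
    ∫ y, |f y| * gk n (2 * t) (y - x₀) ≤ N →
    ∃ a : E, Pn n a = 0 ∧ ‖a‖ ≤ C * N / √t ∧ |∫ y, f y * gk n t (y - x₀)| ≤ C * N ∧
      ∀ v : E, Pn n v = 0 → ‖v‖ ^ 2 ≤ t →
        |(∫ y, f y * gk n t (y - (x₀ + v))) - (∫ y, f y * gk n t (y - x₀)) - ⟪a, v⟫| ≤
          C * (‖v‖ ^ 2 / t) * N := by
  obtain ⟨C, hC, hT⟩ := gk_taylor (E := E)
  have h2 := two_rpow_Tay (E := E)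
  refine ⟨C + 5 * 2 ^ hd E, by linarith, ?_⟩
  intro n hn f t N x₀ ht hf hi hN
  have := FiniteDimensional.complete ℝ E
  have hr : 0 < √t := sqrt_pos.2 ht
  have hr2 : √t ^ 2 = t := sq_sqrt ht.le
  have hg : ∀ z, 0 ≤ gk n t z := fun z => (gk_pos n ht z).le
  have hN0 : 0 ≤ N := (integral_nonneg fun y => mul_nonneg (abs_nonneg _)
    (gk_pos n (by positivity) _).le).trans hN
  have hcg : Continuous fun y => gk n t (y - x₀) :=
    (continuous_gk n t).comp (continuous_id.sub continuous_const)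
  have b0 : ∀ y, ‖f y * gk n t (y - x₀)‖ ≤ 5 * 2 ^ hd E * (|f y| * gk n (2 * t) (y - x₀)) := by
    intro y
    have k1 := gk_le_two n ht (y - x₀)
    have k2 : 0 ≤ ‖y - x₀ - Pn n (y - x₀)‖ ^ 2 / t * gk n t (y - x₀) :=
      mul_nonneg (by positivity) (hg _)
    rw [Real.norm_eq_abs, abs_mul, abs_of_nonneg (hg _), mul_left_comm]
    exact mul_le_mul_of_nonneg_left (by linarith) (abs_nonneg _)
  have b1 : ∀ y, ‖(f y * gk n t (y - x₀) / (2 * t)) • (y - x₀ - Pn n (y - x₀))‖ ≤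
      5 * 2 ^ hd E / √t * (|f y| * gk n (2 * t) (y - x₀)) := by
    intro y
    have k1 := gk_le_two n ht (y - x₀)
    set q := ‖y - x₀ - Pn n (y - x₀)‖ with hq
    have k2 : q / (2 * t) * √t ≤ 1 + q ^ 2 / t := by
      have e1 : q / (2 * t) * √t = q / √t / 2 := by
        field_simp
        rw [hr2]
      have e2 : q ^ 2 / t = (q / √t) ^ 2 := by rw [div_pow, hr2]
      rw [e1, e2]
      nlinarith [sq_nonneg (q / √t - 1), sq_nonneg (q / √t)]
    have k3 := (mul_le_mul_of_nonneg_right k2 (hg (y - x₀))).trans k1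
    have k4 := mul_le_mul_of_nonneg_left k3 (abs_nonneg (f y))
    rw [norm_smul, Real.norm_eq_abs, abs_div, abs_mul, abs_of_nonneg (hg _),
      abs_of_pos (by positivity : 0 < 2 * t), ← hq, div_mul_eq_mul_div _ √t, le_div_iff₀ hr]
    calc |f y| * gk n t (y - x₀) / (2 * t) * q * √t =
          |f y| * (q / (2 * t) * √t * gk n t (y - x₀)) := by ring
      _ ≤ |f y| * (5 * 2 ^ hd E * gk n (2 * t) (y - x₀)) := k4
      _ = _ := by ring
  have i0 : Integrable fun y => f y * gk n t (y - x₀) :=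
    (hi.const_mul _).mono' (hf.mul hcg.measurable).aestronglyMeasurable (ae_of_all _ b0)
  have hcp : Continuous fun y => y - x₀ - Pn n (y - x₀) := by fun_prop
  have i1 : Integrable fun y => (f y * gk n t (y - x₀) / (2 * t)) • (y - x₀ - Pn n (y - x₀)) :=
    (hi.const_mul _).mono' (((hf.mul hcg.measurable).div_const _).aestronglyMeasurable.smul
      hcp.aestronglyMeasurable) (ae_of_all _ b1)
  refine ⟨∫ y, (f y * gk n t (y - x₀) / (2 * t)) • (y - x₀ - Pn n (y - x₀)), ?_, ?_, ?_, ?_⟩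
  · rw [← (Pn n).integral_comp_comm i1]
    simp only [map_smul, Pn_par hn, smul_zero, integral_zero]
  · have k1 := norm_integral_le_of_norm_le (hi.const_mul _) (ae_of_all _ b1)
    rw [integral_const_mul] at k1
    have k2 := mul_le_mul_of_nonneg_left hN (by positivity : 0 ≤ 5 * 2 ^ hd E / √t)
    refine (k1.trans k2).trans ?_
    rw [div_mul_eq_mul_div]
    exact div_le_div_of_nonneg_right (mul_le_mul_of_nonneg_right (by linarith) hN0) hr.le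
  · have k1 := norm_integral_le_of_norm_le (hi.const_mul _) (ae_of_all _ b0)
    rw [integral_const_mul, Real.norm_eq_abs] at k1
    have k2 := mul_le_mul_of_nonneg_left hN (by positivity : (0 : ℝ) ≤ 5 * 2 ^ hd E)
    exact (k1.trans k2).trans (mul_le_mul_of_nonneg_right (by linarith) hN0)
  · intro v hv hvt
    have b2 : ∀ y, ‖f y * (gk n t (y - x₀ - v) - gk n t (y - x₀) -
        ⟪v, y - x₀⟫ / (2 * t) * gk n t (y - x₀))‖ ≤
        C * (‖v‖ ^ 2 / t) * (|f y| * gk n (2 * t) (y - x₀)) := by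
      intro y
      rw [Real.norm_eq_abs, abs_mul, mul_left_comm]
      exact mul_le_mul_of_nonneg_left (hT n hn t v (y - x₀) ht hv hvt) (abs_nonneg _)
    have hc2 : Continuous fun y => gk n t (y - x₀ - v) - gk n t (y - x₀) -
        ⟪v, y - x₀⟫ / (2 * t) * gk n t (y - x₀) := by
      have := continuous_gk n t
      fun_prop
    have i2 : Integrable fun y => f y * (gk n t (y - x₀ - v) - gk n t (y - x₀) -
        ⟪v, y - x₀⟫ / (2 * t) * gk n t (y - x₀)) :=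
      (hi.const_mul _).mono' (hf.mul hc2.measurable).aestronglyMeasurable (ae_of_all _ b2)
    have i3 := i1.const_inner (𝕜 := ℝ) v
    have i4 : Integrable fun y => f y * gk n t (y - x₀) +
        ⟪v, (f y * gk n t (y - x₀) / (2 * t)) • (y - x₀ - Pn n (y - x₀))⟫ := i0.add i3
    have e1 : ∀ y, f y * gk n t (y - (x₀ + v)) = f y * (gk n t (y - x₀ - v) - gk n t (y - x₀) -
        ⟪v, y - x₀⟫ / (2 * t) * gk n t (y - x₀)) + (f y * gk n t (y - x₀) +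
          ⟪v, (f y * gk n t (y - x₀) / (2 * t)) • (y - x₀ - Pn n (y - x₀))⟫) := by
      intro y
      rw [real_inner_smul_right, inner_par_Tay hv, ← sub_sub]
      ring
    have k1 := norm_integral_le_of_norm_le (hi.const_mul _) (ae_of_all _ b2)
    rw [integral_const_mul, Real.norm_eq_abs] at k1
    have k2 := mul_le_mul_of_nonneg_left hN (by positivity : 0 ≤ C * (‖v‖ ^ 2 / t))
    simp only [e1]
    rw [integral_add i2 i4, integral_add i0 i3, integral_inner i1, real_inner_comm,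
      sub_sub, add_sub_cancel_right]
    refine (k1.trans k2).trans (mul_le_mul_of_nonneg_right ?_ hN0)
    exact mul_le_mul_of_nonneg_right (by linarith) (by positivity)

theorem alg_core {σ ζ ρ δ mb m₀ u₀ m₁ c₁ u₁ ξ : ℝ} (hσ : 0 < σ) (hζ : 0 ≤ ζ) (hρ : 0 ≤ ρ)
    (hδ : 0 ≤ δ) (hδ' : δ ≤ 1 / 4) (hmb : σ ≤ mb) (h₀ : |m₀ - mb - u₀| ≤ δ ^ 2 * σ)
    (hu₀ : |u₀| ≤ δ * σ) (h₁ : |m₁ - c₁ - u₁| ≤ δ ^ 2 * ζ) (hc₁ : |c₁| ≤ ζ) (hu₁ : |u₁| ≤ δ * ζ)
    (h : |m₁ - ξ * m₀| ≤ ρ * σ) :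
    |ξ - (c₁ + u₁ - c₁ / mb * u₀) / mb| ≤ 10 * (ρ + δ ^ 2 * ζ / σ) := by
  have hm : 0 < mb := hσ.trans_le hmb
  have hδ2 : δ ^ 2 ≤ δ / 4 := by nlinarith
  have hρσ : 0 ≤ ρ * σ := by positivity
  have hδζ : 0 ≤ δ * ζ := by positivity
  have a1 : δ ^ 2 * σ ≤ δ * σ / 4 := by nlinarith
  have a2 : δ * σ ≤ σ / 4 := by nlinarith
  have a3 : δ ^ 2 * ζ ≤ δ * ζ / 4 := by nlinarith
  have a4 : δ * ζ ≤ ζ / 4 := by nlinarith
  have hm₀ : 11 / 16 * mb ≤ m₀ := by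
    linarith [(abs_le.1 h₀).1, (abs_le.1 hu₀).1]
  have hm₁ : |m₁| ≤ 21 / 16 * ζ := by
    rw [abs_le] at h₁ hc₁ hu₁ ⊢
    constructor <;> linarith [h₁.1, h₁.2, hc₁.1, hc₁.2, hu₁.1, hu₁.2]
  have hξ : |ξ| * σ ≤ 2 * ζ + 3 / 2 * (ρ * σ) := by
    have k1 : |ξ * m₀| ≤ |m₁| + |m₁ - ξ * m₀| := by
      have := abs_sub m₁ (m₁ - ξ * m₀)
      rwa [sub_sub_cancel] at this
    rw [abs_mul, abs_of_pos (by linarith : 0 < m₀)] at k1
    have k2 := mul_le_mul_of_nonneg_left hm₀ (abs_nonneg ξ)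
    have k3 := mul_le_mul_of_nonneg_left hmb (abs_nonneg ξ)
    linarith
  obtain ⟨η, hη⟩ : ∃ η, η = ξ - c₁ / mb := ⟨_, rfl⟩
  have b1 : |ξ * (m₀ - mb - u₀)| ≤ δ ^ 2 * (2 * ζ + 3 / 2 * (ρ * σ)) := by
    rw [abs_mul]
    have k1 := mul_le_mul_of_nonneg_left h₀ (abs_nonneg ξ)
    have k2 := mul_le_mul_of_nonneg_left hξ (sq_nonneg δ)
    linarith
  have b2 : |ξ * u₀| ≤ δ * (2 * ζ + 3 / 2 * (ρ * σ)) := by
    rw [abs_mul]
    have k1 := mul_le_mul_of_nonneg_left hu₀ (abs_nonneg ξ)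
    have k2 := mul_le_mul_of_nonneg_left hξ hδ
    linarith
  have a5 : δ * (ρ * σ) ≤ ρ * σ / 4 := by nlinarith
  have a6 : δ ^ 2 * (ρ * σ) ≤ ρ * σ / 16 := by nlinarith
  have b3 : |η| * σ ≤ 4 * (δ * ζ) + 2 * (ρ * σ) := by
    have e : η * mb = u₁ + (m₁ - c₁ - u₁) - (m₁ - ξ * m₀) - ξ * u₀ - ξ * (m₀ - mb - u₀) := by
      rw [hη]
      field_simp
      ring
    have k1 : |η * mb| ≤ 4 * (δ * ζ) + 2 * (ρ * σ) := by
      rw [e]
      rw [abs_le] at hu₁ h₁ h b1 b2 ⊢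
      constructor <;> linarith [hu₁.1, hu₁.2, h₁.1, h₁.2, h.1, h.2, b1.1, b1.2, b2.1, b2.2]
    rw [abs_mul, abs_of_pos hm] at k1
    exact (mul_le_mul_of_nonneg_left hmb (abs_nonneg η)).trans k1
  have b4 : |η * u₀| ≤ δ * (4 * (δ * ζ) + 2 * (ρ * σ)) := by
    rw [abs_mul]
    have k1 := mul_le_mul_of_nonneg_left hu₀ (abs_nonneg η)
    have k2 := mul_le_mul_of_nonneg_left b3 hδ
    linarith
  have e : ξ - (c₁ + u₁ - c₁ / mb * u₀) / mb =
      ((m₁ - c₁ - u₁) - (m₁ - ξ * m₀) - ξ * (m₀ - mb - u₀) - η * u₀) / mb := by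
    rw [hη]
    field_simp
    ring
  have b5 : |(m₁ - c₁ - u₁) - (m₁ - ξ * m₀) - ξ * (m₀ - mb - u₀) - η * u₀| ≤
      10 * (ρ * σ + δ ^ 2 * ζ) := by
    have k : 0 ≤ δ ^ 2 * ζ := by positivity
    rw [abs_le] at h₁ h b1 b4 ⊢
    constructor <;> linarith [h₁.1, h₁.2, h.1, h.2, b1.1, b1.2, b4.1, b4.2]
  rw [e, abs_div, abs_of_pos hm]
  calc _ ≤ 10 * (ρ * σ + δ ^ 2 * ζ) / σ := div_le_div₀ (by positivity) b5 hσ hmb
    _ = 10 * (ρ + δ ^ 2 * ζ / σ) := by field_simp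

end Pool.Agent.Lib.MP_8daebb_an.G6
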