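import Pool.Agent.Lib.MP_8daebb_an.G6.Time
import Pool.Agent.Lib.MP_8daebb_an.G6.Tay

/-! The fixed cutoff: change of centre, size of the moments. -/

open MeasureTheory Metric Set Module Real
open scoped RealInnerProductSpace

namespace Pool.Agent.Lib.MP_8daebb_an.G6

open AS HK

variable {E : Type*} [NormedAddCommGroup E] [InnerProductSpace ℝ E] [FiniteDimensional ℝ E]
  [MeasurableSpace E] [BorelSpace E]

theorem gk_chi_le_Ph2 {n : Fin 2 → E} (hn : Orthonormal ℝ n) {t b : ℝ} (hb : 0 < b) (hbt : b ≤ t)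
    (z : E) : gk n t z * chi (‖Pn n z‖ ^ 2 / b) ≤ 4 * π * exp 1 * t * G t z := by
  have ht : 0 < t := hb.trans_le hbt
  have h := abs_Kk_le hn (α := 1) (ν := 0) (Λ := 1) (map_zero _) ht hb le_rfl hbt (by simp) z
  rw [div_self ht.ne', one_rpow] at h
  simp only [Kk, inner_zero_left, add_zero, one_mul, mul_one] at h
  exact (le_abs_self _).trans h

theorem one_sub_le_chi_Ph2 {s : ℝ} (hs : 0 ≤ s) : 1 - s ≤ chi s := by
  rcases le_total s 1 with h | h
  · rw [chi_one h]; linarith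
  · linarith [chi_nonneg s]

theorem meas_chi_Ph2 (n : Fin 2 → E) (b : ℝ) (x₀ : E) :
    Measurable fun y => chi (‖Pn n (y - x₀)‖ ^ 2 / b) :=
  (contDiff_chi.continuous.comp (by fun_prop)).measurable

theorem meas_gk_Ph2 (n : Fin 2 → E) (t : ℝ) (x₀ : E) : Measurable fun y => gk n t (y - x₀) :=
  ((continuous_gk n t).comp (by fun_prop)).measurable

theorem chi_diff_Ph2 {s p q : ℝ} (hs : 0 < s) (hp : 0 ≤ p) (hq : 0 ≤ q) (h1 : p ≤ q + s / 4)
    (h2 : q ≤ p + s / 4) :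
    chi (p ^ 2 / s ^ 2) = chi (q ^ 2 / s ^ 2) ∨ (3 * s / 4 ≤ q ∧ q ≤ 9 * s / 4) := by
  have hs2 : 0 < s ^ 2 := by positivity
  rcases le_total q (3 * s / 4) with h | h
  · left
    rw [chi_one, chi_one]
    · rw [div_le_one hs2]; gcongr; linarith
    · rw [div_le_one hs2]; gcongr; linarith
  · rcases le_total q (9 * s / 4) with h' | h'
    · exact Or.inr ⟨h, h'⟩
    · left
      rw [chi_zero, chi_zero]
      · rw [le_div_iff₀ hs2]; nlinarith
      · rw [le_div_iff₀ hs2]; nlinarith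

theorem switch_pt_Ph2 {n : Fin 2 → E} (hn : Orthonormal ℝ n) (i : Fin 2) {s S : ℝ} {x₀ x : E}
    (hs : 0 < s) (hS : 2 * s ^ 2 ≤ S) (hx : ‖x - x₀‖ ^ 2 ≤ S)
    (hP : 16 * ‖Pn n (x - x₀)‖ ^ 2 ≤ s ^ 2) (y : E) :
    |Kk n 0 (n i) (s ^ 2) (s ^ 2) (y - x) -
      Kk n (-⟪n i, x - x₀⟫) (n i) (s ^ 2) (s ^ 2) (y - (x - Pn n (x - x₀)))| ≤
      (40 / 9 * (4 * π * exp 1) * (2 ^ hd E * exp (1 / 4))) * (S / s ^ 2) ^ hd E * (S / s) *
        (G (2 * S) (y - x₀) * ‖Pn n (y - x₀)‖ ^ 2) := by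
  have hs2 : 0 < s ^ 2 := by positivity
  have hS0 : 0 < S := by linarith
  have hG := G_pos (show 0 < 2 * S by positivity) (y - x₀)
  have e1 : y - (x - Pn n (x - x₀)) = (y - x) + Pn n (x - x₀) := by abel
  have e2 : Pn n (y - (x - Pn n (x - x₀))) = Pn n (y - x₀) := by
    rw [e1, map_add, Pn_Pn hn, ← map_add]; congr 1; abel
  have e3 : Pn n (y - x₀) = Pn n (y - x) + Pn n (x - x₀) := by
    rw [← map_add]; congr 1; abel
  have e4 : -⟪n i, x - x₀⟫ + ⟪n i, y - (x - Pn n (x - x₀))⟫ = ⟪n i, y - x⟫ := by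
    rw [e1, inner_add_right, inner_n_Pn hn]; ring
  have e5 : gk n (s ^ 2) (y - x) = gk n (s ^ 2) (y - (x - Pn n (x - x₀))) := by
    refine gk_congr n _ ?_
    rw [e2, e3]; abel
  have hδ : ‖Pn n (x - x₀)‖ ≤ s / 4 := by
    refine abs_le_of_sq_le_sq' ?_ (by positivity) |>.2
    linarith
  have h1 : ‖Pn n (y - x)‖ ≤ ‖Pn n (y - x₀)‖ + s / 4 := by
    have : Pn n (y - x) = Pn n (y - x₀) - Pn n (x - x₀) := by rw [e3]; abel
    rw [this]
    linarith [norm_sub_le (Pn n (y - x₀)) (Pn n (x - x₀))]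
  have h2 : ‖Pn n (y - x₀)‖ ≤ ‖Pn n (y - x)‖ + s / 4 := by
    rw [e3]
    linarith [norm_add_le (Pn n (y - x)) (Pn n (x - x₀))]
  unfold Kk
  rw [e4, e2, zero_add, e5, ← mul_sub]
  rcases chi_diff_Ph2 hs (norm_nonneg _) (norm_nonneg _) h1 h2 with h | ⟨h, h'⟩
  · rw [h, sub_self, mul_zero, abs_zero]; positivity
  · have a1 : |⟪n i, y - x⟫| ≤ 5 * s / 2 := (abs_inner_n_le hn i _).trans (by linarith)
    have a2 : |chi (‖Pn n (y - x)‖ ^ 2 / s ^ 2) - chi (‖Pn n (y - x₀)‖ ^ 2 / s ^ 2)| ≤ 1 := by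
      rw [abs_le]
      constructor <;>
        linarith [chi_nonneg (‖Pn n (y - x)‖ ^ 2 / s ^ 2), chi_le_one (‖Pn n (y - x)‖ ^ 2 / s ^ 2),
          chi_nonneg (‖Pn n (y - x₀)‖ ^ 2 / s ^ 2), chi_le_one (‖Pn n (y - x₀)‖ ^ 2 / s ^ 2)]
    have a3 := gk_le hn hs2 (S := S) (by linarith) (z := y - (x - Pn n (x - x₀)))
      (by rw [e2]; nlinarith [norm_nonneg (Pn n (y - x₀))])
    have a4 : G S (y - (x - Pn n (x - x₀))) ≤ 2 ^ hd E * exp (1 / 4) * G (2 * S) (y - x₀) := by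
      have : y - (x - Pn n (x - x₀)) = (y - x₀) + -((x - x₀) - Pn n (x - x₀)) := by abel
      rw [this]
      refine G_shift_le hS0 ?_ _
      rw [norm_neg, one_mul]
      exact (pow_le_pow_left₀ (norm_nonneg _) (norm_par_le hn _) 2).trans hx
    have a5 : 1 ≤ 16 / 9 * ‖Pn n (y - x₀)‖ ^ 2 / s ^ 2 := by
      rw [le_div_iff₀ hs2]; nlinarith
    have a6 := gk_pos n hs2 (y - (x - Pn n (x - x₀)))
    rw [abs_mul, abs_mul, abs_of_pos a6]
    calc _ ≤ 5 * s / 2 * (4 * π * exp 1 * (S / s ^ 2) ^ hd E * S *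
          (2 ^ hd E * exp (1 / 4) * G (2 * S) (y - x₀))) * (16 / 9 * ‖Pn n (y - x₀)‖ ^ 2 / s ^ 2) := by
          refine mul_le_mul (mul_le_mul a1 (a3.trans (by gcongr)) a6.le (by positivity))
            (a2.trans a5) (abs_nonneg _) (by positivity)
      _ = _ := by field_simp; ring

theorem switch : ∃ C ≥ (1 : ℝ), ∀ (ε : E → ℝ) (T : E → E →L[ℝ] E) (c : E) (R μ : ℝ),
    St ε T c R μ → ∀ n : Fin 2 → E, Orthonormal ℝ n → ∀ (i : Fin 2) (b S : ℝ) (x₀ x : E), 0 < b →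
    2 * b ≤ S → ‖x - x₀‖ ^ 2 ≤ S → 16 * ‖Pn n (x - x₀)‖ ^ 2 ≤ b →
    |mom ε n 0 (n i) b b x - mom ε n (-⟪n i, x - x₀⟫) (n i) b b (x - Pn n (x - x₀))| ≤
      C * (S / b) ^ hd E * (S / √b) * Hs ε T n (2 * S) x₀ := by
  refine ⟨1 + 40 / 9 * (4 * π * exp 1) * (2 ^ hd E * exp (1 / 4)),
    le_add_of_nonneg_right (by positivity), ?_⟩
  intro ε T c R μ h n hn i b S x₀ x hb hS hx hP
  obtain ⟨s, hs, rfl⟩ : ∃ s, 0 < s ∧ b = s ^ 2 := ⟨√b, sqrt_pos.2 hb, (sq_sqrt hb.le).symm⟩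
  have hS0 : 0 < S := by linarith
  rw [sqrt_sq hs.le, mom, mom, ← integral_sub (integrable_mom h.bε hn _ (Pn_n hn i) hb hb _)
    (integrable_mom h.bε hn _ (Pn_n hn i) hb hb _), Hs, ← integral_const_mul]
  rw [← Real.norm_eq_abs]
  refine norm_integral_le_of_norm_le ((h.integrable_Hs hn (by positivity) x₀).const_mul _)
    (Filter.Eventually.of_forall fun y => ?_)
  have h1 := switch_pt_Ph2 hn i hs hS hx hP y
  have h2 := abs_eps_le h y
  have h3 := h.tau_nonneg y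
  have hG := G_pos (show 0 < 2 * S by positivity) (y - x₀)
  rw [Real.norm_eq_abs, ← mul_sub, abs_mul]
  calc _ ≤ (tau T y + |bet ε T y|) * ((1 + 40 / 9 * (4 * π * exp 1) * (2 ^ hd E * exp (1 / 4))) *
        (S / s ^ 2) ^ hd E * (S / s) * (G (2 * S) (y - x₀) * ‖Pn n (y - x₀)‖ ^ 2)) := by
        refine mul_le_mul (by linarith [abs_nonneg (bet ε T y)]) (h1.trans ?_) (abs_nonneg _)
          (by positivity)
        gcongr
        linarith
    _ = _ := by ring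

theorem mom_lower : ∃ C ≥ (1 : ℝ), ∀ (ε : E → ℝ) (T : E → E →L[ℝ] E) (c : E) (R μ : ℝ),
    St ε T c R μ → ∀ n : Fin 2 → E, Orthonormal ℝ n → ∀ (t b : ℝ) (x₀ : E), 0 < b → b ≤ t →
    2 * π * (t * P t (tau T) x₀) - C * (t / b * Hs ε T n t x₀ +
      t * P t (fun y => |bet ε T y|) x₀) ≤ mom ε n 1 0 t b x₀ := by
  refine ⟨1 + 2 * π + 2 * π * exp 1, by linarith [show 0 ≤ 2 * π * exp 1 by positivity, pi_pos], ?_⟩
  intro ε T c R μ h n hn t b x₀ hb hbt
  have ht : 0 < t := hb.trans_le hbt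
  have i1 := h.bm_tau.integrable_G ht x₀
  have i2 := h.integrable_Hs hn ht x₀
  have i3 := h.bm_bet.abs.integrable_G ht x₀
  have i4 : Integrable fun a => t / b * (G t (a - x₀) * (‖Pn n (a - x₀)‖ ^ 2 *
      (tau T a + |bet ε T a|))) + t * (G t (a - x₀) * |bet ε T a|) :=
    (i2.const_mul _).add (i3.const_mul _)
  rw [P, P, Hs, mom, ← integral_const_mul, ← integral_const_mul, ← integral_const_mul,
    ← integral_const_mul, ← integral_add (i2.const_mul _) (i3.const_mul _), ← integral_const_mul,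
    ← integral_sub ((i1.const_mul _).const_mul _) (i4.const_mul _)]
  refine integral_mono (((i1.const_mul _).const_mul _).sub (i4.const_mul _))
    (integrable_mom h.bε hn _ (map_zero _) ht hb _) fun y => ?_
  have hG := G_pos ht (y - x₀)
  have h1 := gk_chi_le_Ph2 hn hb hbt (y - x₀)
  have h2 := G_le_gk hn ht (y - x₀)
  have h3 := h.tau_nonneg y
  have h4 := one_sub_le_chi_Ph2 (s := ‖Pn n (y - x₀)‖ ^ 2 / b) (by positivity)
  have h5 := chi_nonneg (‖Pn n (y - x₀)‖ ^ 2 / b)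
  have h6 := gk_pos n ht (y - x₀)
  have e : ε y = (tau T y + bet ε T y) / 2 := by unfold tau bet; ring
  simp only [Kk, inner_zero_left, add_zero, one_mul]
  rw [e]
  set g := G t (y - x₀)
  set q := ‖Pn n (y - x₀)‖ ^ 2 with hq
  have hq0 : 0 ≤ q := by positivity
  set k := gk n t (y - x₀)
  set χ := chi (q / b)
  set τ := tau T y
  set β := bet ε T y
  have hβ := abs_nonneg β
  have a1 : 4 * π * t * g * (1 - q / b) ≤ k * χ :=
    (mul_le_mul_of_nonneg_left h4 (by positivity)).trans (mul_le_mul_of_nonneg_right h2 h5)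
  have a2 : -(|β| * (4 * π * exp 1 * t * g)) ≤ β * (k * χ) := by
    have b1 : |β| * (k * χ) ≤ |β| * (4 * π * exp 1 * t * g) := mul_le_mul_of_nonneg_left h1 hβ
    have b2 : -|β| * (k * χ) ≤ β * (k * χ) :=
      mul_le_mul_of_nonneg_right (neg_abs_le β) (by positivity)
    linarith
  have a3 := mul_le_mul_of_nonneg_left a1 h3
  have p1 : 0 ≤ (1 + 2 * π * exp 1) * (t / b * (g * (q * τ))) := by positivity
  have p2 : 0 ≤ (1 + 2 * π + 2 * π * exp 1) * (t / b * (g * (q * |β|))) := by positivity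
  have p3 : 0 ≤ (1 + 2 * π) * (t * (g * |β|)) := by positivity
  have e2 : τ * (4 * π * t * g * (1 - q / b)) =
      2 * (2 * π * (t * (g * τ))) - 2 * (2 * π * (t / b * (g * (q * τ)))) := by ring
  nlinarith

/-- Expansion of the moment of order zero. -/
theorem expand_zero : ∃ C ≥ (1 : ℝ), ∀ (ε : E → ℝ) (T : E → E →L[ℝ] E) (c : E) (R μ : ℝ),
    St ε T c R μ → ∀ n : Fin 2 → E, Orthonormal ℝ n → ∀ (t b D : ℝ) (x₀ : E), 0 < b → b ≤ t →
    2 * t * P (2 * t) (tau T) x₀ + 2 * t * P (2 * t) (fun y => |bet ε T y|) x₀ ≤ D →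
    ∃ a : E, Pn n a = 0 ∧ ‖a‖ ≤ C * D / √t ∧ ∀ v : E, Pn n v = 0 → ‖v‖ ^ 2 ≤ t →
      |mom ε n 1 0 t b (x₀ + v) - mom ε n 1 0 t b x₀ - ⟪a, v⟫| ≤ C * (‖v‖ ^ 2 / t) * D := by
  obtain ⟨C, hC, H⟩ := expand (E := E)
  have hπ : 1 ≤ 2 * π * exp 1 := by nlinarith [pi_gt_three, add_one_le_exp (1 : ℝ)]
  refine ⟨C * (2 * π * exp 1), one_le_mul_of_one_le_of_one_le hC hπ, ?_⟩
  intro ε T c R μ h n hn t b D x₀ hb hbt hD
  have ht : 0 < t := hb.trans_le hbt
  have ht2 : 0 < 2 * t := by positivity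
  have i1 := h.bm_tau.integrable_G ht2 x₀
  have i3 := h.bm_bet.abs.integrable_G ht2 x₀
  have hm : Measurable fun y => ε y * chi (‖Pn n (y - x₀)‖ ^ 2 / b) :=
    h.bε.meas.mul (meas_chi_Ph2 n b x₀)
  have iB : Integrable fun y => 2 * π * exp 1 * (2 * t * (G (2 * t) (y - x₀) * tau T y) +
      2 * t * (G (2 * t) (y - x₀) * |bet ε T y|)) :=
    ((i1.const_mul _).add (i3.const_mul _)).const_mul _
  have hpt : ∀ y, |ε y * chi (‖Pn n (y - x₀)‖ ^ 2 / b)| * gk n (2 * t) (y - x₀) ≤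
      2 * π * exp 1 * (2 * t * (G (2 * t) (y - x₀) * tau T y) +
        2 * t * (G (2 * t) (y - x₀) * |bet ε T y|)) := fun y => by
    have h1 := gk_chi_le_Ph2 hn hb (show b ≤ 2 * t by linarith) (y - x₀)
    have h2 := abs_eps_le h y
    have h5 := chi_nonneg (‖Pn n (y - x₀)‖ ^ 2 / b)
    have h6 := gk_pos n ht2 (y - x₀)
    rw [abs_mul, abs_of_nonneg h5]
    calc _ = |ε y| * (gk n (2 * t) (y - x₀) * chi (‖Pn n (y - x₀)‖ ^ 2 / b)) := by ring
      _ ≤ (tau T y + |bet ε T y|) / 2 * (4 * π * exp 1 * (2 * t) * G (2 * t) (y - x₀)) :=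
        mul_le_mul h2 h1 (by positivity) ((abs_nonneg _).trans h2)
      _ = _ := by ring
  have hI : Integrable fun y => |ε y * chi (‖Pn n (y - x₀)‖ ^ 2 / b)| * gk n (2 * t) (y - x₀) :=
    iB.mono' (hm.abs.mul (meas_gk_Ph2 n _ x₀)).aestronglyMeasurable
      (Filter.Eventually.of_forall fun y => by
        rw [Real.norm_eq_abs, abs_of_nonneg (mul_nonneg (abs_nonneg _) (gk_pos n ht2 _).le)]
        exact hpt y)
  have hN : ∫ y, |ε y * chi (‖Pn n (y - x₀)‖ ^ 2 / b)| * gk n (2 * t) (y - x₀) ≤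
      2 * π * exp 1 * D := by
    refine (integral_mono hI iB hpt).trans ?_
    rw [integral_const_mul, integral_add (i1.const_mul _) (i3.const_mul _), integral_const_mul,
      integral_const_mul]
    exact mul_le_mul_of_nonneg_left hD (by positivity)
  obtain ⟨a, ha0, ha1, -, ha3⟩ := H n hn _ t _ x₀ ht hm hI hN
  have key : ∀ v : E, Pn n v = 0 → mom ε n 1 0 t b (x₀ + v) =
      ∫ y, ε y * chi (‖Pn n (y - x₀)‖ ^ 2 / b) * gk n t (y - (x₀ + v)) := fun v hv => by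
    refine integral_congr_ae (Filter.Eventually.of_forall fun y => ?_)
    have : Pn n (y - (x₀ + v)) = Pn n (y - x₀) := by
      rw [← sub_sub, map_sub _ _ v, hv, sub_zero]
    simp only [Kk, inner_zero_left, add_zero, one_mul, this]
    ring
  refine ⟨a, ha0, ha1.trans_eq (by ring), fun v hv hvt => ?_⟩
  have k0 := key 0 (map_zero _)
  rw [add_zero] at k0
  rw [key v hv, k0]
  exact (ha3 v hv hvt).trans_eq (by ring)

/-- Expansion of the moment of order one. -/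
theorem expand_one : ∃ C ≥ (1 : ℝ), ∀ (ε : E → ℝ) (T : E → E →L[ℝ] E) (c : E) (R μ : ℝ),
    St ε T c R μ → ∀ n : Fin 2 → E, Orthonormal ℝ n → ∀ (i : Fin 2) (t b D lam : ℝ) (x₀ : E),
    0 < b → b ≤ t → 0 < lam →
    2 * t * P (2 * t) (tau T) x₀ + 2 * t * P (2 * t) (fun y => |bet ε T y|) x₀ ≤ D →
    Hs ε T n (2 * t) x₀ ≤ lam ^ 2 * D →
    ∃ a : E, Pn n a = 0 ∧ ‖a‖ ≤ C * (lam * √t * D) / √t ∧
      |mom ε n 0 (n i) t b x₀| ≤ C * (lam * √t * D) ∧ ∀ v : E, Pn n v = 0 → ‖v‖ ^ 2 ≤ t →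
      |mom ε n 0 (n i) t b (x₀ + v) - mom ε n 0 (n i) t b x₀ - ⟪a, v⟫| ≤
        C * (‖v‖ ^ 2 / t) * (lam * √t * D) := by
  obtain ⟨C, hC, H⟩ := expand (E := E)
  have hπ : 1 ≤ 3 * π * exp 1 := by nlinarith [pi_gt_three, add_one_le_exp (1 : ℝ)]
  refine ⟨C * (3 * π * exp 1), one_le_mul_of_one_le_of_one_le hC hπ, ?_⟩
  intro ε T c R μ h n hn i t b D lam x₀ hb hbt hl hD hH
  have ht : 0 < t := hb.trans_le hbt
  have ht2 : 0 < 2 * t := by positivity
  have hst : 0 < √t := sqrt_pos.2 ht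
  have hst2 : √t * √t = t := mul_self_sqrt ht.le
  have i1 := h.bm_tau.integrable_G ht2 x₀
  have i2 := h.integrable_Hs hn ht2 x₀
  have i3 := h.bm_bet.abs.integrable_G ht2 x₀
  have hm : Measurable fun y => ε y * ⟪n i, y - x₀⟫ * chi (‖Pn n (y - x₀)‖ ^ 2 / b) :=
    (h.bε.meas.mul (by fun_prop)).mul (meas_chi_Ph2 n b x₀)
  have iB : Integrable fun y => 2 * π * exp 1 * (lam * √t / 2 *
      (2 * t * (G (2 * t) (y - x₀) * tau T y) + 2 * t * (G (2 * t) (y - x₀) * |bet ε T y|)) +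
      √t / lam * (G (2 * t) (y - x₀) * (‖Pn n (y - x₀)‖ ^ 2 * (tau T y + |bet ε T y|)))) :=
    ((((i1.const_mul _).add (i3.const_mul _)).const_mul _).add (i2.const_mul _)).const_mul _
  have hpt : ∀ y, |ε y * ⟪n i, y - x₀⟫ * chi (‖Pn n (y - x₀)‖ ^ 2 / b)| * gk n (2 * t) (y - x₀) ≤
      2 * π * exp 1 * (lam * √t / 2 *
      (2 * t * (G (2 * t) (y - x₀) * tau T y) + 2 * t * (G (2 * t) (y - x₀) * |bet ε T y|)) +
      √t / lam * (G (2 * t) (y - x₀) * (‖Pn n (y - x₀)‖ ^ 2 * (tau T y + |bet ε T y|)))) :=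
    fun y => by
    have h1 := gk_chi_le_Ph2 hn hb (show b ≤ 2 * t by linarith) (y - x₀)
    have h2 := abs_eps_le h y
    have h5 := chi_nonneg (‖Pn n (y - x₀)‖ ^ 2 / b)
    have h6 := gk_pos n ht2 (y - x₀)
    have h7 : |⟪n i, y - x₀⟫| ≤ lam * √t / 2 + ‖Pn n (y - x₀)‖ ^ 2 / (2 * (lam * √t)) := by
      refine (abs_inner_n_le hn i _).trans ?_
      have hp : 0 < lam * √t := by positivity
      rw [div_add_div _ _ two_ne_zero (by positivity), le_div_iff₀ (by positivity)]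
      nlinarith [sq_nonneg (lam * √t - ‖Pn n (y - x₀)‖)]
    rw [abs_mul, abs_mul, abs_of_nonneg h5]
    calc _ = |ε y| * |⟪n i, y - x₀⟫| * (gk n (2 * t) (y - x₀) * chi (‖Pn n (y - x₀)‖ ^ 2 / b)) := by
          ring
      _ ≤ (tau T y + |bet ε T y|) / 2 * (lam * √t / 2 + ‖Pn n (y - x₀)‖ ^ 2 / (2 * (lam * √t))) *
          (4 * π * exp 1 * (2 * t) * G (2 * t) (y - x₀)) :=
        mul_le_mul (mul_le_mul h2 h7 (abs_nonneg _) ((abs_nonneg _).trans h2)) h1 (by positivity)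
          (mul_nonneg ((abs_nonneg _).trans h2) (by positivity))
      _ = _ := by
        generalize √t = s at hst hst2
        subst hst2
        field_simp
        ring
  have hI : Integrable fun y => |ε y * ⟪n i, y - x₀⟫ * chi (‖Pn n (y - x₀)‖ ^ 2 / b)| *
      gk n (2 * t) (y - x₀) :=
    iB.mono' (hm.abs.mul (meas_gk_Ph2 n _ x₀)).aestronglyMeasurable
      (Filter.Eventually.of_forall fun y => by
        rw [Real.norm_eq_abs, abs_of_nonneg (mul_nonneg (abs_nonneg _) (gk_pos n ht2 _).le)]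
        exact hpt y)
  have hN : ∫ y, |ε y * ⟪n i, y - x₀⟫ * chi (‖Pn n (y - x₀)‖ ^ 2 / b)| * gk n (2 * t) (y - x₀) ≤
      3 * π * exp 1 * (lam * √t * D) := by
    refine (integral_mono hI iB hpt).trans ?_
    have i4 : Integrable fun y => 2 * t * (G (2 * t) (y - x₀) * tau T y) +
        2 * t * (G (2 * t) (y - x₀) * |bet ε T y|) := (i1.const_mul _).add (i3.const_mul _)
    rw [integral_const_mul, integral_add (i4.const_mul _)
      (i2.const_mul _), integral_const_mul, integral_add (i1.const_mul _) (i3.const_mul _),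
      integral_const_mul, integral_const_mul, integral_const_mul]
    calc _ ≤ 2 * π * exp 1 * (lam * √t / 2 * D + √t / lam * (lam ^ 2 * D)) :=
          mul_le_mul_of_nonneg_left (add_le_add (mul_le_mul_of_nonneg_left hD (by positivity))
            (mul_le_mul_of_nonneg_left hH (by positivity))) (by positivity)
      _ = _ := by field_simp; ring
  obtain ⟨a, ha0, ha1, ha2, ha3⟩ := H n hn _ t _ x₀ ht hm hI hN
  have key : ∀ v : E, Pn n v = 0 → mom ε n 0 (n i) t b (x₀ + v) =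
      ∫ y, ε y * ⟪n i, y - x₀⟫ * chi (‖Pn n (y - x₀)‖ ^ 2 / b) * gk n t (y - (x₀ + v)) :=
    fun v hv => by
    refine integral_congr_ae (Filter.Eventually.of_forall fun y => ?_)
    have e1 : Pn n (y - (x₀ + v)) = Pn n (y - x₀) := by
      rw [← sub_sub, map_sub _ _ v, hv, sub_zero]
    have e2 : ⟪n i, y - (x₀ + v)⟫ = ⟪n i, y - x₀⟫ := by
      rw [← sub_sub, inner_sub_right _ _ v, inner_n_of_Pn_eq_zero hn hv, sub_zero]
    simp only [Kk, zero_add, e1, e2]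
    ring
  have k0 := key 0 (map_zero _)
  rw [add_zero] at k0
  refine ⟨a, ha0, ha1.trans_eq (by ring), ?_, fun v hv hvt => ?_⟩
  · rw [k0]
    exact ha2.trans_eq (by ring)
  · rw [key v hv, k0]
    exact (ha3 v hv hvt).trans_eq (by ring)

end Pool.Agent.Lib.MP_8daebb_an.G6
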