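import Pool.Agent.Lib.MP_8daebb_an.G6.Ph1
import Pool.Agent.Lib.MP_8daebb_an.G6.Ph2

/-! The first moment centred at a good point is small at the large time. -/

open MeasureTheory Metric Set Module Real
open scoped RealInnerProductSpace

namespace Pool.Agent.Lib.MP_8daebb_an.G6

open AS HK

variable {E : Type*} [NormedAddCommGroup E] [InnerProductSpace ℝ E] [FiniteDimensional ℝ E]
  [MeasurableSpace E] [BorelSpace E]

theorem rpow_hd_le {x q : ℝ} (hx : 0 ≤ x) (hq : 0 < q) (h : x ≤ q ^ 2) :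
    x ^ hd E ≤ q ^ finrank ℝ E := by
  calc x ^ hd E ≤ (q ^ 2) ^ hd E := rpow_le_rpow hx h hd_nonneg
    _ = _ := by rw [rpow_hd_eq (by positivity), sqrt_sq hq.le]

/-- Elementary consequences of the relations between the parameters. -/
theorem Par.basic {m : ℕ} {c κ κ₂ r B l l' : ℝ} (h : Par m c κ κ₂ r B l l') (hr : 0 < r)
    (hκ : 0 < κ) (hc0 : 0 < c) (hc : c ≤ 1 / 2) :
    0 < B ∧ 0 < l ∧ 0 < l' ∧ 2 * B ≤ l ∧ 2 * l ≤ l' ∧ κ * l' ≤ r ∧ κ * (l' / B) ^ 2 ≤ κ₂ ∧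
      κ * (B / r) ≤ κ₂ ∧ κ ≤ κ₂ := by
  have hB : 0 < B := hr.trans_le h.r_le
  have hl : 0 < l := by
    by_contra hl
    have := h.B_le
    nlinarith [not_lt.1 hl]
  have hl' : 0 < l' := by
    by_contra hl'
    have := h.l_le
    nlinarith [not_lt.1 hl']
  have h1 : 2 * B ≤ l := by nlinarith [h.B_le]
  have h2 : 2 * l ≤ l' := by nlinarith [h.l_le]
  have q1 : 1 ≤ l' / B := by rw [le_div_iff₀ hB]; linarith
  have q2 : 1 ≤ l' / l := by rw [le_div_iff₀ hl]; linarith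
  have q3 : 1 ≤ (l' / B) ^ (m + 4) := one_le_pow₀ q1
  have q4 : 1 ≤ (l' / l) ^ m := one_le_pow₀ q2
  have q5 : 1 ≤ (l' / B) ^ 2 := one_le_pow₀ q1
  have q6 : 0 < B / r := by positivity
  have q7 : κ * ((l' / B) ^ 2 + B / r) ≤ κ₂ := by
    refine le_trans ?_ h.p6
    have : κ ≤ κ * (l' / l) ^ m := le_mul_of_one_le_right hκ.le q4
    gcongr
  refine ⟨hB, hl, hl', h1, h2, le_trans ?_ h.p2, ?_, ?_, ?_⟩
  · have : κ ≤ κ * (l' / B) ^ (m + 4) := le_mul_of_one_le_right hκ.le q3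
    gcongr
  · nlinarith [mul_pos hκ q6]
  · nlinarith
  · nlinarith [mul_pos hκ q6]

theorem cell_Hs : ∃ C ≥ (1 : ℝ), ∀ (ε : E → ℝ) (T : E → E →L[ℝ] E) (e : E → ℝ) (x₀ : E)
    (A Cg μ σ κ r l l' : ℝ), Cell ε T e x₀ A Cg μ σ κ r l l' → ∀ n : Fin 2 → E,
    Orthonormal ℝ n → ∀ (t : ℝ) (p : E), ‖p - x₀‖ ≤ A * l' → e p ≤ 1 / Cg → r ^ 2 ≤ t →
    2 * t ≤ (A * l') ^ 2 → t ≤ l' ^ 2 →
    Hs ε T n t p ≤ C * (2 * (Cg * e p * σ) + κ * σ + t * P (2 * t) (tpar T n) p) := by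
  obtain ⟨C, hC, H⟩ := Hs_le (E := E)
  refine ⟨C, hC, fun ε T e x₀ A Cg μ σ κ r l l' h n hn t p hp he ht h2 hl => ?_⟩
  have ht0 : 0 < t := lt_of_lt_of_le (pow_pos h.r0 2) ht
  refine (H ε T x₀ _ μ h.st n hn t p ht0 h2 hp).trans ?_
  have a1 := (h.calm p hp he t ht (by linarith)).1
  have a2 := (h.calm p hp he (2 * t) (by linarith) h2).1
  have b1 : 0 ≤ t * P t (fun y => |bet ε T y|) p :=
    mul_nonneg ht0.le (P_nonneg ht0.le (fun y => abs_nonneg _) p)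
  have b2 : 0 ≤ t * P (2 * t) (fun y => |bet ε T y|) p :=
    mul_nonneg ht0.le (P_nonneg (by linarith) (fun y => abs_nonneg _) p)
  have b3 := h.st.rad_nonneg (show 0 < 2 * t by linarith) p
  have b4 : μ * t ≤ κ * σ := le_trans (mul_le_mul_of_nonneg_left hl h.st.μ0) h.μ_le
  refine mul_le_mul_of_nonneg_left ?_ (by linarith)
  linarith

/-- Elementary inequalities between the lengths. -/
theorem len_facts {A c B l l' b : ℝ} (hA : 2 ≤ A) (hc : A * c ≤ 1 / 4) (hB : 0 < B)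
    (hl : 0 < l) (hl' : 0 < l') (hBl : 2 * B ≤ l) (hll : 2 * l ≤ l') (hlc : l ≤ c * l')
    (hb0 : 0 < b) (hJ : b ≤ B ^ 2) (hJ' : B ^ 2 ≤ 2 * b) :
    √b ≤ B ∧ B / 2 ≤ √b ∧ A * l ≤ l' / 4 ∧ l' ≤ A * l' ∧ 4 * l' ^ 2 ≤ (A * l') ^ 2 ∧
      16 * B ^ 2 ≤ l' ^ 2 ∧ 1 ≤ l' / B ∧ l' ^ 2 / 4 / b ≤ (l' / B) ^ 2 ∧
      l' ^ 2 / 8 / b ≤ (l' / B) ^ 2 := by
  have h1 : l' ^ 2 / 4 / b ≤ (l' / B) ^ 2 := by
    rw [div_pow, div_le_div_iff₀ hb0 (by positivity)]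
    nlinarith [mul_pos hl' hl']
  refine ⟨sqrt_le_iff.2 ⟨hB.le, hJ⟩, le_sqrt_of_sq_le (by nlinarith), by nlinarith, by nlinarith,
    ?_, by nlinarith, ?_, h1, le_trans ?_ h1⟩
  · have : 2 * l' ≤ A * l' := by nlinarith
    nlinarith
  · rw [le_div_iff₀ hB]; linarith
  · gcongr; norm_num

theorem sq_le_quarter {u l : ℝ} (hu : 0 ≤ u) (h : u ≤ l / 4) : u ^ 2 ≤ l ^ 2 / 16 := by
  nlinarith

theorem chain {A Cg CH : ℝ} (hA : 2 ≤ A) (hCg : 1 ≤ Cg) (hCH : 1 ≤ CH) :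
    ∃ C ≥ (1 : ℝ), ∀ (ε : E → ℝ) (T : E → E →L[ℝ] E) (e : E → ℝ) (x₀ : E)
    (c μ σ κ κ₂ r B l l' : ℝ), Cell ε T e x₀ A Cg μ σ κ r l l' →
    Par (finrank ℝ E) c κ κ₂ r B l l' → 0 < c → A * c ≤ 1 / 4 → ∀ n : Fin 2 → E,
    Orthonormal ℝ n → l' ^ 2 * P (l' ^ 2) (tpar T n) x₀ ≤ CH * κ * σ →
    Hs ε T n (l' ^ 2 / 2) x₀ ≤ CH * κ * σ → ∀ J : ℕ, 2 ^ J * r ^ 2 ≤ B ^ 2 →
    B ^ 2 ≤ 2 * (2 ^ J * r ^ 2) → ∀ x : E, ‖x - x₀‖ < A * l → e x ≤ r / (B * Cg) →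
    16 * ‖Pn n (x - x₀)‖ ^ 2 ≤ 2 ^ J * r ^ 2 → Fs T n r J x ≤ r * σ → ∀ i,
    |mom ε n (-⟪n i, x - x₀⟫) (n i) (l' ^ 2 / 8) (2 ^ J * r ^ 2) (x - Pn n (x - x₀))| ≤
      C * r * σ := by
  obtain ⟨C₁, hC₁, H₁⟩ := phase1 (E := E)
  obtain ⟨C₂, hC₂, H₂⟩ := switch (E := E)
  obtain ⟨C₃, hC₃, H₃⟩ := time_step (E := E)
  obtain ⟨C₄, hC₄, H₄⟩ := Hs_shift (E := E)
  have h2h : (0 : ℝ) < 2 ^ hd E := by positivity
  set K : ℝ := 2 * (2 ^ hd E * exp (1 / 4) * 2 ^ hd E * CH) + 4 * (C₄ * CH) + 4 with hK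
  have hK0 : 0 < K := by positivity
  have hone : (1 : ℝ) ≤ C₁ * (Cg + 4) + C₂ * CH + 3 * C₃ * K := by
    have a1 : (1 : ℝ) ≤ C₁ * (Cg + 4) := one_le_mul_of_one_le_of_one_le hC₁ (by linarith)
    have a2 : 0 ≤ C₂ * CH := by positivity
    have a3 : 0 ≤ 3 * C₃ * K := by positivity
    linarith
  refine ⟨C₁ * (Cg + 4) + C₂ * CH + 3 * C₃ * K, hone,
    fun ε T e x₀ c μ σ κ κ₂ r B l l' h hp hc0 hc n hn hτ hH J hJ hJ' x hx he hq hF i => ?_⟩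
  have hr := h.r0
  have hσ := h.σ0
  have hκ := h.κ0
  obtain ⟨hB, hl, hl', hBl, hll, hκr, -, -, -⟩ := hp.basic hr hκ hc0
    (by linarith [mul_le_mul_of_nonneg_right hA hc0.le])
  set b : ℝ := 2 ^ J * r ^ 2 with hb
  have hb0 : 0 < b := by positivity
  have hsb0 : 0 < √b := sqrt_pos.2 hb0
  obtain ⟨hsb, hsb', hAl, hR, hR2, hB4, q1, q2, -⟩ :=
    len_facts hA hc hB hl hl' hBl hll hp.l_le hb0 hJ hJ'
  have hx4 : ‖x - x₀‖ ≤ l' / 4 := hx.le.trans hAl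
  have hrB : r / B ≤ 1 := (div_le_one hB).2 hp.r_le
  have hll2 : 0 < l' ^ 2 := by positivity
  have hBB : 0 < B ^ 2 := by positivity
  have hμ0 := h.st.μ0
  -- the moving cutoff
  have he' : e x ≤ 1 / Cg := he.trans (by
    rw [← div_div]
    gcongr)
  have heη : Cg * e x * σ ≤ r / B * σ := by
    have : Cg * e x ≤ r / B := by
      calc Cg * e x ≤ Cg * (r / (B * Cg)) := by gcongr
        _ = r / B := by field_simp
    gcongr
  have s1 := H₁ ε T x₀ _ μ h.st n hn i r (r / B * σ) (Cg * σ) J x hr (by linarith)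
    (by linarith) fun t ht ht' => by
      obtain ⟨a1, a2⟩ := h.calm x (by linarith) he' t ht ht'
      exact ⟨a1.trans heη, a2⟩
  have s1' : |mom ε n 0 (n i) b b x| ≤ C₁ * (Cg + 4) * r * σ := by
    refine s1.trans ?_
    have a1 : r * (Cg * σ + r / B * σ) ≤ (Cg + 1) * (r * σ) := by
      have : r / B * σ ≤ σ := mul_le_of_le_one_left hσ.le hrB
      calc _ ≤ r * (Cg * σ + σ) := by gcongr
        _ = _ := by ring
    have a2 : √b * (r / B * σ) ≤ r * σ := by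
      calc √b * (r / B * σ) ≤ B * (r / B * σ) := by gcongr
        _ = r * σ := by field_simp
    have a3 : √b * (μ * b) ≤ r * σ := by
      calc √b * (μ * b) ≤ l' * (μ * l' ^ 2) := by gcongr <;> linarith
        _ ≤ l' * (κ * σ) := mul_le_mul_of_nonneg_left h.μ_le hl'.le
        _ = κ * l' * σ := by ring
        _ ≤ r * σ := by gcongr
    have a4 : 0 < r * σ := by positivity
    calc _ ≤ C₁ * ((Cg + 4) * (r * σ)) := by
          refine mul_le_mul_of_nonneg_left ?_ (by linarith)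
          rw [mul_add √b]
          linarith
      _ = _ := by ring
  -- change of centre
  have hpow : (l' ^ 2 / 4 / b) ^ hd E ≤ (l' / B) ^ finrank ℝ E :=
    rpow_hd_le (by positivity) (by positivity) q2
  have hp2 : ∀ j : ℕ, j ≤ 4 → κ * ((l' / B) ^ finrank ℝ E * (l' / B) ^ j) * l' ≤ r := fun j hj => by
    refine le_trans ?_ hp.p2
    rw [← pow_add]
    gcongr
  have hxx : ‖x - x₀‖ ^ 2 ≤ l' ^ 2 / 4 := by linarith [sq_le_quarter (norm_nonneg _) hx4]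
  have s2 := H₂ ε T x₀ _ μ h.st n hn i b (l' ^ 2 / 4) x₀ x hb0 (by linarith) hxx hq
  rw [show 2 * (l' ^ 2 / 4) = l' ^ 2 / 2 by ring] at s2
  have s2' : |mom ε n 0 (n i) b b x - mom ε n (-⟪n i, x - x₀⟫) (n i) b b (x - Pn n (x - x₀))| ≤
      C₂ * CH * r * σ := by
    refine s2.trans ?_
    have a1 : l' ^ 2 / 4 / √b ≤ (l' / B) ^ 1 * l' := by
      rw [pow_one, div_le_iff₀ hsb0]
      calc l' ^ 2 / 4 ≤ l' / B * l' * (B / 2) := by field_simp; norm_num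
        _ ≤ _ := by gcongr
    have a2 := h.st.Hs_nonneg n (show 0 < l' ^ 2 / 2 by positivity) x₀
    calc _ ≤ C₂ * (l' / B) ^ finrank ℝ E * ((l' / B) ^ 1 * l') * (CH * κ * σ) := by gcongr
      _ = C₂ * CH * (κ * ((l' / B) ^ finrank ℝ E * (l' / B) ^ 1) * l') * σ := by ring
      _ ≤ _ := by gcongr; exact hp2 1 (by norm_num)
  -- the fixed cutoff
  set w : E := x - Pn n (x - x₀) with hw
  have hw0 : w - x₀ = (x - x₀) - Pn n (x - x₀) := by rw [hw]; abel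
  have hw1 : ‖w - x₀‖ ≤ l' / 4 := by rw [hw0]; exact (norm_par_le hn _).trans hx4
  have hw2 : ‖w - x₀‖ ^ 2 ≤ l' ^ 2 / 4 := by linarith [sq_le_quarter (norm_nonneg _) hw1]
  have hw3 : Pn n (w - x₀) = 0 := by rw [hw0]; exact Pn_par hn _
  have hα : |-⟪n i, x - x₀⟫| + 2 * ‖n i‖ * √(b + 0 * (l' ^ 2 / 8)) ≤ 3 * √b := by
    rw [abs_neg, hn.1 i, zero_mul, add_zero]
    have a1 := abs_inner_n_le hn i (x - x₀)
    have a2 : ‖Pn n (x - x₀)‖ ≤ √b := le_sqrt_of_sq_le (by linarith [sq_nonneg ‖Pn n (x - x₀)‖])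
    linarith
  have s3 := H₃ ε T x₀ _ μ h.st n hn (-⟪n i, x - x₀⟫) 0 b (l' ^ 2 / 8) b (l' ^ 2 / 4) (3 * √b)
    (n i) w (Pn_n hn i) hb0 (by linarith) hb0.le le_rfl zero_le_one (by linarith)
    (by linarith) (by linarith) (by linarith) (by linarith) hα
  simp only [zero_mul, add_zero] at s3
  have t1 : P (l' ^ 2 / 4) (tpar T n) w ≤
      2 ^ hd E * exp (1 / 4) * 2 ^ hd E * CH * (κ * σ / B ^ 2) := by
    have a0 := h.st.tpar_nonneg hn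
    have a1 := P_shift_le (h.st.bm_tpar n) a0 (A := 1) (show 0 < l' ^ 2 / 4 by positivity)
      (x := x₀) (x' := w) (by rw [norm_sub_rev]; linarith)
    have a2 := P_le_of_le_mul (h.st.bm_tpar n) a0 (c := 2) (s := l' ^ 2)
      (show 0 < 2 * (l' ^ 2 / 4) by positivity) (by linarith) (by linarith) x₀
    have a3 : P (l' ^ 2) (tpar T n) x₀ ≤ CH * (κ * σ / B ^ 2) := by
      have : P (l' ^ 2) (tpar T n) x₀ ≤ CH * κ * σ / l' ^ 2 := by
        rw [le_div_iff₀ (by positivity)]; linarith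
      refine this.trans ?_
      rw [mul_assoc, mul_div_assoc]
      gcongr
      linarith
    calc _ ≤ _ := a1
      _ ≤ 2 ^ hd E * exp (1 / 4) * (2 ^ hd E * (CH * (κ * σ / B ^ 2))) := by
        gcongr
        exact a2.trans (by gcongr)
      _ = _ := by ring
  have t2 : Hs ε T n (l' ^ 2 / 4) w ≤ C₄ * CH * (κ * σ) := by
    have := H₄ ε T x₀ _ μ h.st n hn (l' ^ 2 / 4) x₀ w (by positivity) hw3 hw2
    rw [show 2 * (l' ^ 2 / 4) = l' ^ 2 / 2 by ring] at this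
    calc _ ≤ _ := this
      _ ≤ C₄ * (CH * κ * σ) := by gcongr
      _ = _ := by ring
  have t3 : μ ≤ κ * σ / B ^ 2 := by
    rw [le_div_iff₀ (by positivity)]
    refine le_trans ?_ h.μ_le
    gcongr
    linarith
  have t4 : 1 / b ≤ 2 / B ^ 2 := by
    rw [div_le_div_iff₀ hb0 (by positivity)]; linarith
  have t5 : P (l' ^ 2 / 4) (tpar T n) w / b + Hs ε T n (l' ^ 2 / 4) w / b ^ 2 +
      μ * (1 / b + 1 / b) ≤ K * (κ * σ / B ^ 4) := by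
    have e1 : P (l' ^ 2 / 4) (tpar T n) w / b = P (l' ^ 2 / 4) (tpar T n) w * (1 / b) := by ring
    have e2 : Hs ε T n (l' ^ 2 / 4) w / b ^ 2 = Hs ε T n (l' ^ 2 / 4) w * (1 / b) ^ 2 := by
      field_simp
    rw [e1, e2]
    calc _ ≤ 2 ^ hd E * exp (1 / 4) * 2 ^ hd E * CH * (κ * σ / B ^ 2) * (2 / B ^ 2) +
          C₄ * CH * (κ * σ) * (2 / B ^ 2) ^ 2 + κ * σ / B ^ 2 * (2 / B ^ 2 + 2 / B ^ 2) := by
          gcongr
      _ = _ := by rw [hK]; field_simp; ring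
  have s3' : |mom ε n (-⟪n i, x - x₀⟫) (n i) (l' ^ 2 / 8) b w -
      mom ε n (-⟪n i, x - x₀⟫) (n i) b b w| ≤ 3 * C₃ * K * r * σ := by
    refine s3.trans ?_
    have a0 : 0 ≤ P (l' ^ 2 / 4) (tpar T n) w / b + Hs ε T n (l' ^ 2 / 4) w / b ^ 2 +
        μ * (1 / b + 1 / b) := by
      have := P_nonneg (show 0 ≤ l' ^ 2 / 4 by positivity) (h.st.tpar_nonneg hn) w
      have := h.st.Hs_nonneg n (show 0 < l' ^ 2 / 4 by positivity) w
      positivity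
    have a1 : l' ^ 2 / 8 - b ≤ l' ^ 2 := by linarith
    have a2 : 0 ≤ l' ^ 2 / 8 - b := by linarith
    have a3 : l' ^ 2 / 4 ≤ l' ^ 2 := by linarith
    calc _ ≤ C₃ * (3 * B) * l' ^ 2 * (l' / B) ^ finrank ℝ E * l' ^ 2 * (K * (κ * σ / B ^ 4)) := by
          gcongr
      _ = 3 * C₃ * K * (κ * ((l' / B) ^ finrank ℝ E * (l' / B) ^ 3) * l') * σ := by
          field_simp
      _ ≤ _ := by gcongr; exact hp2 3 (by norm_num)
  have := abs_le.1 s1'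
  have := abs_le.1 s2'
  have := abs_le.1 s3'
  rw [abs_le, show (C₁ * (Cg + 4) + C₂ * CH + 3 * C₃ * K) * r * σ =
    C₁ * (Cg + 4) * r * σ + C₂ * CH * r * σ + 3 * C₃ * K * r * σ by ring]
  constructor <;> linarith

end Pool.Agent.Lib.MP_8daebb_an.G6
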