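import Pool.Agent.Lib.MP_8daebb_an.G6.Chain

/-! Good points lie close to an affine plane. -/

open MeasureTheory Metric Set Module Real
open scoped RealInnerProductSpace

namespace Pool.Agent.Lib.MP_8daebb_an.G6

open AS HK

variable {E : Type*} [NormedAddCommGroup E] [InnerProductSpace ℝ E] [FiniteDimensional ℝ E]
  [MeasurableSpace E] [BorelSpace E]

theorem small_core {K u s : ℝ} (hK : 1 ≤ K) (hu : 0 ≤ u) (h : u ≤ s) :
    K * u ^ 2 ≤ (K * s) ^ 2 ∧ u ^ 2 ≤ (K * s) ^ 2 ∧ K * u ≤ K * s ∧ u ≤ K * s := by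
  have hs : 0 ≤ s := hu.trans h
  have h1 : u ^ 2 ≤ s ^ 2 := by gcongr
  have h2 : s ≤ K * s := le_mul_of_one_le_left hs hK
  have h3 : K * s ^ 2 ≤ (K * s) ^ 2 := by nlinarith [mul_nonneg (sub_nonneg.2 hK) (sq_nonneg s)]
  have h4 : K * u ^ 2 ≤ K * s ^ 2 := by gcongr
  have h5 : u ^ 2 ≤ K * u ^ 2 := le_mul_of_one_le_left (sq_nonneg u) hK
  exact ⟨h4.trans h3, h5.trans (h4.trans h3), by gcongr, h.trans h2⟩

theorem sqrt_core {l' : ℝ} (hl' : 0 < l') : l' / 3 ≤ √(l' ^ 2 / 8) :=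
  le_sqrt_of_sq_le (by nlinarith [mul_pos hl' hl'])

theorem err_core {K A C₈ W κ r l l' σ : ℝ} (hK : 0 ≤ K) (hA : 0 ≤ A) (hC : 0 ≤ C₈) (hW : 0 ≤ W)
    (hκ : 0 ≤ κ) (hr : 0 < r) (hl : 0 < l) (hl' : 0 < l') (hσ : 0 < σ)
    (h : κ * l ^ 4 ≤ r ^ 2 * l' ^ 2) :
    (K * (A * l / √(l' ^ 2 / 8))) ^ 2 * (C₈ * (√(W * κ) * √(l' ^ 2 / 8) * (17 * σ))) / σ ≤
      51 * K ^ 2 * A ^ 2 * C₈ * √W * r := by
  have h3 := sqrt_core hl'
  have hs : 0 < √(l' ^ 2 / 8) := sqrt_pos.2 (by positivity)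
  have h1 : √κ * l ^ 2 ≤ r * l' := by
    refine le_of_sq_le_sq ?_ (by positivity)
    rw [mul_pow, sq_sqrt hκ]
    nlinarith
  rw [sqrt_mul hW]
  calc _ = 17 * K ^ 2 * A ^ 2 * C₈ * √W * (√κ * l ^ 2 / √(l' ^ 2 / 8)) := by field_simp
    _ ≤ 17 * K ^ 2 * A ^ 2 * C₈ * √W * (r * l' / (l' / 3)) := by gcongr
    _ = _ := by field_simp; ring

theorem core_pt {A Cg CH : ℝ} (hA : 2 ≤ A) (hCg : 1 ≤ Cg) (hCH : 1 ≤ CH) :
    ∃ c₀ > (0 : ℝ), ∃ C ≥ (1 : ℝ), ∀ (ε : E → ℝ) (T : E → E →L[ℝ] E) (e : E → ℝ) (x₀ : E)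
    (c μ σ κ κ₂ r B l l' : ℝ), Cell ε T e x₀ A Cg μ σ κ r l l' →
    Par (finrank ℝ E) c κ κ₂ r B l l' → 0 < c → c ≤ c₀ → ∀ n : Fin 2 → E,
    Orthonormal ℝ n → l' ^ 2 * P (l' ^ 2) (tpar T n) x₀ ≤ CH * κ * σ →
    Hs ε T n (l' ^ 2 / 2) x₀ ≤ CH * κ * σ → ∀ J : ℕ, 2 ^ J * r ^ 2 ≤ B ^ 2 →
    B ^ 2 ≤ 2 * (2 ^ J * r ^ 2) → ∃ (a : Fin 2 → E) (γ : Fin 2 → ℝ), (∀ i, Pn n (a i) = 0) ∧
    ∀ x : E, ‖x - x₀‖ < A * l → e x ≤ r / (B * Cg) →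
    16 * ‖Pn n (x - x₀)‖ ^ 2 ≤ 2 ^ J * r ^ 2 → Fs T n r J x ≤ r * σ → ∀ i,
    |⟪n i - a i, x - x₀⟫ - γ i| ≤ C * r := by
  obtain ⟨C₄, hC₄, H₄⟩ := Hs_shift (E := E)
  obtain ⟨C₅, hC₅, H₅⟩ := chain (E := E) hA hCg hCH
  obtain ⟨C₆, hC₆, H₆⟩ := mom_lower (E := E)
  obtain ⟨C₇, hC₇, H₇⟩ := expand_zero (E := E)
  obtain ⟨C₈, hC₈, H₈⟩ := expand_one (E := E)
  have hA0 : 0 < A := by linarith
  set M : ℝ := 4 * A + Cg + C₆ * (C₄ * (C₄ * CH) + Cg) + 204 * C₇ * A with hM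
  have m1 : 0 < C₆ * (C₄ * (C₄ * CH) + Cg) := by positivity
  have m2 : 0 < 204 * C₇ * A := by positivity
  have hM0 : 0 < M := by positivity
  have hCC : 0 ≤ 51 * (17 * C₇) ^ 2 * A ^ 2 * C₈ * √(C₄ * CH) := by positivity
  refine ⟨1 / M, by positivity, 10 * (C₅ + 51 * (17 * C₇) ^ 2 * A ^ 2 * C₈ * √(C₄ * CH)),
    by linarith, fun ε T e x₀ c μ σ κ κ₂ r B l l' h hp hc0 hc n hn hτ hH J hJ hJ' => ?_⟩
  have hcM : ∀ {X : ℝ}, X ≤ M → X * c ≤ 1 := fun {X} hX => by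
    calc X * c ≤ M * c := by gcongr
      _ ≤ M * (1 / M) := by gcongr
      _ = 1 := by field_simp
  have c1 : A * c ≤ 1 / 4 := by linarith [hcM (X := 4 * A) (by linarith)]
  have c2 : Cg * c ≤ 1 := hcM (by linarith)
  have c3 : C₆ * (C₄ * (C₄ * CH) + Cg) * c ≤ 1 := hcM (by linarith)
  have c4 : 204 * C₇ * A * c ≤ 1 := hcM (by linarith)
  have hr := h.r0
  have hσ := h.σ0
  have hκ := h.κ0
  obtain ⟨hB, hl, hl', hBl, hll, -, hκ1, -, hκ2⟩ := hp.basic hr hκ hc0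
    (by linarith [mul_le_mul_of_nonneg_right hA hc0.le])
  have hκc : κ ≤ c := hκ2.trans hp.small
  set b : ℝ := 2 ^ J * r ^ 2 with hb
  have hb0 : 0 < b := by positivity
  obtain ⟨-, -, hAl, hR, hR2, hB4, -, -, q3⟩ :=
    len_facts hA c1 hB hl hl' hBl hll hp.l_le hb0 hJ hJ'
  have hll2 : 0 < l' ^ 2 := by positivity
  have hrB : r ^ 2 ≤ B ^ 2 := by gcongr; exact hp.r_le
  have hCκ : Cg * κ ≤ 1 := le_trans (by gcongr) c2
  have he0 : e x₀ ≤ 1 / Cg := h.e_base.trans (by rw [le_div_iff₀ (by positivity)]; linarith)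
  have hβ : ∀ t, r ^ 2 ≤ t → t ≤ (A * l') ^ 2 →
      t * P t (fun y => |bet ε T y|) x₀ ≤ Cg * κ * σ := fun t ht ht' => by
    have a1 := (h.calm x₀ (by simp; positivity) he0 t ht ht').1
    have a2 := h.st.rad_nonneg (lt_of_lt_of_le (by positivity) ht) x₀
    have a3 : Cg * e x₀ * σ ≤ Cg * κ * σ := by gcongr; exact h.e_base
    linarith
  set t : ℝ := l' ^ 2 / 8 with ht
  have ht0 : 0 < t := by positivity
  have hst : 0 < √t := sqrt_pos.2 ht0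
  have hbt : b ≤ t := by linarith
  have hD : 2 * t * P (2 * t) (tau T) x₀ + 2 * t * P (2 * t) (fun y => |bet ε T y|) x₀ ≤ 17 * σ := by
    have a1 := (h.base (2 * t) (by linarith) (by linarith)).2
    have a2 := hβ (2 * t) (by linarith) (by linarith)
    have a3 : Cg * κ * σ ≤ σ := mul_le_of_le_one_left hσ.le hCκ
    linarith
  have hH2 : Hs ε T n (2 * t) x₀ ≤ C₄ * CH * κ * σ := by
    have := H₄ ε T x₀ _ μ h.st n hn (2 * t) x₀ x₀ (by positivity) (by simp) (by simp; positivity)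
    rw [show 2 * (2 * t) = l' ^ 2 / 2 by rw [ht]; ring] at this
    calc _ ≤ _ := this
      _ ≤ C₄ * (CH * κ * σ) := by gcongr
      _ = _ := by ring
  have hH1 : Hs ε T n t x₀ ≤ C₄ * (C₄ * CH) * κ * σ := by
    calc _ ≤ _ := H₄ ε T x₀ _ μ h.st n hn t x₀ x₀ ht0 (by simp) (by simp; positivity)
      _ ≤ C₄ * (C₄ * CH * κ * σ) := by gcongr
      _ = _ := by ring
  have hmb : σ ≤ mom ε n 1 0 t b x₀ := by
    refine le_trans ?_ (H₆ ε T x₀ _ μ h.st n hn t b x₀ hb0 hbt)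
    have a1 := (h.base t (by linarith) (by linarith)).1
    have a2 := hβ t (by linarith) (by linarith)
    have a3 : t / b * Hs ε T n t x₀ ≤ C₄ * (C₄ * CH) * c * σ := by
      have := h.st.Hs_nonneg n ht0 x₀
      calc _ ≤ (l' / B) ^ 2 * (C₄ * (C₄ * CH) * κ * σ) := by gcongr
        _ = C₄ * (C₄ * CH) * (κ * (l' / B) ^ 2) * σ := by ring
        _ ≤ _ := by gcongr; exact hκ1.trans hp.small
    have a4 : Cg * κ * σ ≤ Cg * c * σ := by gcongr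
    have a5 : C₆ * (t / b * Hs ε T n t x₀ + t * P t (fun y => |bet ε T y|) x₀) ≤ σ := by
      calc _ ≤ C₆ * (C₄ * (C₄ * CH) * c * σ + Cg * c * σ) :=
            mul_le_mul_of_nonneg_left (by linarith) (by linarith)
        _ = C₆ * (C₄ * (C₄ * CH) + Cg) * c * σ := by ring
        _ ≤ σ := mul_le_of_le_one_left hσ.le c3
    have a6 : 2 * σ ≤ 2 * π * (t * P t (tau T) x₀) := by
      calc 2 * σ = 2 * 1 * σ := by ring
        _ ≤ _ := by gcongr; linarith [pi_gt_three]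
    linarith
  have hlam : 0 < √(C₄ * CH * κ) := sqrt_pos.2 (by positivity)
  have hH3 : Hs ε T n (2 * t) x₀ ≤ √(C₄ * CH * κ) ^ 2 * (17 * σ) := by
    rw [sq_sqrt (by positivity)]
    refine hH2.trans ?_
    gcongr
    linarith
  obtain ⟨a₀, ha₀, na₀, ta₀⟩ := H₇ ε T x₀ _ μ h.st n hn t b (17 * σ) x₀ hb0 hbt hD
  choose a₁ ha₁ na₁ ca₁ ta₁ using fun i => H₈ ε T x₀ _ μ h.st n hn i t b (17 * σ)
    (√(C₄ * CH * κ)) x₀ hb0 hbt hlam hD hH3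
  set mb := mom ε n 1 0 t b x₀ with hmbd
  have hmb0 : 0 < mb := hσ.trans_le hmb
  refine ⟨fun i => (1 / mb) • (a₁ i - (mom ε n 0 (n i) t b x₀ / mb) • a₀),
    fun i => mom ε n 0 (n i) t b x₀ / mb, fun i => by simp [ha₀, ha₁ i],
    fun x hx he hq hF i => ?_⟩
  have hch := H₅ ε T e x₀ c μ σ κ κ₂ r B l l' h hp hc0 c1 n hn hτ hH J hJ hJ' x hx he hq hF i
  set v : E := (x - x₀) - Pn n (x - x₀) with hv
  have hw : x - Pn n (x - x₀) = x₀ + v := by rw [hv]; abel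
  have hv0 : Pn n v = 0 := Pn_par hn _
  have hv1 : ‖v‖ ≤ A * l := (norm_par_le hn _).trans hx.le
  have hv2 : ‖v‖ ^ 2 ≤ t := by linarith [sq_le_quarter (norm_nonneg v) (hv1.trans hAl)]
  rw [hw, mom_lin h.st.bε hn _ (Pn_n hn i) ht0 hb0] at hch
  have hin : ∀ a : E, Pn n a = 0 → ⟪a, x - x₀⟫ = ⟪a, v⟫ := fun a ha => by
    rw [hv, inner_sub_right a (x - x₀), inner_Pn_of_Pn_eq_zero ha, sub_zero]
  set ζ : ℝ := C₈ * (√(C₄ * CH * κ) * √t * (17 * σ)) with hζ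
  have hζ0 : 0 ≤ ζ := by positivity
  obtain ⟨k1, k2, k3, k4⟩ := small_core (K := 17 * C₇) (u := ‖v‖ / √t) (s := A * l / √t)
    (by linarith) (by positivity) (by gcongr)
  have hu : ‖v‖ ^ 2 / t = (‖v‖ / √t) ^ 2 := by rw [div_pow, sq_sqrt ht0.le]
  have hδ : 17 * C₇ * (A * l / √t) ≤ 1 / 4 := by
    have a1 := sqrt_core hl'
    calc 17 * C₇ * (A * l / √t) ≤ 17 * C₇ * (A * (c * l') / (l' / 3)) := by
          gcongr; exact hp.l_le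
      _ = 204 * C₇ * A * c / 4 := by field_simp; norm_num
      _ ≤ _ := by linarith
  have key := alg_core (σ := σ) (ζ := ζ) (ρ := C₅ * r) (δ := 17 * C₇ * (A * l / √t)) (mb := mb)
    (m₀ := mom ε n 1 0 t b (x₀ + v)) (u₀ := ⟪a₀, v⟫) (m₁ := mom ε n 0 (n i) t b (x₀ + v))
    (c₁ := mom ε n 0 (n i) t b x₀) (u₁ := ⟪a₁ i, v⟫) (ξ := ⟪n i, x - x₀⟫) hσ hζ0 (by positivity)
    (by positivity) hδ hmb
    ((ta₀ v hv0 hv2).trans (by
      rw [hu]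
      calc _ = 17 * C₇ * (‖v‖ / √t) ^ 2 * σ := by ring
        _ ≤ _ := by gcongr))
    ((abs_real_inner_le_norm _ _).trans (by
      calc ‖a₀‖ * ‖v‖ ≤ C₇ * (17 * σ) / √t * ‖v‖ := by gcongr
        _ = 17 * C₇ * (‖v‖ / √t) * σ := by ring
        _ ≤ _ := by gcongr))
    ((ta₁ i v hv0 hv2).trans (by
      rw [hu]
      calc _ = (‖v‖ / √t) ^ 2 * ζ := by rw [hζ]; ring
        _ ≤ _ := by gcongr))
    (ca₁ i)
    ((abs_real_inner_le_norm _ _).trans (by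
      calc ‖a₁ i‖ * ‖v‖ ≤ ζ / √t * ‖v‖ := by gcongr; exact na₁ i
        _ = ‖v‖ / √t * ζ := by ring
        _ ≤ _ := by gcongr))
    (by rw [show mom ε n 0 (n i) t b (x₀ + v) - ⟪n i, x - x₀⟫ * mom ε n 1 0 t b (x₀ + v) =
      -⟪n i, x - x₀⟫ * mom ε n 1 0 t b (x₀ + v) + mom ε n 0 (n i) t b (x₀ + v) by ring]; exact hch)
  have e1 : ⟪n i - (1 / mb) • (a₁ i - (mom ε n 0 (n i) t b x₀ / mb) • a₀), x - x₀⟫ -
      mom ε n 0 (n i) t b x₀ / mb = ⟪n i, x - x₀⟫ - (mom ε n 0 (n i) t b x₀ + ⟪a₁ i, v⟫ -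
        mom ε n 0 (n i) t b x₀ / mb * ⟪a₀, v⟫) / mb := by
    rw [inner_sub_left, real_inner_smul_left, inner_sub_left, real_inner_smul_left, hin _ ha₀,
      hin _ (ha₁ i)]
    ring
  rw [e1]
  refine key.trans ?_
  have := err_core (K := 17 * C₇) (A := A) (C₈ := C₈) (W := C₄ * CH) (by positivity) hA0.le
    (by positivity) (by positivity) hκ.le hr hl hl' hσ hp.p3
  linarith

end Pool.Agent.Lib.MP_8daebb_an.G6
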