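import Pool.Agent.Lib.MP_8daebb_an.G6.Ker

/-! The test field: derivative, pairing with a stress, bounds. -/

open MeasureTheory Metric Set Module Real
open scoped RealInnerProductSpace

namespace Pool.Agent.Lib.MP_8daebb_an.G6

open AS HK

variable {E : Type*} [NormedAddCommGroup E] [InnerProductSpace ℝ E] [FiniteDimensional ℝ E]
  [MeasurableSpace E] [BorelSpace E]

variable {n : Fin 2 → E}

theorem hasFDerivAt_Yk (hn : Orthonormal ℝ n) (α : ℝ) (ν : E) {t : ℝ} (ht : 0 < t) (b : ℝ)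
    (z : E) :
    HasFDerivAt (Yk n α ν t b)
      ((-(chi (‖Pn n z‖ ^ 2 / b) * gk n t z)) •
        (((α + ⟪ν, z⟫) / (2 * t)) • (ContinuousLinearMap.id ℝ E - Pn n) +
          ((1 / (2 * t)) • innerSL ℝ ν).smulRight (z - Pn n z)) +
      ((chi (‖Pn n z‖ ^ 2 / b) * gk n t z / (2 * t)) • innerSL ℝ (z - Pn n z) -
        (gk n t z * (2 * deriv chi (‖Pn n z‖ ^ 2 / b) / b)) • innerSL ℝ (Pn n z)).smulRight
        (((α + ⟪ν, z⟫) / (2 * t)) • (z - Pn n z) + ν)) z := by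
  have h1 : HasFDerivAt (fun y => -(chi (‖Pn n y‖ ^ 2 / b) * gk n t y))
      ((chi (‖Pn n z‖ ^ 2 / b) * gk n t z / (2 * t)) • innerSL ℝ (z - Pn n z) -
        (gk n t z * (2 * deriv chi (‖Pn n z‖ ^ 2 / b) / b)) • innerSL ℝ (Pn n z)) z := by
    refine ((hasFDerivAt_chi hn b z).mul (hasFDerivAt_gk hn ht z)).neg.congr_fderiv ?_
    ext v
    simp only [neg_apply, add_apply, sub_apply, smul_apply, smul_eq_mul]
    ring
  have h2 : HasFDerivAt (fun y : E => (α + ⟪ν, y⟫) / (2 * t)) ((1 / (2 * t)) • innerSL ℝ ν) z := by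
    have := (((innerSL ℝ ν).hasFDerivAt (x := z)).const_add α).const_mul (1 / (2 * t))
    refine this.congr_of_eventuallyEq (Filter.Eventually.of_forall fun y => ?_)
    simp only [innerSL_apply_apply]
    ring
  have h3 : HasFDerivAt (fun y : E => y - Pn n y) (ContinuousLinearMap.id ℝ E - Pn n) z :=
    (hasFDerivAt_id z).sub (Pn n).hasFDerivAt
  exact h1.smul ((h2.smul h3).add_const ν)

/-- The exact value of the pairing. -/
theorem pair_Yk (hn : Orthonormal ℝ n) (α : ℝ) {ν : E} (hν : Pn n ν = ν) {t : ℝ} (ht : 0 < t)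
    (b : ℝ) (z : E) (ε : ℝ) {A : E →L[ℝ] E} (hA : Psd A) :
    pair ε A (fderiv ℝ (Yk n α ν t b) z) =
      ε * ((α + ⟪ν, z⟫) * gk n t z * (‖z - Pn n z‖ ^ 2 / (4 * t ^ 2) - (hd E - 1) / t) *
        chi (‖Pn n z‖ ^ 2 / b)) +
      gk n t z * (2 * deriv chi (‖Pn n z‖ ^ 2 / b) / b) *
        (⟪A ν, Pn n z⟫ - ε * ⟪ν, z⟫ + (α + ⟪ν, z⟫) / (2 * t) * ⟪A (z - Pn n z), Pn n z⟫) +
      chi (‖Pn n z‖ ^ 2 / b) * gk n t z * ((α + ⟪ν, z⟫) / (2 * t)) *
        ((tr A - ∑ i, ⟪A (n i), n i⟫) - ⟪A (z - Pn n z), z - Pn n z⟫ / (2 * t)) := by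
  have e0 : pair ε A (ContinuousLinearMap.id ℝ E - Pn n) =
      ε * (2 * hd E - 2) - (tr A - ∑ i, ⟪A (n i), n i⟫) := by
    rw [pair, tr_sub, tr_id, tr_Pn hn, ContinuousLinearMap.comp_sub, tr_sub,
      ContinuousLinearMap.comp_id, tr_comp_Pn, hd]
    push_cast
    ring
  have e1 : ⟪z - Pn n z, ν⟫ = 0 := by
    rw [← hν]; exact inner_Pn_of_Pn_eq_zero (Pn_par hn z) ν
  have e1' : ⟪ν, z - Pn n z⟫ = 0 := by rw [real_inner_comm, e1]
  have e2 : ⟪Pn n z, z - Pn n z⟫ = 0 := by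
    rw [real_inner_comm]; exact inner_Pn_of_Pn_eq_zero (Pn_par hn z) z
  have e3 : ⟪Pn n z, ν⟫ = ⟪ν, z⟫ := by rw [Pn_symm, hν, real_inner_comm]
  have e4 : ⟪ν, A (z - Pn n z)⟫ = ⟪z - Pn n z, A ν⟫ := by
    rw [← hA.symm, real_inner_comm]
  rw [(hasFDerivAt_Yk hn α ν ht b z).fderiv, pair_add, pair_smul, pair_add, pair_smul, e0,
    pair_smulRight, pair_smulRight]
  generalize z - Pn n z = p at *
  generalize Pn n z = q at *
  simp only [sub_apply, smul_apply, smul_eq_mul,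
    innerSL_apply_apply, map_add, map_smul, e1, e1', e2, e3, e4,
    real_inner_self_eq_norm_sq, real_inner_comm q (A ν), real_inner_comm q (A p),
    real_inner_comm p (A p)]
  field_simp
  ring

theorem gk_two_fld (hn : Orthonormal ℝ n) {t S : ℝ} (ht : 0 < t) (hS : 2 * t ≤ S) {z : E}
    (hz : ‖Pn n z‖ ^ 2 ≤ 4 * S) :
    (1 + ‖z - Pn n z‖ ^ 2 / t) * gk n t z ≤ 20 * π * exp 1 * ((S / t) ^ hd E * S * G S z) := by
  have hS0 : 0 < S := by linarith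
  have e : (S / t) ^ hd E = 2 ^ hd E * (S / (2 * t)) ^ hd E := by
    rw [← mul_rpow (by norm_num) (by positivity)]
    congr 1
    field_simp
  refine (gk_le_two n ht z).trans ((mul_le_mul_of_nonneg_left
    (gk_le hn (by positivity) hS hz) (by positivity)).trans (le_of_eq ?_))
  rw [e]; ring

theorem one_le_fld {D : ℝ} (hD : 1 ≤ D) : 1 ≤ 80 * π * exp 1 * D := by
  have h1 : 1 ≤ exp 1 := one_le_exp zero_le_one
  have h2 : 1 ≤ π * exp 1 := one_le_mul_of_one_le_of_one_le (by linarith [pi_gt_three]) h1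
  nlinarith

theorem far_fld {s b : ℝ} (hb : 0 < b) (h : 4 * b < s) : chi (s / b) = 0 ∧ deriv chi (s / b) = 0 := by
  have h4 : 4 < s / b := by rwa [lt_div_iff₀ hb]
  exact ⟨chi_zero h4.le, by by_contra h0; linarith [(deriv_chi_supp h0).2]⟩

/-- The scalar inequality behind the bound for the pairing. -/
theorem scal_fld {ε w θ t b Λ D c c' τ tp p2 q2 x1 x2 x3 x4 : ℝ} (ht : 0 < t) (hb : 0 < b)
    (hθ0 : 0 ≤ θ) (hθ1 : θ ≤ 1) (hw : |w| ≤ Λ) (hD : 1 ≤ D) (hc0 : 0 ≤ c) (hc1 : c ≤ 1)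
    (hc' : |c'| ≤ D) (hτ : 0 ≤ τ) (htp : 0 ≤ tp) (hp : 0 ≤ p2) (hq : 0 ≤ q2)
    (h1 : c' ≠ 0 → |x1| ≤ τ * (Λ * q2 / (2 * b))) (h2 : c' ≠ 0 → |x2| ≤ Λ * q2 / (2 * b))
    (h3 : |x3| ≤ b / (2 * t) * (tp * p2) + τ * q2 / (4 * (b / (2 * t))))
    (h40 : 0 ≤ x4) (h4 : x4 ≤ tp * p2) :
    |ε * w * (θ * (q2 / b ^ 2) * c') + 2 * c' / b * (x1 - ε * x2 + w / (2 * t) * x3) +
      c * (w / (2 * t)) * (tp - x4 / (2 * t))| ≤
      4 * D * Λ * ((1 + p2 / t) * (tp / t + q2 * (τ + |2 * ε - τ|) / b ^ 2)) := by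
  have hΛ : 0 ≤ Λ := (abs_nonneg w).trans hw
  set e := τ + |2 * ε - τ| with he
  have e0 : τ ≤ e := by linarith [abs_nonneg (2 * ε - τ)]
  have e1 : |ε| ≤ e / 2 := by
    rw [abs_le]; constructor <;> linarith [le_abs_self (2 * ε - τ), neg_abs_le (2 * ε - τ)]
  have e2 : 0 ≤ e := hτ.trans e0
  set U := tp / t with hU
  set V := q2 * e / b ^ 2 with hV
  set X := p2 / t with hX
  have U0 : 0 ≤ U := by positivity
  have V0 : 0 ≤ V := by positivity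
  have X0 : 0 ≤ X := by positivity
  have t1 : |ε * w * (θ * (q2 / b ^ 2) * c')| ≤ D * Λ * V / 2 := by
    rw [abs_mul, abs_mul, abs_mul, abs_of_nonneg (by positivity : 0 ≤ θ * (q2 / b ^ 2))]
    calc |ε| * |w| * (θ * (q2 / b ^ 2) * |c'|) ≤ e / 2 * Λ * (1 * (q2 / b ^ 2) * D) := by gcongr
      _ = _ := by rw [hV]; ring
  have t2 : |2 * c' / b * (x1 - ε * x2 + w / (2 * t) * x3)| ≤ D * Λ * (2 * V + X * U / 2) := by
    by_cases h0 : c' = 0
    · rw [h0]; simp only [mul_zero, zero_div, zero_mul, abs_zero]; positivity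
    have a1 : |x1 - ε * x2 + w / (2 * t) * x3| ≤ e * (Λ * q2 / (2 * b)) + e / 2 * (Λ * q2 / (2 * b)) +
        Λ / (2 * t) * (b / (2 * t) * (tp * p2) + e * q2 / (4 * (b / (2 * t)))) := by
      refine (abs_add_le _ _).trans (add_le_add ((abs_sub _ _).trans (add_le_add ?_ ?_)) ?_)
      · exact (h1 h0).trans (by gcongr)
      · rw [abs_mul]; exact mul_le_mul e1 (h2 h0) (abs_nonneg _) (by positivity)
      · rw [abs_mul, abs_div, abs_of_pos (by positivity : 0 < 2 * t)]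
        exact mul_le_mul (by gcongr) (h3.trans (by gcongr)) (abs_nonneg _) (by positivity)
    rw [abs_mul, abs_div, abs_mul, abs_two, abs_of_pos hb]
    refine (mul_le_mul (by gcongr : 2 * |c'| / b ≤ 2 * D / b) a1 (abs_nonneg _)
      (by positivity)).trans (le_of_eq ?_)
    rw [hV, hX, hU]
    field_simp
    ring
  have t3 : |c * (w / (2 * t)) * (tp - x4 / (2 * t))| ≤ Λ * (U / 2 + X * U / 4) := by
    have a1 : |tp - x4 / (2 * t)| ≤ tp + tp * p2 / (2 * t) := by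
      refine (abs_sub _ _).trans ?_
      rw [abs_of_nonneg htp, abs_of_nonneg (by positivity)]
      gcongr
    rw [abs_mul, abs_mul, abs_of_nonneg hc0, abs_div, abs_of_pos (by positivity : 0 < 2 * t)]
    calc c * (|w| / (2 * t)) * |tp - x4 / (2 * t)|
        ≤ 1 * (Λ / (2 * t)) * (tp + tp * p2 / (2 * t)) := by gcongr
      _ = _ := by rw [hX, hU]; field_simp; ring
  refine (abs_add_three _ _ _).trans ?_
  have m1 : Λ * (U / 2 + X * U / 4) ≤ D * (Λ * (U / 2 + X * U / 4)) :=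
    le_mul_of_one_le_left (by positivity) hD
  have D0 : 0 ≤ D * Λ := by positivity
  nlinarith [mul_nonneg D0 U0, mul_nonneg D0 V0, mul_nonneg D0 (mul_nonneg X0 U0),
    mul_nonneg D0 (mul_nonneg X0 V0)]

theorem pair_Yk_le : ∃ C ≥ (1 : ℝ), ∀ n : Fin 2 → E, Orthonormal ℝ n →
    ∀ (α θ t b S Λ : ℝ) (ν : E), Pn n ν = ν → 0 < t → 0 < b → 2 * t ≤ S → b ≤ S → 0 ≤ θ → θ ≤ 1 →
    |α| + 2 * ‖ν‖ * √b ≤ Λ → ∀ (z : E) (ε : ℝ) (A : E →L[ℝ] E), Psd A →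
    |ε * dK n α ν θ t b z - pair ε A (fderiv ℝ (Yk n α ν t b) z)| ≤
      C * Λ * (S / t) ^ hd E * S * (G S z * ((tr A - ∑ i, ⟪A (n i), n i⟫) / t +
        ‖Pn n z‖ ^ 2 * (tr A + |2 * ε - tr A|) / b ^ 2)) := by
  obtain ⟨D, hD, hD'⟩ := deriv_chi_le
  refine ⟨80 * π * exp 1 * D, one_le_fld hD, ?_⟩
  intro n hn α θ t b S Λ ν hν ht hb hS hbS hθ0 hθ1 hΛ z ε A hA
  have hS0 : 0 < S := by linarith
  have hΛ0 : 0 ≤ Λ := le_trans (by positivity) hΛ
  have hτ := hA.tr_nonneg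
  have htp := hA.par_nonneg hn
  have hG := G_pos hS0 z
  have hg := gk_pos n ht z
  have hW : 0 ≤ (tr A - ∑ i, ⟪A (n i), n i⟫) / t +
      ‖Pn n z‖ ^ 2 * (tr A + |2 * ε - tr A|) / b ^ 2 := by positivity
  rw [pair_Yk hn α hν ht b z ε hA, dK]
  by_cases hq : 4 * b < ‖Pn n z‖ ^ 2
  · rw [(far_fld hb hq).1, (far_fld hb hq).2]
    simp only [mul_zero, zero_div, zero_mul, add_zero, sub_zero, abs_zero]
    positivity
  rw [not_lt] at hq
  have hν' : deriv chi (‖Pn n z‖ ^ 2 / b) ≠ 0 → ‖ν‖ * ‖Pn n z‖ ≤ Λ * ‖Pn n z‖ ^ 2 / (2 * b) := by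
    intro h0
    have h1 := (deriv_chi_supp h0).1
    rw [le_div_iff₀ hb, one_mul] at h1
    have h2 : √b ≤ ‖Pn n z‖ := sqrt_le_iff.2 ⟨norm_nonneg _, h1⟩
    have h3 : 2 * ‖ν‖ * √b ≤ Λ := by linarith [abs_nonneg α]
    rw [le_div_iff₀ (by positivity)]
    calc ‖ν‖ * ‖Pn n z‖ * (2 * b) = 2 * ‖ν‖ * √b * (‖Pn n z‖ * √b) := by
          conv_lhs => rw [← mul_self_sqrt hb.le]
          ring
      _ ≤ Λ * (‖Pn n z‖ * ‖Pn n z‖) := by gcongr
      _ = _ := by ring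
  have key := scal_fld (ε := ε) (x1 := ⟪A ν, Pn n z⟫) (x2 := ⟪ν, z⟫)
    (x3 := ⟪A (z - Pn n z), Pn n z⟫) (x4 := ⟪A (z - Pn n z), z - Pn n z⟫) ht hb hθ0 hθ1
    (abs_weight_le hν hb hΛ hq) hD (chi_nonneg (‖Pn n z‖ ^ 2 / b)) (chi_le_one _)
    (hD' (‖Pn n z‖ ^ 2 / b)) hτ htp (sq_nonneg ‖z - Pn n z‖) (sq_nonneg ‖Pn n z‖)
    (fun h0 => (hA.abs_le _ _).trans (by
      rw [mul_assoc]; exact mul_le_mul_of_nonneg_left (hν' h0) hτ))
    (fun h0 => by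
      have : ⟪ν, z⟫ = ⟪ν, Pn n z⟫ := by rw [← Pn_symm, hν]
      rw [this]; exact (abs_real_inner_le_norm _ _).trans (hν' h0))
    ((hA.amgm (by positivity : 0 < b / (2 * t)) _ _).trans (by
      gcongr
      · exact hA.le_par hn (Pn_par hn z)
      · exact hA.le_tr _))
    (hA.psd _) (hA.le_par hn (Pn_par hn z))
  have k2 := gk_two_fld hn ht hS (z := z) (by linarith)
  have fin : ∀ L X R : ℝ, L = -(gk n t z * X) → |X| ≤ R → |L| ≤ gk n t z * R := by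
    intro L X R h1 h2
    rw [h1, abs_neg, abs_mul, abs_of_pos hg]
    exact mul_le_mul_of_nonneg_left h2 hg.le
  refine (fin _ _ _ (by ring) key).trans ?_
  generalize (tr A - ∑ i, ⟪A (n i), n i⟫) / t +
      ‖Pn n z‖ ^ 2 * (tr A + |2 * ε - tr A|) / b ^ 2 = W at hW ⊢
  calc _ = 4 * D * Λ * ((1 + ‖z - Pn n z‖ ^ 2 / t) * gk n t z) * W := by ring
    _ ≤ 4 * D * Λ * (20 * π * exp 1 * ((S / t) ^ hd E * S * G S z)) * W := by gcongr
    _ = _ := by ring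

/-- The scalar inequalities behind the bound for the field. -/
theorem scal2_fld {w t s Λ D c c' g p q N : ℝ} (ht : 0 < t) (ht1 : t ≤ 1) (hs : 0 < s) (hs1 : s ≤ 1)
    (hw : |w| ≤ Λ) (hD : 1 ≤ D) (hc1 : c ≤ 1) (hc' : |c'| ≤ D) (hg : 0 ≤ g)
    (hp : 0 ≤ p) (hq0 : 0 ≤ q) (hq : q ≤ 2 * s) (hN0 : 0 ≤ N) (hN : N ≤ Λ / (2 * s)) :
    c * g * (|w| / (2 * t) * p + N) ≤ 4 * D * Λ * ((1 + p ^ 2 / t) * g) * (1 / t + 1 / s ^ 2) ∧
    c * g * (|w| / (2 * t) + 1 / (2 * t) * N * p) +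
      (c * g / (2 * t) * p + g * (2 * |c'| / s ^ 2) * q) * (|w| / (2 * t) * p + N) ≤
      4 * D * Λ * ((1 + p ^ 2 / t) * g) * (1 / t + 1 / s ^ 2) := by
  have hΛ : 0 ≤ Λ := (abs_nonneg w).trans hw
  obtain ⟨u, hu⟩ : ∃ u, u = 1 / t := ⟨_, rfl⟩
  obtain ⟨r, hr⟩ : ∃ r, r = 1 / s := ⟨_, rfl⟩
  have u1 : 1 ≤ u := by rw [hu, le_div_iff₀ ht]; linarith
  have r1 : 1 ≤ r := by rw [hr, le_div_iff₀ hs]; linarith
  have e1 : 1 / s ^ 2 = r ^ 2 := by rw [hr]; field_simp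
  have e2 : p ^ 2 / t = p ^ 2 * u := by rw [hu]; field_simp
  have K0 : 0 ≤ Λ * g := by positivity
  have hR : 4 * D * Λ * ((1 + p ^ 2 / t) * g) * (1 / t + 1 / s ^ 2) =
      Λ * g * (D * (4 * ((1 + p ^ 2 * u) * (u + r ^ 2)))) := by rw [e1, e2, ← hu]; ring
  have a0 : 0 ≤ p ^ 2 * u * r ^ 2 := by positivity
  have a1 : r * (p * u) ≤ (r ^ 2 + p ^ 2 * u * u) / 2 := by nlinarith [sq_nonneg (r - p * u)]
  have a2 : p * u ≤ r * (p * u) := le_mul_of_one_le_left (by positivity) r1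
  have a3 : r ≤ r ^ 2 := by nlinarith
  have a4 : 0 ≤ p ^ 2 * u * u := by positivity
  rw [hR]
  constructor
  · calc c * g * (|w| / (2 * t) * p + N) ≤ 1 * g * (Λ / (2 * t) * p + Λ / (2 * s)) := by gcongr
      _ = Λ * g * (1 * (p * u / 2 + r / 2)) := by rw [hu, hr]; field_simp
      _ ≤ _ := by gcongr; nlinarith
  · calc _ ≤ 1 * g * (Λ / (2 * t) + 1 / (2 * t) * (Λ / (2 * s)) * p) +
          (1 * g / (2 * t) * p + g * (2 * D / s ^ 2) * (2 * s)) *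
            (Λ / (2 * t) * p + Λ / (2 * s)) := by gcongr
      _ = Λ * g * (1 * (u / 2 + r * (p * u) / 2 + p ^ 2 * u * u / 4) +
          D * (2 * (r * (p * u)) + 2 * r ^ 2)) := by rw [hu, hr]; field_simp; ring
      _ ≤ Λ * g * (D * (u / 2 + r * (p * u) / 2 + p ^ 2 * u * u / 4) +
          D * (2 * (r * (p * u)) + 2 * r ^ 2)) := by gcongr
      _ ≤ _ := by rw [← mul_add]; gcongr; nlinarith

theorem Yk_le : ∃ C ≥ (1 : ℝ), ∀ n : Fin 2 → E, Orthonormal ℝ n →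
    ∀ (α t b S Λ : ℝ) (ν : E), Pn n ν = ν → 0 < t → 0 < b → 2 * t ≤ S → b ≤ S → S ≤ 1 →
    |α| + 2 * ‖ν‖ * √b ≤ Λ → ∀ z : E,
    ‖Yk n α ν t b z‖ ≤ C * Λ * (S / t) ^ hd E * S * (1 / t + 1 / b) * G S z ∧
    ‖fderiv ℝ (Yk n α ν t b) z‖ ≤ C * Λ * (S / t) ^ hd E * S * (1 / t + 1 / b) * G S z := by
  obtain ⟨D, hD, hD'⟩ := deriv_chi_le
  refine ⟨80 * π * exp 1 * D, one_le_fld hD, ?_⟩
  intro n hn α t b S Λ ν hν ht hb hS hbS hS1 hΛ z
  have hS0 : 0 < S := by linarith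
  have hΛ0 : 0 ≤ Λ := le_trans (by positivity) hΛ
  have hG := G_pos hS0 z
  have hg := gk_pos n ht z
  rw [(hasFDerivAt_Yk hn α ν ht b z).fderiv, Yk]
  by_cases hq : 4 * b < ‖Pn n z‖ ^ 2
  · rw [(far_fld hb hq).1, (far_fld hb hq).2]
    simp only [mul_zero, zero_div, zero_mul, neg_zero, zero_smul, sub_zero, zero_add,
      ContinuousLinearMap.zero_smulRight, norm_zero, and_self]
    positivity
  rw [not_lt] at hq
  have hs : 0 < √b := sqrt_pos.2 hb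
  have key := scal2_fld (N := ‖ν‖) (q := ‖Pn n z‖) ht (by linarith) hs
    (sqrt_le_one.2 (by linarith)) (abs_weight_le hν hb hΛ hq) hD
    (chi_le_one (‖Pn n z‖ ^ 2 / b)) (hD' (‖Pn n z‖ ^ 2 / b)) hg.le (norm_nonneg (z - Pn n z)) (norm_nonneg _)
    (by
      refine (abs_le_of_sq_le_sq' ?_ (by positivity)).2
      rw [mul_pow, sq_sqrt hb.le]; linarith)
    (norm_nonneg _) (by rw [le_div_iff₀ (by positivity)]; linarith [abs_nonneg α])
  rw [sq_sqrt hb.le] at key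
  have k2 := gk_two_fld hn ht hS (z := z) (by linarith)
  have k3 : 4 * D * Λ * ((1 + ‖z - Pn n z‖ ^ 2 / t) * gk n t z) * (1 / t + 1 / b) ≤
      80 * π * exp 1 * D * Λ * (S / t) ^ hd E * S * (1 / t + 1 / b) * G S z :=
    calc _ ≤ 4 * D * Λ * (20 * π * exp 1 * ((S / t) ^ hd E * S * G S z)) * (1 / t + 1 / b) := by
          gcongr
      _ = _ := by ring
  have hc := chi_nonneg (‖Pn n z‖ ^ 2 / b)
  have n1 : ‖((α + ⟪ν, z⟫) / (2 * t)) • (z - Pn n z) + ν‖ ≤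
      |α + ⟪ν, z⟫| / (2 * t) * ‖z - Pn n z‖ + ‖ν‖ := by
    refine (norm_add_le _ _).trans (le_of_eq ?_)
    rw [norm_smul, Real.norm_eq_abs, abs_div, abs_of_pos (by positivity : 0 < 2 * t)]
  have n0 : ‖-(chi (‖Pn n z‖ ^ 2 / b) * gk n t z)‖ = chi (‖Pn n z‖ ^ 2 / b) * gk n t z := by
    rw [norm_neg, Real.norm_of_nonneg (by positivity)]
  have n2 : ‖ContinuousLinearMap.id ℝ E - Pn n‖ ≤ 1 :=
    ContinuousLinearMap.opNorm_le_bound _ zero_le_one fun v => by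
      rw [one_mul]; exact norm_par_le hn v
  refine ⟨le_trans ?_ (key.1.trans k3), le_trans ?_ (key.2.trans k3)⟩
  · rw [norm_smul, n0]
    gcongr
  · refine (norm_add_le _ _).trans (add_le_add ?_ ?_)
    · rw [norm_smul, n0]
      refine mul_le_mul_of_nonneg_left ((norm_add_le _ _).trans (add_le_add ?_ (le_of_eq ?_)))
        (by positivity)
      · rw [norm_smul, Real.norm_eq_abs, abs_div, abs_of_pos (by positivity : 0 < 2 * t)]
        exact mul_le_of_le_one_right (by positivity) n2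
      · rw [ContinuousLinearMap.norm_smulRight_apply, norm_smul, innerSL_apply_norm,
          Real.norm_of_nonneg (by positivity)]
    · rw [ContinuousLinearMap.norm_smulRight_apply]
      refine mul_le_mul ((norm_sub_le _ _).trans (le_of_eq ?_)) n1 (norm_nonneg _) (by positivity)
      rw [norm_smul, norm_smul, innerSL_apply_norm, innerSL_apply_norm,
        Real.norm_of_nonneg (by positivity), Real.norm_eq_abs, abs_mul, abs_div, abs_mul, abs_two,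
        abs_of_pos hg, abs_of_pos hb]

end Pool.Agent.Lib.MP_8daebb_an.G6
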