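import Pool.Agent.Lib.MP_8daebb_an.G6.Eig

/-! The identity for a Gaussian times a projection, and the second moment. -/

open MeasureTheory Metric Set Module Real
open scoped RealInnerProductSpace

namespace Pool.Agent.Lib.MP_8daebb_an.G6

open AS HK

variable {E : Type*} [NormedAddCommGroup E] [InnerProductSpace ℝ E] [FiniteDimensional ℝ E]
  [MeasurableSpace E] [BorelSpace E]

/-- The second moment of the energy in the directions `n`. -/
noncomputable def Hs (ε : E → ℝ) (T : E → E →L[ℝ] E) (n : Fin 2 → E) (t : ℝ) (x : E) : ℝ :=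
  ∫ y, G t (y - x) * (‖Pn n (y - x)‖ ^ 2 * (tau T y + |bet ε T y|))

lemma one_le_two_hd_id : (1 : ℝ) ≤ 2 ^ hd E := one_le_rpow one_le_two hd_nonneg

lemma integrable_GPn_id {d : ℕ} {n : Fin d → E} (hn : Orthonormal ℝ n) {t : ℝ} (ht : 0 < t)
    (x : E) : Integrable fun y => G t (y - x) * ‖Pn n (y - x)‖ ^ 2 := by
  refine integrable_of_le_G (C := 8 * 2 ^ hd E * t) (s := 2 * t) (x := x) (by fun_prop)
    (by positivity) fun y => ?_
  have hG := G_pos ht (y - x)
  rw [abs_of_nonneg (by positivity), mul_comm]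
  refine le_trans ?_ (sq_mul_G_le ht (y - x))
  gcongr
  exact norm_Pn_le hn _

theorem St.integrable_Hs {ε : E → ℝ} {T : E → E →L[ℝ] E} {c : E} {R μ : ℝ} (h : St ε T c R μ)
    {n : Fin 2 → E} (hn : Orthonormal ℝ n) {t : ℝ} (ht : 0 < t) (x : E) :
    Integrable fun y => G t (y - x) * (‖Pn n (y - x)‖ ^ 2 * (tau T y + |bet ε T y|)) := by
  simpa only [mul_assoc] using
    (h.bm_tau.add h.bm_bet.abs).integrable_mul (integrable_GPn_id hn ht x)

theorem St.Hs_nonneg {ε : E → ℝ} {T : E → E →L[ℝ] E} {c : E} {R μ : ℝ} (h : St ε T c R μ)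
    (n : Fin 2 → E) {t : ℝ} (ht : 0 < t) (x : E) : 0 ≤ Hs ε T n t x := by
  refine integral_nonneg fun y => ?_
  have := G_pos ht (y - x)
  have := h.tau_nonneg y
  positivity

theorem ident : ∃ C ≥ (1 : ℝ), ∀ (ε : E → ℝ) (T : E → E →L[ℝ] E) (c : E) (R μ : ℝ),
    St ε T c R μ → ∀ (d : ℕ) (n : Fin d → E), Orthonormal ℝ n → ∀ (t a : ℝ) (x p : E), 0 < t →
    2 * t ≤ R ^ 2 → ‖x - c‖ ≤ R → 0 ≤ a → ‖p - x‖ ≤ a * √t →
    |∫ y, G t (y - x) * ((d * ε y - ∑ i, ⟪T y (n i), n i⟫) -
      (ε y * ⟪y - x, Pn n (y - p)⟫ - ⟪T y (Pn n (y - p)), y - x⟫) / (2 * t))| ≤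
      C * (1 + a) * μ := by
  have hK := one_le_two_hd_id (E := E)
  refine ⟨5 * 2 ^ hd E, by linarith, fun ε T c R μ h d n hn t a x p ht hR hx ha hp => ?_⟩
  have hR0 : 0 ≤ R := (norm_nonneg _).trans hx
  have ht1 : t ≤ 1 := by nlinarith [h.R_le]
  have hs1 : √t ≤ 1 := sqrt_le_one.2 ht1
  have hs0 := sqrt_nonneg t
  have hss : √t * √t = t := mul_self_sqrt ht.le
  have hD : ∀ y, HasFDerivAt (fun y => G t (y - x) • Pn n (y - p))
      (G t (y - x) • Pn n +
        (-(G t (y - x) / (2 * t)) • innerSL ℝ (y - x)).smulRight (Pn n (y - p))) y := fun y =>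
    ((hasFDerivAt_comp_sub x).2 (hasFDerivAt_G ht (y - x))).smul
      ((hasFDerivAt_comp_sub p).2 (Pn n).hasFDerivAt)
  have hv : ∀ y, ‖Pn n (y - p)‖ ≤ ‖y - x‖ + a * √t := fun y => by
    have h1 := norm_sub_le_norm_sub_add_norm_sub y x p
    rw [norm_sub_rev x p] at h1
    linarith [norm_Pn_le hn (y - p)]
  have key := h.s1 (fun y => G t (y - x) • Pn n (y - p)) (5 * 2 ^ hd E * (1 + a)) (2 * t) x
    (((contDiff_G t).comp (contDiff_id.sub contDiff_const)).smul
      ((Pn n).contDiff.comp (contDiff_id.sub contDiff_const))) (by positivity) hR hx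
    (fun y => by
      have hG := G_pos ht (y - x)
      have hG2 := G_pos (show 0 < 2 * t by positivity) (y - x)
      have h1 := norm_mul_G_le ht (y - x)
      have h2 := G_le_two ht (y - x)
      rw [norm_smul, Real.norm_eq_abs, abs_of_pos hG]
      calc _ ≤ G t (y - x) * (‖y - x‖ + a * √t) := by gcongr; exact hv y
        _ = ‖y - x‖ * G t (y - x) + a * √t * G t (y - x) := by ring
        _ ≤ 5 * 2 ^ hd E * 1 * G (2 * t) (y - x) +
            a * 1 * (5 * (2 ^ hd E * G (2 * t) (y - x))) := by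
          refine add_le_add (h1.trans (by gcongr)) ?_
          gcongr
          have : 0 ≤ 2 ^ hd E * G (2 * t) (y - x) := by positivity
          linarith
        _ = _ := by ring)
    (fun y => by
      have hG := G_pos ht (y - x)
      have hG2 := G_pos (show 0 < 2 * t by positivity) (y - x)
      have h1 := norm_mul_G_le ht (y - x)
      have h2 := G_le_two ht (y - x)
      have h3 := sq_mul_G_le ht (y - x)
      rw [(hD y).fderiv]
      refine (norm_add_le _ _).trans ?_
      rw [norm_smul, Real.norm_eq_abs, abs_of_pos hG, ContinuousLinearMap.norm_smulRight_apply,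
        norm_smul, innerSL_apply_norm, norm_neg, Real.norm_eq_abs, abs_of_pos (by positivity)]
      calc _ ≤ G t (y - x) * 1 + G t (y - x) / (2 * t) * ‖y - x‖ * (‖y - x‖ + a * √t) := by
            gcongr
            · exact opNorm_Pn_le hn
            · exact hv y
        _ = G t (y - x) + (‖y - x‖ ^ 2 * G t (y - x) + a * √t * (‖y - x‖ * G t (y - x))) /
            (2 * t) := by ring
        _ ≤ 2 ^ hd E * G (2 * t) (y - x) + (8 * 2 ^ hd E * t * G (2 * t) (y - x) +
            a * √t * (5 * 2 ^ hd E * √t * G (2 * t) (y - x))) / (2 * t) := by gcongr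
        _ = (5 + 5 / 2 * a) * (2 ^ hd E * G (2 * t) (y - x)) := by
            rw [show a * √t * (5 * 2 ^ hd E * √t * G (2 * t) (y - x)) =
              a * (√t * √t) * (5 * 2 ^ hd E * G (2 * t) (y - x)) by ring, hss]
            field_simp
            ring
        _ ≤ (5 + 5 * a) * (2 ^ hd E * G (2 * t) (y - x)) := by gcongr; norm_num
        _ = _ := by ring)
  rw [mul_comm μ] at key
  convert key using 4 with y
  rw [(hD y).fderiv, pair_add, pair_smul, pair_smulRight, pair, tr_Pn hn, tr_comp_Pn,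
    real_inner_comm (y - x) (T y _)]
  simp only [smul_apply, innerSL_apply_apply, smul_eq_mul]
  ring

theorem Hs_le : ∃ C ≥ (1 : ℝ), ∀ (ε : E → ℝ) (T : E → E →L[ℝ] E) (c : E) (R μ : ℝ),
    St ε T c R μ → ∀ n : Fin 2 → E, Orthonormal ℝ n → ∀ (t : ℝ) (x : E), 0 < t →
    2 * t ≤ R ^ 2 → ‖x - c‖ ≤ R →
    Hs ε T n t x ≤ C * (t * P (2 * t) (fun y => |bet ε T y|) x + t * P (2 * t) (tpar T n) x +
      rad T t x + μ * t) := by
  obtain ⟨C, hC, hI⟩ := ident (E := E)
  have hK := one_le_two_hd_id (E := E)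
  refine ⟨20 * 2 ^ hd E + 4 * C, by linarith, fun ε T c R μ h n hn t x ht hR hx => ?_⟩
  have h1 := hI ε T c R μ h 2 n hn t 0 x x ht hR hx le_rfl (by simp)
  have h2t : 0 < 2 * t := by positivity
  have ib := h.bm_bet.abs.integrable_G h2t x
  have ip := (h.bm_tpar n).integrable_G h2t x
  have ir : Integrable fun y => G t (y - x) * (⟪T y (y - x), y - x⟫ / 4) := by
    simpa only [mul_div_assoc] using (h.integrable_rad ht x x).div_const 4
  have iT : Integrable fun y => G t (y - x) * ⟪T y (Pn n (y - x)), y - x⟫ := by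
    obtain ⟨B, B0, hB⟩ := h.bm_tau.bdd'
    refine integrable_of_le_G (C := B * (8 * 2 ^ hd E * t)) (s := 2 * t) (x := x)
      ((by fun_prop : Measurable fun y => G t (y - x)).mul (h.meas_T (by fun_prop) (by fun_prop)))
      h2t fun y => ?_
    have hG := G_pos ht (y - x)
    have h3 : |⟪T y (Pn n (y - x)), y - x⟫| ≤ B * ‖y - x‖ * ‖y - x‖ := by
      refine ((h.psd' y).abs_le _ _).trans ?_
      gcongr
      · exact (le_abs_self _).trans (hB y)
      · exact norm_Pn_le hn _
    rw [abs_mul, abs_of_pos hG]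
    calc _ ≤ G t (y - x) * (B * ‖y - x‖ * ‖y - x‖) := by gcongr
      _ = B * (‖y - x‖ ^ 2 * G t (y - x)) := by ring
      _ ≤ B * (8 * 2 ^ hd E * t * G (2 * t) (y - x)) :=
        mul_le_mul_of_nonneg_left (sq_mul_G_le ht (y - x)) B0
      _ = _ := by ring
  have iI : Integrable fun y => G t (y - x) * ((((2 : ℕ) : ℝ) * ε y - ∑ i, ⟪T y (n i), n i⟫) -
      (ε y * ⟪y - x, Pn n (y - x)⟫ - ⟪T y (Pn n (y - x)), y - x⟫) / (2 * t)) := by
    refine (((h.bm_bet.add (h.bm_tpar n)).integrable_G ht x).sub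
      (((h.bε.integrable_mul (integrable_GPn_id hn ht x)).sub iT).div_const (2 * t))).congr
      (Filter.Eventually.of_forall fun y => ?_)
    simp only [Pi.sub_apply, inner_Pn_self hn, bet, tpar, Nat.cast_ofNat]
    ring
  have key := integral_mono (h.integrable_Hs hn ht x)
    ((((ib.const_mul (20 * (2 ^ hd E * t))).add (ip.const_mul (12 * (2 ^ hd E * t)))).add
      (ir.const_mul 12)).sub (iI.const_mul (4 * t))) (fun y => by
      have hG := G_pos ht (y - x)
      have g1 := sq_mul_G_le ht (y - x)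
      have g2 := G_le_two ht (y - x)
      have g3 := h.tpar_nonneg hn y
      have g4 := abs_nonneg (bet ε T y)
      have g5 : ‖Pn n (y - x)‖ ^ 2 ≤ ‖y - x‖ ^ 2 := by gcongr; exact norm_Pn_le hn _
      have g6 : ⟪T y (Pn n (y - x)), y - x⟫ ≤
          3 / 2 * ⟪T y (y - x), y - x⟫ + tpar T n y * ‖y - x‖ ^ 2 / 2 := by
        have a1 := (abs_le.1 ((h.psd' y).amgm (η := 1 / 2) (by norm_num)
          (y - x - Pn n (y - x)) (y - x))).1
        have a2 : _ ≤ tpar T n y * _ := (h.psd' y).le_par hn (Pn_par hn (y - x))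
        have a3 : tpar T n y * ‖y - x - Pn n (y - x)‖ ^ 2 ≤ tpar T n y * ‖y - x‖ ^ 2 := by
          gcongr; exact norm_par_le hn _
        have a4 : ⟪T y (y - x - Pn n (y - x)), y - x⟫ =
            ⟪T y (y - x), y - x⟫ - ⟪T y (Pn n (y - x)), y - x⟫ := by
          rw [map_sub (T y) (y - x), inner_sub_left]
        linarith
      have e1 : ((2 : ℕ) : ℝ) * ε y - ∑ i, ⟪T y (n i), n i⟫ = bet ε T y + tpar T n y := by
        simp only [bet, tpar, Nat.cast_ofNat]; ring
      have e2 : tau T y = 2 * ε y - bet ε T y := by simp only [bet, tau]; ring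
      simp only [Pi.sub_apply, Pi.add_apply, inner_Pn_self hn, e1, e2]
      rw [show 4 * t * (G t (y - x) * (bet ε T y + tpar T n y -
          (ε y * ‖Pn n (y - x)‖ ^ 2 - ⟪T y (Pn n (y - x)), y - x⟫) / (2 * t))) =
          4 * t * G t (y - x) * (bet ε T y + tpar T n y) -
          2 * G t (y - x) * (ε y * ‖Pn n (y - x)‖ ^ 2 - ⟪T y (Pn n (y - x)), y - x⟫) by
        field_simp; ring]
      have b1 := mul_le_mul_of_nonneg_left g6 hG.le
      have b2 := mul_le_mul_of_nonneg_right g1 g3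
      have b3 := mul_le_mul_of_nonneg_right g1 g4
      have b4 : G t (y - x) * ‖Pn n (y - x)‖ ^ 2 * (|bet ε T y| - bet ε T y) ≤
          G t (y - x) * ‖y - x‖ ^ 2 * (2 * |bet ε T y|) :=
        mul_le_mul (by gcongr) (by linarith [neg_abs_le (bet ε T y)])
          (by linarith [le_abs_self (bet ε T y)]) (by positivity)
      have b5 : t * G t (y - x) * (bet ε T y + tpar T n y) ≤
          t * (2 ^ hd E * G (2 * t) (y - x)) * (|bet ε T y| + tpar T n y) :=
        (mul_le_mul_of_nonneg_left (by linarith [le_abs_self (bet ε T y)]) (by positivity)).trans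
          (mul_le_mul_of_nonneg_right (by gcongr) (add_nonneg g4 g3))
      linarith)
  rw [integral_sub' (((ib.const_mul _).add (ip.const_mul _)).add (ir.const_mul 12))
    (iI.const_mul _), integral_add' ((ib.const_mul _).add (ip.const_mul _)) (ir.const_mul 12),
    integral_add' (ib.const_mul _) (ip.const_mul _), integral_const_mul, integral_const_mul,
    integral_const_mul, integral_const_mul] at key
  have n1 : 0 ≤ t * P (2 * t) (fun y => |bet ε T y|) x :=
    mul_nonneg ht.le (P_nonneg h2t.le (fun y => abs_nonneg _) x)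
  have n2 : 0 ≤ t * P (2 * t) (tpar T n) x :=
    mul_nonneg ht.le (P_nonneg h2t.le (h.tpar_nonneg hn) x)
  have n3 := h.rad_nonneg ht x
  have n4 : 0 ≤ μ * t := mul_nonneg h.μ0 ht.le
  have h3 := mul_le_mul_of_nonneg_left (abs_le.1 h1).1 ht.le
  have k1 : Hs ε T n t x ≤ 20 * 2 ^ hd E * (t * P (2 * t) (fun y => |bet ε T y|) x) +
      12 * 2 ^ hd E * (t * P (2 * t) (tpar T n) x) + 12 * rad T t x + 4 * C * (μ * t) := by
    simp only [Hs, P, rad]
    linarith
  have hK0 : (0 : ℝ) ≤ 2 ^ hd E := by linarith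
  have hC0 : 0 ≤ C := by linarith
  nlinarith [mul_nonneg hC0 n1, mul_nonneg hC0 n2, mul_nonneg hC0 n3, mul_nonneg hK0 n2,
    mul_nonneg hK0 n4, mul_le_mul_of_nonneg_right hK n3]

theorem Hs_shift : ∃ C ≥ (1 : ℝ), ∀ (ε : E → ℝ) (T : E → E →L[ℝ] E) (c : E) (R μ : ℝ),
    St ε T c R μ → ∀ n : Fin 2 → E, Orthonormal ℝ n → ∀ (S : ℝ) (x₀ w : E), 0 < S →
    Pn n (w - x₀) = 0 → ‖w - x₀‖ ^ 2 ≤ S → Hs ε T n S w ≤ C * Hs ε T n (2 * S) x₀ := by
  have hK := one_le_two_hd_id (E := E)
  refine ⟨2 ^ hd E * exp (1 / 4), one_le_mul_of_one_le_of_one_le hK (one_le_exp (by norm_num)),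
    fun ε T c R μ h n hn S x₀ w hS h0 hw => ?_⟩
  rw [Hs, Hs, ← integral_const_mul]
  refine integral_mono (h.integrable_Hs hn hS w)
    ((h.integrable_Hs hn (by positivity) x₀).const_mul _) fun y => ?_
  have e1 : Pn n (y - w) = Pn n (y - x₀) := by
    rw [show y - w = (y - x₀) - (w - x₀) by abel, map_sub, h0, sub_zero]
  have h1 := G_shift_le (A := 1) (a := x₀ - w) hS (by rwa [norm_sub_rev, one_mul]) (y - x₀)
  rw [show y - x₀ + (x₀ - w) = y - w by abel] at h1
  have := h.tau_nonneg y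
  simp only [e1]
  rw [← mul_assoc (2 ^ hd E * exp (1 / 4))]
  gcongr

theorem two_point {ε : E → ℝ} {T : E → E →L[ℝ] E} {c : E} {R μ : ℝ} (h : St ε T c R μ)
    {t a : ℝ} (ht : 0 < t) {x₀ x p : E} (hx : ‖x - x₀‖ ^ 2 ≤ a * t) (hp : ‖p - x₀‖ ^ 2 ≤ a * t) :
    P t (fun y => ⟪T y (x - p), x - p⟫) x₀ ≤
      8 * 2 ^ hd E * exp (a / 4) * (rad T (2 * t) x + rad T (2 * t) p) := by
  have h2t : 0 < 2 * t := by positivity
  have ir : ∀ w, Integrable fun y => G (2 * t) (y - w) * (⟪T y (y - w), y - w⟫ / 4) := fun w => by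
    simpa only [mul_div_assoc] using (h.integrable_rad h2t w w).div_const 4
  rw [rad, rad, ← integral_add (ir x) (ir p), ← integral_const_mul, P]
  refine integral_mono ((h.bT _ _).integrable_G ht x₀) (((ir x).add (ir p)).const_mul _)
    fun y => ?_
  have h1 := G_shift_le ht hx (y - x)
  have h2 := G_shift_le ht hp (y - p)
  rw [sub_add_sub_cancel] at h1 h2
  have h3 := (h.psd' y).sub_le (y - p) (y - x)
  rw [sub_sub_sub_cancel_left] at h3
  have h4 := mul_le_mul_of_nonneg_left h3 (G_pos ht (y - x₀)).le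
  have h5 := mul_le_mul_of_nonneg_right h1 (h.psd y (y - x))
  have h6 := mul_le_mul_of_nonneg_right h2 (h.psd y (y - p))
  simp only
  linarith

/-- The second moment over a bounded set. -/
theorem moment_le_Hs {ε : E → ℝ} {T : E → E →L[ℝ] E} {c : E} {R μ : ℝ} (h : St ε T c R μ)
    {n : Fin 2 → E} (hn : Orthonormal ℝ n) {t a : ℝ} (ht : 0 < t) {x : E} {B : Set E}
    (hB : MeasurableSet B) (hBx : ∀ y ∈ B, ‖y - x‖ ^ 2 ≤ a * t) :
    ∫ y in B, ‖Pn n (y - x)‖ ^ 2 * tau T y ≤ (4 * π * t) ^ hd E * exp (a / 4) * Hs ε T n t x := by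
  have i1 := (h.integrable_Hs hn ht x).const_mul ((4 * π * t) ^ hd E * exp (a / 4))
  rw [Hs, ← integral_const_mul]
  refine le_trans (integral_mono_of_nonneg (Filter.Eventually.of_forall fun y => ?_)
    i1.integrableOn ?_) (setIntegral_le_integral i1 (Filter.Eventually.of_forall fun y => ?_))
  · have := h.tau_nonneg y
    positivity
  · filter_upwards [ae_restrict_mem hB] with y hy
    have h0 := h.tau_nonneg y
    have h1 : 1 ≤ (4 * π * t) ^ hd E * exp (a / 4) * G t (y - x) := by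
      refine le_trans (le_of_eq ?_) (mul_le_mul_of_nonneg_left (G_lower ht (hBx y hy))
        (by positivity))
      rw [rpow_neg (by positivity), exp_neg]
      field_simp
    rw [← mul_assoc]
    refine le_trans ?_ (le_mul_of_one_le_left (by positivity) h1)
    gcongr
    exact le_add_of_nonneg_right (abs_nonneg _)
  · have := h.tau_nonneg y
    have := G_pos ht (y - x)
    positivity

end Pool.Agent.Lib.MP_8daebb_an.G6
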