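import Pool.Agent.Lib.MP_8daebb_an.G6.Lin

/-! The kernel: a Gaussian along the plane times a flat cutoff across it. -/

open MeasureTheory Metric Set Module Real
open scoped RealInnerProductSpace

namespace Pool.Agent.Lib.MP_8daebb_an.G6

open AS HK

variable {E : Type*} [NormedAddCommGroup E] [InnerProductSpace ℝ E] [FiniteDimensional ℝ E]
  [MeasurableSpace E] [BorelSpace E]

/-- The flat cutoff. -/
noncomputable def chi (s : ℝ) : ℝ := Real.smoothTransition ((4 - s) / 3)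

/-- The Gaussian along the orthogonal complement of `n`. -/
noncomputable def gk (n : Fin 2 → E) (t : ℝ) (z : E) : ℝ := 4 * π * t * G t (z - Pn n z)

/-- The kernel with the affine weight `α + ⟪ν, z⟫`. -/
noncomputable def Kk (n : Fin 2 → E) (α : ℝ) (ν : E) (t b : ℝ) (z : E) : ℝ :=
  (α + ⟪ν, z⟫) * gk n t z * chi (‖Pn n z‖ ^ 2 / b)

/-- The derivative of the kernel along the path `t ↦ (t, b₀ + θ t)`. -/
noncomputable def dK (n : Fin 2 → E) (α : ℝ) (ν : E) (θ t b : ℝ) (z : E) : ℝ :=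
  (α + ⟪ν, z⟫) * gk n t z * ((‖z - Pn n z‖ ^ 2 / (4 * t ^ 2) - (hd E - 1) / t) *
    chi (‖Pn n z‖ ^ 2 / b) - θ * (‖Pn n z‖ ^ 2 / b ^ 2) * deriv chi (‖Pn n z‖ ^ 2 / b))

/-- The test field. -/
noncomputable def Yk (n : Fin 2 → E) (α : ℝ) (ν : E) (t b : ℝ) (z : E) : E :=
  (-(chi (‖Pn n z‖ ^ 2 / b) * gk n t z)) • (((α + ⟪ν, z⟫) / (2 * t)) • (z - Pn n z) + ν)

theorem contDiff_chi : ContDiff ℝ 1 chi := by
  unfold chi
  exact Real.smoothTransition.contDiff.comp (by fun_prop)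

theorem chi_nonneg (s : ℝ) : 0 ≤ chi s := by
  exact Real.smoothTransition.nonneg _

theorem chi_le_one (s : ℝ) : chi s ≤ 1 := by
  exact Real.smoothTransition.le_one _

theorem chi_one {s : ℝ} (hs : s ≤ 1) : chi s = 1 := by
  exact Real.smoothTransition.one_of_one_le (by linarith)

theorem chi_zero {s : ℝ} (hs : 4 ≤ s) : chi s = 0 := by
  exact Real.smoothTransition.zero_of_nonpos (by linarith)

theorem deriv_chi_supp {s : ℝ} (hs : deriv chi s ≠ 0) : 1 ≤ s ∧ s ≤ 4 := by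
  by_contra hc
  refine hs ?_
  rcases not_and_or.1 hc with h | h
  · have : chi =ᶠ[nhds s] fun _ => 1 :=
      Filter.mem_of_superset (Iio_mem_nhds (not_le.1 h)) fun x hx => chi_one (le_of_lt hx)
    rw [this.deriv_eq, deriv_const]
  · have : chi =ᶠ[nhds s] fun _ => 0 :=
      Filter.mem_of_superset (Ioi_mem_nhds (not_le.1 h)) fun x hx => chi_zero (le_of_lt hx)
    rw [this.deriv_eq, deriv_const]

theorem deriv_chi_le : ∃ C ≥ (1 : ℝ), ∀ s, |deriv chi s| ≤ C := by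
  obtain ⟨C, hC⟩ := (isCompact_Icc (a := (1 : ℝ)) (b := 4)).exists_bound_of_continuousOn
    (contDiff_chi.continuous_deriv le_rfl).continuousOn
  refine ⟨max C 1, le_max_right _ _, fun s => ?_⟩
  by_cases h : deriv chi s = 0
  · rw [h, abs_zero]
    exact zero_le_one.trans (le_max_right _ _)
  · exact (hC s (deriv_chi_supp h)).trans (le_max_left _ _)

variable {n : Fin 2 → E}

theorem gk_pos (n : Fin 2 → E) {t : ℝ} (ht : 0 < t) (z : E) : 0 < gk n t z := by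
  have := G_pos ht (z - Pn n z)
  unfold gk
  positivity

theorem continuous_gk (n : Fin 2 → E) (t : ℝ) : Continuous (gk n t) := by
  unfold gk
  fun_prop

theorem continuous_Kk (n : Fin 2 → E) (α : ℝ) (ν : E) (t b : ℝ) : Continuous (Kk n α ν t b) := by
  have := contDiff_chi.continuous
  have := continuous_gk n t
  unfold Kk
  fun_prop

theorem continuous_dK (n : Fin 2 → E) (α : ℝ) (ν : E) (θ t b : ℝ) :
    Continuous (dK n α ν θ t b) := by
  have := contDiff_chi.continuous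
  have := contDiff_chi.continuous_deriv le_rfl
  have := continuous_gk n t
  unfold dK
  fun_prop

theorem gk_congr (n : Fin 2 → E) (t : ℝ) {z w : E} (h : z - Pn n z = w - Pn n w) :
    gk n t z = gk n t w := by
  rw [gk, gk, h]

theorem G_le_gk (hn : Orthonormal ℝ n) {t : ℝ} (ht : 0 < t) (z : E) :
    4 * π * t * G t z ≤ gk n t z := by
  exact mul_le_mul_of_nonneg_left (G_anti ht (norm_par_le hn z)) (by positivity)

theorem gk_le (hn : Orthonormal ℝ n) {t S : ℝ} (ht : 0 < t) (hS : t ≤ S) {z : E}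
    (hz : ‖Pn n z‖ ^ 2 ≤ 4 * S) : gk n t z ≤ 4 * π * exp 1 * (S / t) ^ hd E * S * G S z := by
  have hS0 : 0 < S := ht.trans_le hS
  have h1 := G_le_of_le ht hS (z - Pn n z)
  have h2 : G S (z - Pn n z) ≤ exp 1 * G S z := by
    rw [G_eq_mul hS0 hS0 (z - Pn n z) z, div_self hS0.ne', one_rpow, one_mul]
    refine mul_le_mul_of_nonneg_right (exp_le_exp.2 ?_) (G_pos hS0 z).le
    rw [← sub_div, div_le_one (by positivity)]
    linarith [pyth hn z]
  have h3 := G_pos ht (z - Pn n z)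
  calc gk n t z ≤ 4 * π * S * ((S / t) ^ hd E * (exp 1 * G S z)) := by
        unfold gk
        gcongr
        exact h1.trans (by gcongr)
    _ = _ := by ring

theorem gk_le_two (n : Fin 2 → E) {t : ℝ} (ht : 0 < t) (z : E) :
    (1 + ‖z - Pn n z‖ ^ 2 / t) * gk n t z ≤ 5 * 2 ^ hd E * gk n (2 * t) z := by
  have h1 := G_le_two ht (z - Pn n z)
  have h2 := sq_mul_G_le ht (z - Pn n z)
  have h3 : 0 ≤ 2 ^ hd E * G (2 * t) (z - Pn n z) := (G_pos ht _).le.trans h1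
  have e : (1 + ‖z - Pn n z‖ ^ 2 / t) * gk n t z =
      4 * π * (t * G t (z - Pn n z) + ‖z - Pn n z‖ ^ 2 * G t (z - Pn n z)) := by
    unfold gk
    field_simp
  have h4 := mul_le_mul_of_nonneg_left h1 ht.le
  have h5 := mul_nonneg ht.le h3
  rw [e, gk, show 5 * 2 ^ hd E * (4 * π * (2 * t) * G (2 * t) (z - Pn n z)) =
    4 * π * (10 * (t * (2 ^ hd E * G (2 * t) (z - Pn n z)))) by ring]
  exact mul_le_mul_of_nonneg_left (by linarith) (by positivity)

theorem abs_weight_le {α b Λ : ℝ} {ν z : E} (hν : Pn n ν = ν) (hb : 0 < b)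
    (hΛ : |α| + 2 * ‖ν‖ * √b ≤ Λ) (hz : ‖Pn n z‖ ^ 2 ≤ 4 * b) : |α + ⟪ν, z⟫| ≤ Λ := by
  have h1 : ‖Pn n z‖ ≤ 2 * √b := by
    refine le_of_sq_le_sq ?_ (by positivity)
    rw [mul_pow, sq_sqrt hb.le]
    linarith
  have h2 : |⟪ν, z⟫| ≤ ‖ν‖ * (2 * √b) := by
    rw [← hν, Pn_symm, hν]
    exact (abs_real_inner_le_norm _ _).trans (by gcongr)
  linarith [abs_add_le α ⟪ν, z⟫]

theorem abs_Kk_le (hn : Orthonormal ℝ n) {α t b S Λ : ℝ} {ν : E} (hν : Pn n ν = ν) (ht : 0 < t)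
    (hb : 0 < b) (htS : t ≤ S) (hbS : b ≤ S) (hΛ : |α| + 2 * ‖ν‖ * √b ≤ Λ) (z : E) :
    |Kk n α ν t b z| ≤ 4 * π * exp 1 * Λ * (S / t) ^ hd E * S * G S z := by
  have hΛ0 : 0 ≤ Λ := le_trans (by positivity) hΛ
  have hS0 : 0 < S := ht.trans_le htS
  have h0 := G_pos hS0 z
  by_cases hz : ‖Pn n z‖ ^ 2 ≤ 4 * b
  · rw [Kk, abs_mul, abs_mul, abs_of_pos (gk_pos n ht z), abs_of_nonneg (chi_nonneg _)]
    calc _ ≤ Λ * (4 * π * exp 1 * (S / t) ^ hd E * S * G S z) * 1 := by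
          have := (gk_pos n ht z).le
          have := chi_nonneg (‖Pn n z‖ ^ 2 / b)
          gcongr
          · exact abs_weight_le hν hb hΛ hz
          · exact gk_le hn ht htS (by linarith)
          · exact chi_le_one _
      _ = _ := by ring
  · rw [Kk, chi_zero (by rw [le_div_iff₀ hb]; linarith), mul_zero, abs_zero]
    positivity

theorem hasDerivAt_gk (n : Fin 2 → E) {t : ℝ} (ht : 0 < t) (z : E) :
    HasDerivAt (fun s => gk n s z)
      (gk n t z * (‖z - Pn n z‖ ^ 2 / (4 * t ^ 2) - (hd E - 1) / t)) t := by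
  refine (((hasDerivAt_id t).const_mul (4 * π)).mul (hasDerivAt_G ht (z - Pn n z))).congr_deriv ?_
  simp only [gk, dG, id]
  field_simp
  ring

theorem hasDerivAt_Kk (n : Fin 2 → E) (α : ℝ) (ν : E) {b₀ θ t : ℝ} (ht : 0 < t)
    (hb : 0 < b₀ + θ * t) (z : E) :
    HasDerivAt (fun s => Kk n α ν s (b₀ + θ * s) z) (dK n α ν θ t (b₀ + θ * t) z) t := by
  have h1 : HasDerivAt (fun s => ‖Pn n z‖ ^ 2 / (b₀ + θ * s))
      (-(θ * (‖Pn n z‖ ^ 2 / (b₀ + θ * t) ^ 2))) t := by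
    refine ((hasDerivAt_const t (‖Pn n z‖ ^ 2)).div
      (((hasDerivAt_id t).const_mul θ).const_add b₀) hb.ne').congr_deriv ?_
    simp only [id]
    ring
  have h2 := (contDiff_chi.differentiable one_ne_zero _).hasDerivAt.comp t h1
  refine (((hasDerivAt_gk n ht z).const_mul (α + ⟪ν, z⟫)).mul h2).congr_deriv ?_
  simp only [dK, Function.comp]
  ring

theorem hasFDerivAt_gk (hn : Orthonormal ℝ n) {t : ℝ} (ht : 0 < t) (z : E) :
    HasFDerivAt (gk n t) (-(gk n t z / (2 * t)) • innerSL ℝ (z - Pn n z)) z := by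
  have h1 : HasFDerivAt (fun y => y - Pn n y) (ContinuousLinearMap.id ℝ E - Pn n) z :=
    (hasFDerivAt_id z).sub (Pn n).hasFDerivAt
  refine (((hasFDerivAt_G ht (z - Pn n z)).comp z h1).const_mul (4 * π * t)).congr_fderiv ?_
  ext h
  have := inner_Pn_of_Pn_eq_zero (Pn_par hn z) h
  simp only [smul_apply, ContinuousLinearMap.comp_apply, sub_apply,
    ContinuousLinearMap.id_apply, innerSL_apply_apply, inner_sub_right, this, smul_eq_mul, gk]
  ring

theorem hasFDerivAt_chi (hn : Orthonormal ℝ n) (b : ℝ) (z : E) :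
    HasFDerivAt (fun y => chi (‖Pn n y‖ ^ 2 / b))
      ((2 * deriv chi (‖Pn n z‖ ^ 2 / b) / b) • innerSL ℝ (Pn n z)) z := by
  have h1 := (((hasStrictFDerivAt_norm_sq (Pn n z)).hasFDerivAt).comp z
    (Pn n).hasFDerivAt).mul_const b⁻¹
  refine ((contDiff_chi.differentiable one_ne_zero _).hasDerivAt.comp_hasFDerivAt z
    (f := fun y => ‖Pn n y‖ ^ 2 / b) h1).congr_fderiv ?_
  ext h
  have : ⟪Pn n z, Pn n h⟫ = ⟪Pn n z, h⟫ := by rw [← Pn_symm, Pn_Pn hn]
  simp only [smul_apply, ContinuousLinearMap.comp_apply, innerSL_apply_apply, this, smul_eq_mul,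
    nsmul_eq_mul, Nat.cast_ofNat]
  ring

theorem contDiff_Yk (n : Fin 2 → E) (α : ℝ) (ν : E) (t b : ℝ) : ContDiff ℝ 1 (Yk n α ν t b) := by
  have h0 : ContDiff ℝ 1 fun z => z - Pn n z := contDiff_id.sub (Pn n).contDiff
  have h1 : ContDiff ℝ 1 fun z => chi (‖Pn n z‖ ^ 2 / b) :=
    contDiff_chi.comp (((contDiff_norm_sq ℝ).comp (Pn n).contDiff).div_const b)
  have h2 : ContDiff ℝ 1 (gk n t) := contDiff_const.mul ((contDiff_G t).comp h0)
  have h3 : ContDiff ℝ 1 fun z : E => (α + ⟪ν, z⟫) / (2 * t) :=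
    (contDiff_const.add (innerSL ℝ ν).contDiff).div_const _
  exact (h1.mul h2).neg.smul ((h3.smul h0).add contDiff_const)

theorem abs_dK_le : ∃ C ≥ (1 : ℝ), ∀ n : Fin 2 → E, Orthonormal ℝ n →
    ∀ (α θ t b S Λ : ℝ) (ν : E), Pn n ν = ν → 0 < t → 0 < b → 2 * t ≤ S → b ≤ S → 0 ≤ θ → θ ≤ 1 →
    |α| + 2 * ‖ν‖ * √b ≤ Λ → ∀ z,
    |dK n α ν θ t b z| ≤ C * Λ * (S / t) ^ hd E * S * (1 / t + 1 / b) * G S z := by
  obtain ⟨C, hC1, hC⟩ := deriv_chi_le
  have hd0 : 0 ≤ hd E := hd_nonneg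
  refine ⟨(hd E + 1 + 4 * C) * (5 * 2 ^ hd E) * (4 * π * exp 1), ?_,
    fun n hn α θ t b S Λ ν hν ht hb htS hbS h0 h1 hΛ z => ?_⟩
  · have a : (1 : ℝ) ≤ 2 ^ hd E := one_le_rpow one_le_two hd0
    have b : 1 ≤ exp (1 : ℝ) := one_le_exp zero_le_one
    exact one_le_mul_of_one_le_of_one_le (one_le_mul_of_one_le_of_one_le (by linarith)
      (by linarith)) (one_le_mul_of_one_le_of_one_le (by linarith [pi_gt_three]) b)
  have hΛ0 : 0 ≤ Λ := le_trans (by positivity) hΛ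
  have hS0 : 0 < S := hb.trans_le hbS
  have hG := G_pos hS0 z
  by_cases hz : ‖Pn n z‖ ^ 2 ≤ 4 * b
  · have a1 : |(‖z - Pn n z‖ ^ 2 / (4 * t ^ 2) - (hd E - 1) / t) * chi (‖Pn n z‖ ^ 2 / b)| ≤
        (hd E + 1) * (1 + ‖z - Pn n z‖ ^ 2 / t) * (1 / t) := by
      rw [abs_mul, abs_of_nonneg (chi_nonneg _)]
      refine (mul_le_of_le_one_right (abs_nonneg _) (chi_le_one _)).trans ?_
      rw [show ‖z - Pn n z‖ ^ 2 / (4 * t ^ 2) - (hd E - 1) / t =
        (‖z - Pn n z‖ ^ 2 / t / 4 - (hd E - 1)) * (1 / t) by field_simp, abs_mul,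
        abs_of_pos (show 0 < 1 / t by positivity)]
      have : 0 ≤ ‖z - Pn n z‖ ^ 2 / t := by positivity
      refine mul_le_mul_of_nonneg_right (abs_le.2 ⟨?_, ?_⟩) (by positivity) <;>
        nlinarith [mul_nonneg hd0 this]
    have a2 : |θ * (‖Pn n z‖ ^ 2 / b ^ 2) * deriv chi (‖Pn n z‖ ^ 2 / b)| ≤
        4 * C * (1 + ‖z - Pn n z‖ ^ 2 / t) * (1 / b) := by
      rw [abs_mul, abs_of_nonneg (by positivity)]
      calc _ ≤ 1 * (4 * b / b ^ 2) * C := by
            gcongr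
            exact hC _
        _ = 4 * C * 1 * (1 / b) := by field_simp
        _ ≤ _ := by
            gcongr
            exact le_add_of_nonneg_right (by positivity)
    have a3 : |(‖z - Pn n z‖ ^ 2 / (4 * t ^ 2) - (hd E - 1) / t) * chi (‖Pn n z‖ ^ 2 / b) -
        θ * (‖Pn n z‖ ^ 2 / b ^ 2) * deriv chi (‖Pn n z‖ ^ 2 / b)| ≤
        (hd E + 1 + 4 * C) * (1 / t + 1 / b) * (1 + ‖z - Pn n z‖ ^ 2 / t) := by
      refine (abs_sub _ _).trans ((add_le_add a1 a2).trans ?_)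
      have b1 : 0 ≤ (hd E + 1) * (1 + ‖z - Pn n z‖ ^ 2 / t) * (1 / b) := by positivity
      have b2 : 0 ≤ 4 * C * (1 + ‖z - Pn n z‖ ^ 2 / t) * (1 / t) := by positivity
      linarith
    have a4 : gk n (2 * t) z ≤ 4 * π * exp 1 * (S / t) ^ hd E * S * G S z := by
      refine (gk_le hn (by positivity) htS (by linarith)).trans ?_
      gcongr
      linarith
    have a5 := (gk_le_two n ht z).trans (mul_le_mul_of_nonneg_left a4 (by positivity))
    have a6 := (gk_pos n ht z).le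
    rw [dK, abs_mul, abs_mul, abs_of_nonneg a6]
    calc _ ≤ Λ * gk n t z *
          ((hd E + 1 + 4 * C) * (1 / t + 1 / b) * (1 + ‖z - Pn n z‖ ^ 2 / t)) := by
          gcongr
          exact abs_weight_le hν hb hΛ hz
      _ = Λ * ((hd E + 1 + 4 * C) * (1 / t + 1 / b)) *
          ((1 + ‖z - Pn n z‖ ^ 2 / t) * gk n t z) := by ring
      _ ≤ Λ * ((hd E + 1 + 4 * C) * (1 / t + 1 / b)) *
          (5 * 2 ^ hd E * (4 * π * exp 1 * (S / t) ^ hd E * S * G S z)) := by gcongr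
      _ = _ := by ring
  · have b1 : 4 < ‖Pn n z‖ ^ 2 / b := by rw [lt_div_iff₀ hb]; linarith
    have b2 : deriv chi (‖Pn n z‖ ^ 2 / b) = 0 := by
      by_contra hc
      linarith [(deriv_chi_supp hc).2]
    rw [dK, chi_zero b1.le, b2, mul_zero, mul_zero, sub_zero, mul_zero, abs_zero]
    positivity

end Pool.Agent.Lib.MP_8daebb_an.G6
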