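import Pool.Agent.Lib.MP_8daebb_an.G6.Def

/-! Linear algebra: projections, traces, positive operators. -/

open MeasureTheory Metric Set Module Real
open scoped RealInnerProductSpace

set_option linter.unusedSectionVars false

namespace Pool.Agent.Lib.MP_8daebb_an.G6

open AS HK

variable {E : Type*} [NormedAddCommGroup E] [InnerProductSpace ℝ E] [FiniteDimensional ℝ E]
  [MeasurableSpace E] [BorelSpace E]

variable {d : ℕ} {n : Fin d → E} {A : E →L[ℝ] E}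

theorem Pn_apply (n : Fin d → E) (z : E) : Pn n z = ∑ i, ⟪n i, z⟫ • n i := by
  simp [Pn]

theorem inner_Pn_left (n : Fin d → E) (z w : E) : ⟪Pn n z, w⟫ = ∑ i, ⟪n i, z⟫ * ⟪n i, w⟫ := by
  simp [Pn_apply, sum_inner, real_inner_smul_left]

theorem Pn_symm (n : Fin d → E) (z w : E) : ⟪Pn n z, w⟫ = ⟪z, Pn n w⟫ := by
  rw [real_inner_comm (Pn n w) z, inner_Pn_left, inner_Pn_left]
  exact Finset.sum_congr rfl fun i _ => mul_comm _ _

theorem inner_n_Pn (hn : Orthonormal ℝ n) (i : Fin d) (z : E) : ⟪n i, Pn n z⟫ = ⟪n i, z⟫ := by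
  rw [Pn_apply]
  exact hn.inner_right_fintype _ i

theorem Pn_Pn (hn : Orthonormal ℝ n) (z : E) : Pn n (Pn n z) = Pn n z := by
  rw [Pn_apply n (Pn n z)]
  simp only [inner_n_Pn hn]
  rw [Pn_apply]

theorem Pn_n (hn : Orthonormal ℝ n) (i : Fin d) : Pn n (n i) = n i := by
  refine ext_inner_right ℝ fun w => ?_
  rw [Pn_symm, inner_n_Pn hn]

theorem Pn_par (hn : Orthonormal ℝ n) (z : E) : Pn n (z - Pn n z) = 0 := by
  rw [map_sub, Pn_Pn hn, sub_self]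

theorem inner_n_of_Pn_eq_zero (hn : Orthonormal ℝ n) {v : E} (hv : Pn n v = 0) (i : Fin d) :
    ⟪n i, v⟫ = 0 := by
  rw [← inner_n_Pn hn, hv, inner_zero_right]

theorem inner_Pn_of_Pn_eq_zero {v : E} (hv : Pn n v = 0) (z : E) : ⟪v, Pn n z⟫ = 0 := by
  rw [← Pn_symm, hv, inner_zero_left]

theorem inner_Pn_self (hn : Orthonormal ℝ n) (z : E) : ⟪z, Pn n z⟫ = ‖Pn n z‖ ^ 2 := by
  rw [← real_inner_self_eq_norm_sq, Pn_symm, Pn_Pn hn]

theorem norm_Pn_sq (hn : Orthonormal ℝ n) (z : E) : ‖Pn n z‖ ^ 2 = ∑ i, ⟪n i, z⟫ ^ 2 := by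
  rw [← inner_Pn_self hn, ← Pn_symm, inner_Pn_left]
  exact Finset.sum_congr rfl fun i _ => (sq _).symm

theorem pyth (hn : Orthonormal ℝ n) (z : E) : ‖z‖ ^ 2 = ‖Pn n z‖ ^ 2 + ‖z - Pn n z‖ ^ 2 := by
  rw [norm_sub_sq_real, inner_Pn_self hn]
  ring

theorem norm_Pn_le (hn : Orthonormal ℝ n) (z : E) : ‖Pn n z‖ ≤ ‖z‖ := by
  refine abs_le_of_sq_le_sq' ?_ (norm_nonneg _) |>.2
  have := pyth hn z
  nlinarith [sq_nonneg ‖z - Pn n z‖]

theorem norm_par_le (hn : Orthonormal ℝ n) (z : E) : ‖z - Pn n z‖ ≤ ‖z‖ := by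
  refine abs_le_of_sq_le_sq' ?_ (norm_nonneg _) |>.2
  have := pyth hn z
  nlinarith [sq_nonneg ‖Pn n z‖]

theorem opNorm_Pn_le (hn : Orthonormal ℝ n) : ‖Pn n‖ ≤ 1 := by
  exact ContinuousLinearMap.opNorm_le_bound _ zero_le_one fun z => by
    rw [one_mul]; exact norm_Pn_le hn z

theorem abs_inner_n_le (hn : Orthonormal ℝ n) (i : Fin d) (z : E) : |⟪n i, z⟫| ≤ ‖Pn n z‖ := by
  rw [← inner_n_Pn hn]
  have := abs_real_inner_le_norm (n i) (Pn n z)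
  rwa [hn.1 i, one_mul] at this

theorem tr_add (A B : E →L[ℝ] E) : tr (A + B) = tr A + tr B := by
  simp [tr]

theorem tr_sub (A B : E →L[ℝ] E) : tr (A - B) = tr A - tr B := by
  simp [tr]

theorem tr_smul (c : ℝ) (A : E →L[ℝ] E) : tr (c • A) = c * tr A := by
  simp [tr]

theorem tr_neg (A : E →L[ℝ] E) : tr (-A) = -tr A := by
  simp [tr]

theorem tr_eq_sum {ι : Type*} [Fintype ι] (b : OrthonormalBasis ι ℝ E) (A : E →L[ℝ] E) :
    tr A = ∑ i, ⟪A (b i), b i⟫ := by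
  rw [tr, LinearMap.trace_eq_sum_inner _ b]
  exact Finset.sum_congr rfl fun i _ => real_inner_comm _ _

theorem tr_smulRight (φ : E →L[ℝ] ℝ) (v : E) : tr (φ.smulRight v) = φ v := by
  rw [tr_eq_sum (stdOrthonormalBasis ℝ E)]
  conv_rhs => rw [← (stdOrthonormalBasis ℝ E).sum_repr' v]
  simp only [ContinuousLinearMap.smulRight_apply, real_inner_smul_left, map_sum, map_smul,
    smul_eq_mul]
  exact Finset.sum_congr rfl fun i _ => by rw [real_inner_comm, mul_comm]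

theorem tr_comp_smulRight (A : E →L[ℝ] E) (φ : E →L[ℝ] ℝ) (v : E) :
    tr (A.comp (φ.smulRight v)) = φ (A v) := by
  rw [← tr_smulRight]
  congr 1
  ext z
  simp

theorem tr_id : tr (ContinuousLinearMap.id ℝ E) = finrank ℝ E := by
  simp [tr]

theorem tr_sum_Lin {ι : Type*} (s : Finset ι) (F : ι → E →L[ℝ] E) :
    tr (∑ i ∈ s, F i) = ∑ i ∈ s, tr (F i) := by
  simp [tr]

theorem tr_Pn (hn : Orthonormal ℝ n) : tr (Pn n) = d := by
  rw [Pn, tr_sum_Lin]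
  simp [tr_smulRight, hn.1]

theorem tr_comp_Pn (n : Fin d → E) (A : E →L[ℝ] E) :
    tr (A.comp (Pn n)) = ∑ i, ⟪A (n i), n i⟫ := by
  rw [Pn, ContinuousLinearMap.comp_finsetSum, tr_sum_Lin]
  refine Finset.sum_congr rfl fun i _ => ?_
  rw [tr_comp_smulRight, innerSL_apply_apply, real_inner_comm]

theorem pair_add (ε : ℝ) (A B B' : E →L[ℝ] E) : pair ε A (B + B') = pair ε A B + pair ε A B' := by
  simp only [pair, ContinuousLinearMap.comp_add, tr_add]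
  ring

theorem pair_smul (ε c : ℝ) (A B : E →L[ℝ] E) : pair ε A (c • B) = c * pair ε A B := by
  simp only [pair, ContinuousLinearMap.comp_smul, tr_smul]
  ring

theorem pair_smulRight (ε : ℝ) (A : E →L[ℝ] E) (φ : E →L[ℝ] ℝ) (v : E) :
    pair ε A (φ.smulRight v) = ε * φ v - φ (A v) := by
  rw [pair, tr_smulRight, tr_comp_smulRight]

/-- Symmetric positive semidefinite operators. -/
structure Psd (A : E →L[ℝ] E) : Prop where
  symm : ∀ v w, ⟪A v, w⟫ = ⟪v, A w⟫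
  psd : ∀ v, 0 ≤ ⟪A v, v⟫

theorem St.psd' {ε : E → ℝ} {T : E → E →L[ℝ] E} {c : E} {R μ : ℝ} (h : St ε T c R μ) (y : E) :
    Psd (T y) := ⟨h.symm y, h.psd y⟩

theorem Psd.quad_Lin (hA : Psd A) (v w : E) (s : ℝ) :
    ⟪A (v + s • w), v + s • w⟫ = ⟪A w, w⟫ * (s * s) + 2 * ⟪A v, w⟫ * s + ⟪A v, v⟫ := by
  have h : ⟪A w, v⟫ = ⟪A v, w⟫ := by rw [hA.symm, real_inner_comm]
  simp only [map_add, map_smul, inner_add_left, inner_add_right, real_inner_smul_left,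
    real_inner_smul_right, h]
  ring

theorem Psd.cs (hA : Psd A) (v w : E) : ⟪A v, w⟫ ^ 2 ≤ ⟪A v, v⟫ * ⟪A w, w⟫ := by
  have := discrim_le_zero (a := ⟪A w, w⟫) (b := 2 * ⟪A v, w⟫) (c := ⟪A v, v⟫) fun s => by
    rw [← hA.quad_Lin]; exact hA.psd _
  rw [discrim] at this
  nlinarith

theorem Psd.amgm (hA : Psd A) {η : ℝ} (hη : 0 < η) (v w : E) :
    |⟪A v, w⟫| ≤ η * ⟪A v, v⟫ + ⟪A w, w⟫ / (4 * η) := by
  have h1 := hA.psd (v + (1 / (2 * η)) • w)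
  have h2 := hA.psd (v + (-(1 / (2 * η))) • w)
  rw [hA.quad_Lin] at h1 h2
  have e : ∀ s : ℝ, η * (⟪A w, w⟫ * (1 / (2 * η) * (1 / (2 * η))) + 2 * s * (1 / (2 * η)) +
      ⟪A v, v⟫) = η * ⟪A v, v⟫ + ⟪A w, w⟫ / (4 * η) + s := fun s => by
    field_simp
    ring
  have h3 := mul_nonneg hη.le h1
  have h4 := mul_nonneg hη.le h2
  rw [e] at h3
  have h5 := e (-⟪A v, w⟫)
  rw [abs_le]
  constructor
  · linarith
  · nlinarith

theorem Psd.tr_nonneg (hA : Psd A) : 0 ≤ tr A := by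
  rw [tr_eq_sum (stdOrthonormalBasis ℝ E)]
  exact Finset.sum_nonneg fun i _ => hA.psd _

theorem Psd.le_tr (hA : Psd A) (v : E) : ⟪A v, v⟫ ≤ tr A * ‖v‖ ^ 2 := by
  have h1 : ‖A v‖ ^ 2 ≤ ⟪A v, v⟫ * tr A := by
    rw [tr_eq_sum (stdOrthonormalBasis ℝ E), Finset.mul_sum,
      ← (stdOrthonormalBasis ℝ E).sum_sq_inner_left]
    exact Finset.sum_le_sum fun i _ => hA.cs _ _
  have h2 : ⟪A v, v⟫ ^ 2 ≤ ‖A v‖ ^ 2 * ‖v‖ ^ 2 := by
    rw [← mul_pow, ← sq_abs]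
    exact pow_le_pow_left₀ (abs_nonneg _) (abs_real_inner_le_norm _ _) 2
  rcases (hA.psd v).eq_or_lt with h | h
  · rw [← h]
    exact mul_nonneg hA.tr_nonneg (sq_nonneg _)
  · refine le_of_mul_le_mul_left ?_ h
    nlinarith [mul_le_mul_of_nonneg_right h1 (sq_nonneg ‖v‖)]

theorem Psd.abs_le (hA : Psd A) (v w : E) : |⟪A v, w⟫| ≤ tr A * ‖v‖ * ‖w‖ := by
  have h0 := hA.tr_nonneg
  refine abs_le_of_sq_le_sq ?_ (by positivity)
  calc ⟪A v, w⟫ ^ 2 ≤ ⟪A v, v⟫ * ⟪A w, w⟫ := hA.cs v w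
    _ ≤ (tr A * ‖v‖ ^ 2) * (tr A * ‖w‖ ^ 2) :=
      mul_le_mul (hA.le_tr v) (hA.le_tr w) (hA.psd w) (by positivity)
    _ = _ := by ring

theorem Psd.add_le (hA : Psd A) (v w : E) :
    ⟪A (v + w), v + w⟫ ≤ 2 * ⟪A v, v⟫ + 2 * ⟪A w, w⟫ := by
  have h1 := hA.quad_Lin v w 1
  have h2 := hA.psd (v + (-1 : ℝ) • w)
  rw [hA.quad_Lin] at h2
  rw [one_smul] at h1
  linarith

theorem Psd.sub_le (hA : Psd A) (v w : E) :
    ⟪A (v - w), v - w⟫ ≤ 2 * ⟪A v, v⟫ + 2 * ⟪A w, w⟫ := by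
  have := hA.add_le v (-w)
  simpa [sub_eq_add_neg] using this

/-- Compression to the orthogonal complement of `n`. -/
theorem Psd.compress (hA : Psd A) (hn : Orthonormal ℝ n) :
    ∃ A' : E →L[ℝ] E, Psd A' ∧ (∀ v w, ⟪A' v, w⟫ = ⟪A (v - Pn n v), w - Pn n w⟫) ∧
      tr A' = tr A - ∑ i, ⟪A (n i), n i⟫ := by
  have hs : ∀ v w : E, ⟪v - Pn n v, w⟫ = ⟪v, w - Pn n w⟫ := fun v w => by
    rw [inner_sub_left, inner_sub_right, Pn_symm]
  have h : ∀ v w, ⟪((1 - Pn n) * (A * (1 - Pn n))) v, w⟫ = ⟪A (v - Pn n v), w - Pn n w⟫ :=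
    fun v w => hs _ _
  refine ⟨(1 - Pn n) * (A * (1 - Pn n)), ⟨fun v w => ?_, fun v => ?_⟩, h, ?_⟩
  · rw [h, real_inner_comm, real_inner_comm _ v, h, hA.symm]
  · rw [h]
    exact hA.psd _
  · have e : (1 - Pn n) * (1 - Pn n) = 1 - Pn n := by
      ext z
      show z - Pn n z - Pn n (z - Pn n z) = z - Pn n z
      rw [Pn_par hn, sub_zero]
    have c : ∀ B C : E →L[ℝ] E, tr (B * C) = tr (C * B) := fun B C =>
      LinearMap.trace_mul_comm ℝ (B : E →ₗ[ℝ] E) (C : E →ₗ[ℝ] E)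
    rw [c, mul_assoc, e, mul_sub, mul_one, tr_sub, ← tr_comp_Pn]
    rfl

theorem Psd.par_nonneg (hA : Psd A) (hn : Orthonormal ℝ n) :
    0 ≤ tr A - ∑ i, ⟪A (n i), n i⟫ := by
  obtain ⟨A', h1, -, h3⟩ := hA.compress hn
  rw [← h3]
  exact h1.tr_nonneg

theorem Psd.par_le (hA : Psd A) (n : Fin d → E) : tr A - ∑ i, ⟪A (n i), n i⟫ ≤ tr A := by
  exact sub_le_self _ (Finset.sum_nonneg fun i _ => hA.psd _)

theorem Psd.le_par (hA : Psd A) (hn : Orthonormal ℝ n) {v : E} (hv : Pn n v = 0) :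
    ⟪A v, v⟫ ≤ (tr A - ∑ i, ⟪A (n i), n i⟫) * ‖v‖ ^ 2 := by
  obtain ⟨A', h1, h2, h3⟩ := hA.compress hn
  have := h1.le_tr v
  rwa [h2, h3, hv, sub_zero] at this

end Pool.Agent.Lib.MP_8daebb_an.G6
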