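import Pool.Agent.Lib.MP_8daebb_an.G6.Chain

/-! The exceptional set has small mass. -/

open MeasureTheory Metric Set Module Real
open scoped RealInnerProductSpace

namespace Pool.Agent.Lib.MP_8daebb_an.G6

open AS HK

variable {E : Type*} [NormedAddCommGroup E] [InnerProductSpace ℝ E] [FiniteDimensional ℝ E]
  [MeasurableSpace E] [BorelSpace E]

/-- The good points. -/
def Good (T : E → E →L[ℝ] E) (e : E → ℝ) (n : Fin 2 → E) (x₀ : E) (Cg σ r B : ℝ) (J : ℕ) : Set E :=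
  {x | e x ≤ r / (B * Cg) ∧ 16 * ‖Pn n (x - x₀)‖ ^ 2 ≤ 2 ^ J * r ^ 2 ∧ Fs T n r J x ≤ r * σ}

theorem Cell.measurableSet_good {ε : E → ℝ} {T : E → E →L[ℝ] E} {e : E → ℝ} {x₀ : E}
    {A Cg μ σ κ r l l' : ℝ} (h : Cell ε T e x₀ A Cg μ σ κ r l l') (n : Fin 2 → E) (B : ℝ) (J : ℕ) :
    MeasurableSet (Good T e n x₀ Cg σ r B J) := by
  have h1 : Continuous fun x => 16 * ‖Pn n (x - x₀)‖ ^ 2 := by fun_prop
  have h2 := (measurableSet_le h1.measurable (measurable_const (a := 2 ^ J * r ^ 2))).inter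
    (measurableSet_le (h.st.bm_Fs n h.r0 J).meas (measurable_const (a := r * σ)))
  exact (measurableSet_le h.be.meas measurable_const).inter h2

/-- Points that are not calm have small mass. -/
theorem mass_not_calm {f e : E → ℝ} (hf : BM f) (h0 : ∀ y, 0 ≤ f y) (he : BM e) (e0 : ∀ y, 0 ≤ e y)
    {x₀ : E} {R R' M ρ : ℝ} (hR : R' ≤ R) (hρ : 0 < ρ) (h : ∫ y in ball x₀ R, e y * f y ≤ M) :
    ∫ y in ball x₀ R' \ {y | e y ≤ ρ}, f y ≤ M / ρ := by
  have e1 : ball x₀ R' \ {y | e y ≤ ρ} = ball x₀ R' ∩ {y | ρ < e y} := by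
    ext y
    simp
  rw [e1]
  refine (markov hf h0 he.meas e0 measurableSet_ball isBounded_ball
    ((he.mul hf).integrableOn isBounded_ball) hρ).trans (div_le_div_of_nonneg_right ?_ hρ.le)
  exact le_trans (setIntegral_mono_set ((he.mul hf).integrableOn isBounded_ball)
    (Filter.Eventually.of_forall fun y => mul_nonneg (e0 y) (h0 y))
    (LE.le.eventuallyLE (ball_subset_ball hR))) h

/-- Subadditivity of the exceptional mass. -/
theorem mass_diff_inter_le {f : E → ℝ} (hf : BM f) (h0 : ∀ y, 0 ≤ f y) {x₀ : E} {R : ℝ}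
    {Γ Γ' : Set E} (hΓ : MeasurableSet Γ) (hΓ' : MeasurableSet Γ') :
    ∫ y in ball x₀ R \ (Γ ∩ Γ'), f y ≤ (∫ y in ball x₀ R \ Γ, f y) + ∫ y in ball x₀ R \ Γ', f y := by
  have i1 : IntegrableOn f (ball x₀ R \ Γ) := hf.integrableOn (isBounded_ball.subset sdiff_subset)
  have i2 : IntegrableOn f (ball x₀ R \ Γ') := hf.integrableOn (isBounded_ball.subset sdiff_subset)
  rw [sdiff_inter, ← integral_add_measure i1 i2]
  exact integral_mono_measure (Measure.restrict_union_le _ _) (Filter.Eventually.of_forall h0)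
    (Integrable.add_measure i1 i2)

theorem num_Mass {m : ℕ} {c κ κ₂ r B l l' : ℝ} (h : Par m c κ κ₂ r B l l') (hr : 0 < r)
    (hκ : 0 < κ) (hB : 0 < B) (hl : 0 < l) (hl' : 0 < l') (hll : l ≤ l') :
    κ * (l' / B) ^ 2 * (l' ^ m / l' ^ 2) ≤ κ₂ * (l ^ m / l ^ 2) ∧
      κ * (B / r) * (l' ^ m / l' ^ 2) ≤ κ₂ * (l ^ m / l ^ 2) := by
  have key : ∀ X, 0 ≤ X → X ≤ (l' / B) ^ 2 + B / r →
      κ * X * (l' ^ m / l' ^ 2) ≤ κ₂ * (l ^ m / l ^ 2) := by
    intro X hX hX'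
    have h1 : κ * (l' / l) ^ m * X ≤ κ₂ := le_trans (by gcongr) h.p6
    have h2 : 0 ≤ κ * (l' / l) ^ m * X := by positivity
    calc _ = κ * (l' / l) ^ m * X * (l ^ m / l' ^ 2) := by rw [div_pow]; field_simp
      _ ≤ _ := mul_le_mul h1 (by gcongr) (by positivity) (h2.trans h1)
  exact ⟨key _ (by positivity) (le_add_of_nonneg_right (by positivity)),
    key _ (by positivity) (le_add_of_nonneg_left (by positivity))⟩

theorem core_mass {A Cg CH : ℝ} (hA : 2 ≤ A) (hCg : 1 ≤ Cg) (hCH : 1 ≤ CH) :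
    ∃ C ≥ (1 : ℝ), ∀ (ε : E → ℝ) (T : E → E →L[ℝ] E) (e : E → ℝ) (x₀ : E)
    (c μ σ κ κ₂ r B l l' : ℝ), Cell ε T e x₀ A Cg μ σ κ r l l' →
    Par (finrank ℝ E) c κ κ₂ r B l l' → 0 < c → A * c ≤ 1 / 4 → ∀ n : Fin 2 → E,
    Orthonormal ℝ n → l' ^ 2 * P (l' ^ 2) (tpar T n) x₀ ≤ CH * κ * σ →
    Hs ε T n (l' ^ 2 / 2) x₀ ≤ CH * κ * σ → ∀ J : ℕ, 2 ^ J * r ^ 2 ≤ B ^ 2 →
    B ^ 2 ≤ 2 * (2 ^ J * r ^ 2) →
    ∫ y in ball x₀ (A * l) \ Good T e n x₀ Cg σ r B J, tau T y ≤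
      C * κ₂ * σ * (l ^ finrank ℝ E / l ^ 2) := by
  obtain ⟨C₁, hC₁, H₁⟩ := av_Fs (E := E)
  have k1 : 0 ≤ 32 * ((2 * π) ^ hd E * exp (1 / 4) * CH) := by positivity
  have k2 : 0 ≤ C₁ * Cg * CH := by positivity
  refine ⟨Cg + 32 * ((2 * π) ^ hd E * exp (1 / 4) * CH) + C₁ * Cg * CH, by linarith,
    fun ε T e x₀ c μ σ κ κ₂ r B l l' h hp hc0 hc n hn hτ hH J hJ hJ' => ?_⟩
  have hr := h.r0
  have hσ := h.σ0
  have hκ := h.κ0
  obtain ⟨hB, hl, hl', hBl, hll, -, -, hκB, -⟩ := hp.basic hr hκ hc0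
    (by linarith [mul_le_mul_of_nonneg_right hA hc0.le])
  have hb0 : 0 < 2 ^ J * r ^ 2 := by positivity
  obtain ⟨hsb, -, hAl, hR, hR2, hB4, -, -, -⟩ :=
    len_facts hA hc hB hl hl' hBl hll hp.l_le hb0 hJ hJ'
  obtain ⟨n1, n2⟩ := num_Mass hp hr hκ hB hl hl' (by linarith)
  have hll2 : 0 < l' ^ 2 := by positivity
  have hsq : ∀ y ∈ ball x₀ (A * l), ‖y - x₀‖ ^ 2 ≤ l' ^ 2 / 16 := fun y hy =>
    sq_le_quarter (norm_nonneg _) ((mem_ball_iff_norm.1 hy).le.trans hAl)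
  have hCg0 : 0 < Cg := by linarith
  have m1 : MeasurableSet {y | e y ≤ r / (B * Cg)} := measurableSet_le h.be.meas measurable_const
  have cP : Continuous fun y => ‖Pn n (y - x₀)‖ ^ 2 := by fun_prop
  have m2 : MeasurableSet {y | ‖Pn n (y - x₀)‖ ^ 2 ≤ 2 ^ J * r ^ 2 / 16} :=
    measurableSet_le cP.measurable measurable_const
  have bF := h.st.bm_Fs n hr J
  have m3 : MeasurableSet ({y | e y ≤ r / (B * Cg)}ᶜ ∪ {y | Fs T n r J y ≤ r * σ}) :=
    m1.compl.union (measurableSet_le bF.meas measurable_const)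
  have e1 : Good T e n x₀ Cg σ r B J = {y | e y ≤ r / (B * Cg)} ∩
      ({y | ‖Pn n (y - x₀)‖ ^ 2 ≤ 2 ^ J * r ^ 2 / 16} ∩
        ({y | e y ≤ r / (B * Cg)}ᶜ ∪ {y | Fs T n r J y ≤ r * σ})) := by
    ext y
    simp only [Good, mem_ofPred_eq, mem_inter_iff, mem_union, mem_compl_iff]
    constructor
    · exact fun ⟨a1, a2, a3⟩ => ⟨a1, by linarith, Or.inr a3⟩
    · exact fun ⟨a1, a2, a3⟩ => ⟨a1, by linarith, a3.resolve_left (not_not.2 a1)⟩
  have s0 := mass_diff_inter_le h.st.bm_tau h.st.tau_nonneg (x₀ := x₀) (R := A * l) m1 (m2.inter m3)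
  have s0' := mass_diff_inter_le h.st.bm_tau h.st.tau_nonneg (x₀ := x₀) (R := A * l) m2 m3
  have hL : 0 < l ^ finrank ℝ E / l ^ 2 := by positivity
  -- points that are not calm
  have s1 : ∫ y in ball x₀ (A * l) \ {y | e y ≤ r / (B * Cg)}, tau T y ≤
      Cg * (κ₂ * σ * (l ^ finrank ℝ E / l ^ 2)) := by
    refine (mass_not_calm h.st.bm_tau h.st.tau_nonneg h.be h.e0 le_rfl (by positivity)
      h.few).trans ?_
    calc _ = Cg * (κ * (B / r) * σ * (l ^ finrank ℝ E / l ^ 2)) := by field_simp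
      _ ≤ _ := by gcongr
  -- points far from the plane
  have s2 : ∫ y in ball x₀ (A * l) \ {y | ‖Pn n (y - x₀)‖ ^ 2 ≤ 2 ^ J * r ^ 2 / 16}, tau T y ≤
      32 * ((2 * π) ^ hd E * exp (1 / 4) * CH) * (κ₂ * σ * (l ^ finrank ℝ E / l ^ 2)) := by
    have e2 : ball x₀ (A * l) \ {y | ‖Pn n (y - x₀)‖ ^ 2 ≤ 2 ^ J * r ^ 2 / 16} =
        ball x₀ (A * l) ∩ {y | 2 ^ J * r ^ 2 / 16 < ‖Pn n (y - x₀)‖ ^ 2} := by
      ext y
      simp
    rw [e2]
    refine (markov h.st.bm_tau h.st.tau_nonneg cP.measurable (fun y => sq_nonneg _)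
      measurableSet_ball isBounded_ball
      ((h.st.bm_tau.integrableOn isBounded_ball).continuousOn_mul_of_subset cP.continuousOn
        (isCompact_closedBall x₀ (A * l)) measurableSet_ball ball_subset_closedBall)
      (by positivity)).trans ?_
    have a1 := moment_le_Hs h.st hn (t := l' ^ 2 / 2) (a := 1) (by positivity) (x := x₀)
      measurableSet_ball fun y hy => by linarith [hsq y hy]
    rw [show 4 * π * (l' ^ 2 / 2) = 2 * π * l' ^ 2 by ring,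
      mul_rpow (by positivity) hll2.le, rpow_hd_eq hll2, sqrt_sq hl'.le] at a1
    have a2 : B ^ 2 / 32 ≤ 2 ^ J * r ^ 2 / 16 := by linarith
    calc _ ≤ (2 * π) ^ hd E * l' ^ finrank ℝ E * exp (1 / 4) * (CH * κ * σ) / (B ^ 2 / 32) :=
          div_le_div₀ (by positivity) (a1.trans (by gcongr)) (by positivity) a2
      _ = 32 * ((2 * π) ^ hd E * exp (1 / 4) * CH) *
          (κ * (l' / B) ^ 2 * (l' ^ finrank ℝ E / l' ^ 2) * σ) := by field_simp
      _ ≤ 32 * ((2 * π) ^ hd E * exp (1 / 4) * CH) * (κ₂ * (l ^ finrank ℝ E / l ^ 2) * σ) := by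
          gcongr
      _ = _ := by ring
  -- calm points with a large dyadic sum
  have s3 : ∫ y in ball x₀ (A * l) \ ({y | e y ≤ r / (B * Cg)}ᶜ ∪ {y | Fs T n r J y ≤ r * σ}),
      tau T y ≤ C₁ * Cg * CH * (κ₂ * σ * (l ^ finrank ℝ E / l ^ 2)) := by
    have e2 : ball x₀ (A * l) \ ({y | e y ≤ r / (B * Cg)}ᶜ ∪ {y | Fs T n r J y ≤ r * σ}) =
        (ball x₀ (A * l) ∩ {y | e y ≤ r / (B * Cg)}) ∩ {y | r * σ < Fs T n r J y} := by
      ext y
      simp [and_assoc]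
    have hbd : Bornology.IsBounded (ball x₀ (A * l) ∩ {y | e y ≤ r / (B * Cg)}) :=
      isBounded_ball.subset inter_subset_left
    rw [e2]
    refine (markov h.st.bm_tau h.st.tau_nonneg bF.meas (h.st.Fs_nonneg hn hr J)
      (measurableSet_ball.inter m1) hbd ((bF.mul h.st.bm_tau).integrableOn hbd)
      (by positivity)).trans ?_
    have a0 : r / (B * Cg) ≤ 1 / Cg := by
      rw [← div_div]
      exact div_le_div_of_nonneg_right ((div_le_one hB).2 hp.r_le) hCg0.le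
    have a1 := H₁ ε T x₀ _ μ h.st n hn r (l' ^ 2 / 4) (Cg * σ) J x₀ _ hr (by linarith)
      (by positivity) (measurableSet_ball.inter m1) fun y hy => ⟨by linarith [hsq y hy.1],
        fun t ht ht' => (h.calm y (by linarith [mem_ball_iff_norm.1 hy.1]) (le_trans hy.2 a0) t ht
          (by linarith)).2⟩
    rw [show 4 * (l' ^ 2 / 4) = l' ^ 2 by ring] at a1
    have a2 : (l' ^ 2 / 4) ^ hd E ≤ l' ^ finrank ℝ E := rpow_hd_le (by positivity) hl' (by linarith)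
    have a3 : P (l' ^ 2) (tpar T n) x₀ ≤ CH * κ * σ / l' ^ 2 := by
      rw [le_div_iff₀ hll2, mul_comm]
      exact hτ
    have a4 := P_nonneg hll2.le (h.st.tpar_nonneg hn) x₀
    calc _ ≤ C₁ * (Cg * σ) * B * l' ^ finrank ℝ E * (CH * κ * σ / l' ^ 2) / (r * σ) :=
          div_le_div_of_nonneg_right (a1.trans (by gcongr)) (by positivity)
      _ = C₁ * Cg * CH * (κ * (B / r) * (l' ^ finrank ℝ E / l' ^ 2) * σ) := by field_simp
      _ ≤ C₁ * Cg * CH * (κ₂ * (l ^ finrank ℝ E / l ^ 2) * σ) := by gcongr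
      _ = _ := by ring
  rw [e1]
  linarith

end Pool.Agent.Lib.MP_8daebb_an.G6
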