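import Pool.Agent.Lib.MP_8daebb_an.G6.Time

/-! The moving cutoff: from the finest scale up to the width of the fixed cutoff. -/

open MeasureTheory Metric Set Module Real
open scoped RealInnerProductSpace

namespace Pool.Agent.Lib.MP_8daebb_an.G6

open AS HK

variable {E : Type*} [NormedAddCommGroup E] [InnerProductSpace ℝ E] [FiniteDimensional ℝ E]
  [MeasurableSpace E] [BorelSpace E]

/-- The sum over dyadic times of the tangential energy. -/
noncomputable def Fs (T : E → E →L[ℝ] E) (n : Fin 2 → E) (r : ℝ) (J : ℕ) (x : E) : ℝ :=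
  ∑ j ∈ Finset.range J, √(2 ^ j * r ^ 2) * (8 * 2 ^ j * r ^ 2 * P (8 * 2 ^ j * r ^ 2) (tpar T n) x)

theorem St.bm_Fs {ε : E → ℝ} {T : E → E →L[ℝ] E} {c : E} {R μ : ℝ} (h : St ε T c R μ)
    (n : Fin 2 → E) {r : ℝ} (hr : 0 < r) (J : ℕ) : BM (Fs T n r J) := by
  refine BM.sum _ fun j _ => ?_
  exact (((h.bm_tpar n).P (by positivity)).const_mul _).const_mul _

theorem St.Fs_nonneg {ε : E → ℝ} {T : E → E →L[ℝ] E} {c : E} {R μ : ℝ} (h : St ε T c R μ)
    {n : Fin 2 → E} (hn : Orthonormal ℝ n) {r : ℝ} (hr : 0 < r) (J : ℕ) (x : E) :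
    0 ≤ Fs T n r J x := by
  refine Finset.sum_nonneg fun j _ => ?_
  have := P_nonneg (t := 8 * 2 ^ j * r ^ 2) (by positivity) (h.tpar_nonneg hn) x
  positivity

theorem sum_sqrt_le {r : ℝ} (hr : 0 < r) (J : ℕ) :
    ∑ j ∈ Finset.range J, √(2 ^ j * r ^ 2) ≤ 3 * √(2 ^ J * r ^ 2) := by
  induction J with
  | zero => simp only [Finset.range_zero, Finset.sum_empty]; positivity
  | succ J ih =>
    rw [Finset.sum_range_succ]
    have h0 : (0 : ℝ) ≤ 2 ^ J * r ^ 2 := by positivity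
    have h1 : 4 / 3 * √(2 ^ J * r ^ 2) ≤ √(2 ^ (J + 1) * r ^ 2) := by
      refine le_sqrt_of_sq_le ?_
      rw [mul_pow, sq_sqrt h0, pow_succ 2 J]
      nlinarith
    linarith

/-- One dyadic step of the moving cutoff. -/
theorem step_Ph1 : ∃ C ≥ (1 : ℝ), ∀ (ε : E → ℝ) (T : E → E →L[ℝ] E) (c : E) (R μ : ℝ),
    St ε T c R μ → ∀ n : Fin 2 → E, Orthonormal ℝ n → ∀ (i : Fin 2) (η t : ℝ) (x : E),
    0 < t → 8 * t ≤ R ^ 2 → ‖x - c‖ ≤ R →
    (∀ s, t ≤ s → s ≤ R ^ 2 → rad T s x + s * P s (fun y => |bet ε T y|) x ≤ η) →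
    |mom ε n 0 (n i) (2 * t) (2 * t) x - mom ε n 0 (n i) t t x| ≤
      C * √t * (8 * t * P (8 * t) (tpar T n) x + η + μ * t) := by
  obtain ⟨C₁, hC₁, H₁⟩ := time_step (E := E)
  obtain ⟨C₂, hC₂, H₂⟩ := Hs_le (E := E)
  have h2 : (1 : ℝ) ≤ 2 ^ hd E := one_le_rpow (by norm_num) hd_nonneg
  have h4 : (1 : ℝ) ≤ 4 ^ hd E := one_le_rpow (by norm_num) hd_nonneg
  refine ⟨12 * C₁ * 4 ^ hd E * (2 ^ hd E + 6 * C₂), ?_, ?_⟩
  · have h5 : (1 : ℝ) ≤ 12 * C₁ := by linarith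
    have h6 : (1 : ℝ) ≤ 2 ^ hd E + 6 * C₂ := by linarith
    exact one_le_mul_of_one_le_of_one_le (one_le_mul_of_one_le_of_one_le h5 h4) h6
  intro ε T c R μ h n hn i η t x ht hR hx hc
  have hΛ : |(0 : ℝ)| + 2 * ‖n i‖ * √(0 + 1 * (2 * t)) ≤ 3 * √t := by
    rw [abs_zero, hn.norm_eq_one i]
    have : √(0 + 1 * (2 * t)) ≤ 3 / 2 * √t := by
      refine sqrt_le_iff.2 ⟨by positivity, ?_⟩
      rw [mul_pow, sq_sqrt ht.le]
      linarith
    linarith
  have h1 := H₁ ε T c R μ h n hn 0 1 t (2 * t) 0 (4 * t) (3 * √t) (n i) x (Pn_n hn i) ht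
    (by linarith) le_rfl zero_le_one le_rfl (by linarith) (by linarith) (by linarith)
    (by linarith) hx hΛ
  simp only [zero_add, one_mul] at h1
  have ht4 : 0 < 4 * t := by positivity
  have ht8 : 0 < 8 * t := by positivity
  have h3 := H₂ ε T c R μ h n hn (4 * t) x ht4 (by linarith) hx
  rw [show 2 * (4 * t) = 8 * t by ring] at h3
  have h5 := P_le_of_le_mul (h.bm_tpar n) (h.tpar_nonneg hn) (c := 2) (s := 8 * t) ht4
    (by linarith) (by linarith) x
  have h6 := hc (4 * t) (by linarith) (by linarith)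
  have h7 := hc (8 * t) (by linarith) hR
  have h8 := h.rad_nonneg ht4 x
  have h9 := h.rad_nonneg ht8 x
  have h10 := P_nonneg ht4.le (f := fun y => |bet ε T y|) (fun y => abs_nonneg _) x
  have h11 := P_nonneg ht8.le (f := fun y => |bet ε T y|) (fun y => abs_nonneg _) x
  have h12 := P_nonneg ht8.le (h.tpar_nonneg hn) x
  have hμ := h.μ0
  have h13 : 0 ≤ 4 * t * P (4 * t) (fun y => |bet ε T y|) x := by positivity
  have h14 : 0 ≤ 8 * t * P (8 * t) (fun y => |bet ε T y|) x := by positivity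
  have h15 : 0 ≤ 8 * t * P (8 * t) (tpar T n) x := by positivity
  have h16 : 0 ≤ μ * t := by positivity
  have hη : 0 ≤ η := by linarith
  have h17 : Hs ε T n (4 * t) x ≤
      4 * C₂ * (8 * t * P (8 * t) (tpar T n) x + η + μ * t) := by
    refine h3.trans ?_
    rw [mul_comm 4 C₂, mul_assoc C₂]
    refine mul_le_mul_of_nonneg_left ?_ (by linarith)
    linarith
  have h18 : t * P (4 * t) (tpar T n) x ≤
      2 ^ hd E * (8 * t * P (8 * t) (tpar T n) x + η + μ * t) := by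
    calc _ ≤ t * (2 ^ hd E * P (8 * t) (tpar T n) x) := by gcongr
      _ = 2 ^ hd E * (t * P (8 * t) (tpar T n) x) := by ring
      _ ≤ _ := by
        refine mul_le_mul_of_nonneg_left ?_ (by linarith)
        linarith
  have h19 : 2 * (μ * t) ≤ 2 * C₂ * (8 * t * P (8 * t) (tpar T n) x + η + μ * t) := by
    rw [mul_assoc 2 C₂]
    refine mul_le_mul_of_nonneg_left ?_ (by norm_num)
    nlinarith
  refine h1.trans ?_
  rw [mul_div_cancel_right₀ _ ht.ne']
  have hq := sqrt_nonneg t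
  calc _ = 12 * C₁ * 4 ^ hd E * √t * (t * P (4 * t) (tpar T n) x + Hs ε T n (4 * t) x +
        2 * (μ * t)) := by field_simp; ring
    _ ≤ 12 * C₁ * 4 ^ hd E * √t * ((2 ^ hd E + 6 * C₂) *
        (8 * t * P (8 * t) (tpar T n) x + η + μ * t)) := by
        refine mul_le_mul_of_nonneg_left ?_ (by positivity)
        linarith
    _ = _ := by ring

theorem phase1 : ∃ C ≥ (1 : ℝ), ∀ (ε : E → ℝ) (T : E → E →L[ℝ] E) (c : E) (R μ : ℝ),
    St ε T c R μ → ∀ n : Fin 2 → E, Orthonormal ℝ n → ∀ (i : Fin 2) (r η D : ℝ) (J : ℕ) (x : E),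
    0 < r → 4 * (2 ^ J * r ^ 2) ≤ R ^ 2 → ‖x - c‖ ≤ R →
    (∀ t, r ^ 2 ≤ t → t ≤ R ^ 2 →
      rad T t x + t * P t (fun y => |bet ε T y|) x ≤ η ∧ t * P t (tau T) x ≤ D) →
    |mom ε n 0 (n i) (2 ^ J * r ^ 2) (2 ^ J * r ^ 2) x| ≤
      C * (r * (D + η) + √(2 ^ J * r ^ 2) * (η + μ * (2 ^ J * r ^ 2)) + Fs T n r J x) := by
  obtain ⟨C₁, hC₁, H₁⟩ := step_Ph1 (E := E)
  refine ⟨4 * π * exp 1 + 3 * C₁, by
    have := pi_pos
    have := exp_pos 1
    have : 0 < 4 * π * exp 1 := by positivity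
    linarith, ?_⟩
  intro ε T c R μ h n hn i r η D J x hr hJ hx hc
  have hr2 : 0 < r ^ 2 := by positivity
  have h2J : (1 : ℝ) ≤ 2 ^ J := one_le_pow₀ (by norm_num)
  have hrR : r ^ 2 ≤ R ^ 2 := by nlinarith
  have hb0 := P_nonneg hr2.le (f := fun y => |bet ε T y|) (fun y => abs_nonneg _) x
  have ht0 := P_nonneg hr2.le h.tau_nonneg x
  have hrad := h.rad_nonneg hr2 x
  obtain ⟨hc1, hc2⟩ := hc (r ^ 2) le_rfl hrR
  have hη : 0 ≤ η := le_trans (by positivity) hc1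
  have hD : 0 ≤ D := le_trans (by positivity) hc2
  have hμ := h.μ0
  have hstart : |mom ε n 0 (n i) (r ^ 2) (r ^ 2) x| ≤ 4 * π * exp 1 * (r * (D + η)) := by
    have hΛ : |(0 : ℝ)| + 2 * ‖n i‖ * √(r ^ 2) ≤ 2 * r := by
      rw [abs_zero, hn.norm_eq_one i, sqrt_sq hr.le]; linarith
    have hb := abs_integral_le_P (h.bm_tau.add h.bm_bet.abs) hr2 (x := x)
      (k := fun y => ε y * Kk n 0 (n i) (r ^ 2) (r ^ 2) (y - x))
      (C := 4 * π * exp 1 * r * r ^ 2) fun y => by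
        have h1 := abs_Kk_le hn (Pn_n hn i) hr2 hr2 le_rfl le_rfl hΛ (y - x)
        rw [div_self hr2.ne', one_rpow] at h1
        have h2 := abs_eps_le h y
        have h3 := h.tau_nonneg y
        rw [abs_mul]
        calc _ ≤ (tau T y + |bet ε T y|) / 2 *
              (4 * π * exp 1 * (2 * r) * 1 * r ^ 2 * G (r ^ 2) (y - x)) := by gcongr
          _ = _ := by ring
    rw [P_add h.bm_tau h.bm_bet.abs hr2] at hb
    refine hb.trans ?_
    have hpi : 0 < 4 * π * exp 1 * r := by positivity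
    calc _ = 4 * π * exp 1 * r * (r ^ 2 * P (r ^ 2) (tau T) x +
          r ^ 2 * P (r ^ 2) (fun y => |bet ε T y|) x) := by ring
      _ ≤ 4 * π * exp 1 * r * (D + η) := by gcongr; linarith
      _ = _ := by ring
  have hind : ∀ K ≤ J, |mom ε n 0 (n i) (2 ^ K * r ^ 2) (2 ^ K * r ^ 2) x| ≤
      4 * π * exp 1 * (r * (D + η)) + C₁ * (Fs T n r K x +
        (∑ j ∈ Finset.range K, √(2 ^ j * r ^ 2)) * (η + μ * (2 ^ J * r ^ 2))) := by
    intro K
    induction K with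
    | zero =>
      intro _
      simpa [Fs] using hstart
    | succ K ih =>
      intro hK
      have ih := ih (by omega)
      have hKJ : (2 : ℝ) ^ (K + 1) ≤ 2 ^ J := pow_le_pow_right₀ (by norm_num) hK
      rw [pow_succ] at hKJ
      have h2K : (1 : ℝ) ≤ 2 ^ K := one_le_pow₀ (by norm_num)
      have ht : 0 < 2 ^ K * r ^ 2 := by positivity
      have hs := H₁ ε T c R μ h n hn i η (2 ^ K * r ^ 2) x ht (by nlinarith) hx
        (fun t h1 h2 => (hc t (by nlinarith) h2).1)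
      have e1 : (2 : ℝ) ^ (K + 1) * r ^ 2 = 2 * (2 ^ K * r ^ 2) := by ring
      have e2 : Fs T n r (K + 1) x = Fs T n r K x + √(2 ^ K * r ^ 2) *
          (8 * (2 ^ K * r ^ 2) * P (8 * (2 ^ K * r ^ 2)) (tpar T n) x) := by
        rw [Fs, Finset.sum_range_succ, ← mul_assoc 8]
        rfl
      rw [e1, e2, Finset.sum_range_succ]
      have h3 : μ * (2 ^ K * r ^ 2) ≤ μ * (2 ^ J * r ^ 2) := by
        gcongr
        · norm_num
        · omega
      have h4 : C₁ * √(2 ^ K * r ^ 2) * (μ * (2 ^ K * r ^ 2)) ≤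
          C₁ * √(2 ^ K * r ^ 2) * (μ * (2 ^ J * r ^ 2)) := by gcongr
      have h5 := abs_sub_abs_le_abs_sub
        (mom ε n 0 (n i) (2 * (2 ^ K * r ^ 2)) (2 * (2 ^ K * r ^ 2)) x)
        (mom ε n 0 (n i) (2 ^ K * r ^ 2) (2 ^ K * r ^ 2) x)
      nlinarith
  have h1 := hind J le_rfl
  have h2 := sum_sqrt_le hr J
  have h3 := h.Fs_nonneg hn hr J x
  have h4 : 0 ≤ η + μ * (2 ^ J * r ^ 2) := by positivity
  have h5 : (∑ j ∈ Finset.range J, √(2 ^ j * r ^ 2)) * (η + μ * (2 ^ J * r ^ 2)) ≤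
      3 * √(2 ^ J * r ^ 2) * (η + μ * (2 ^ J * r ^ 2)) := by gcongr
  have h6 : 0 ≤ r * (D + η) := by positivity
  have h7 : 0 ≤ √(2 ^ J * r ^ 2) * (η + μ * (2 ^ J * r ^ 2)) := by positivity
  have h8 : 0 < 4 * π * exp 1 := by positivity
  have h9 : 0 ≤ C₁ := by linarith
  refine h1.trans ?_
  generalize 4 * π * exp 1 = a at *
  generalize r * (D + η) = u at *
  generalize Fs T n r J x = w at *
  have h10 := mul_le_mul_of_nonneg_left h5 h9
  rw [mul_assoc 3] at h10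
  generalize √(2 ^ J * r ^ 2) * (η + μ * (2 ^ J * r ^ 2)) = v at *
  nlinarith [mul_nonneg h8.le h7, mul_nonneg h8.le h3, mul_nonneg h9 h6, mul_nonneg h9 h3]

omit [InnerProductSpace ℝ E] [FiniteDimensional ℝ E] [MeasurableSpace E] [BorelSpace E] in
theorem bdd_Ph1 {Γ : Set E} {x₀ : E} {S : ℝ} (h : ∀ x ∈ Γ, ‖x - x₀‖ ^ 2 ≤ S) :
    Bornology.IsBounded Γ := by
  refine (isBounded_closedBall (x := x₀) (r := √S)).subset fun x hx => ?_
  rw [mem_closedBall, dist_eq_norm]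
  exact le_sqrt_of_sq_le (h x hx)

omit [FiniteDimensional ℝ E] [MeasurableSpace E] [BorelSpace E] in
theorem ker_Ph1 {s S : ℝ} (hs : 0 < s) (hsS : s ≤ S) {x x₀ : E} (hx : ‖x - x₀‖ ^ 2 ≤ S) (y : E) :
    G s (x - y) ≤ 2 ^ hd E * exp (1 / 8) * (16 * π) ^ hd E * S ^ hd E * G (4 * S) (y - x₀) *
      G (2 * s) (x - y) := by
  have hS : 0 < S := hs.trans_le hsS
  have hG := G_pos (V := E) (show 0 < 2 * s by positivity) (x - y)
  rw [G_eq_two hs]
  refine mul_le_mul_of_nonneg_right ?_ hG.le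
  have e1 : (16 * π) ^ hd E * S ^ hd E * G (4 * S) (y - x₀) = exp (-‖y - x₀‖ ^ 2 / (16 * S)) := by
    unfold G
    rw [← mul_rpow (by positivity) hS.le, show 4 * π * (4 * S) = 16 * π * S by ring,
      rpow_neg (by positivity), show 4 * (4 * S) = 16 * S by ring]
    have : 0 < (16 * π * S) ^ hd E := by positivity
    field_simp
  have h1 : ‖y - x₀‖ ≤ ‖x - y‖ + ‖x - x₀‖ := by
    have := norm_sub_le (x - x₀) (x - y)
    rw [show x - x₀ - (x - y) = y - x₀ by abel] at this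
    linarith
  have h2 : ‖y - x₀‖ ^ 2 ≤ 2 * ‖x - y‖ ^ 2 + 2 * S := by
    have h3 := norm_nonneg (y - x₀)
    have h4 : ‖y - x₀‖ ^ 2 ≤ (‖x - y‖ + ‖x - x₀‖) ^ 2 := by gcongr
    nlinarith [sq_nonneg (‖x - y‖ - ‖x - x₀‖)]
  have h3 : ‖x - y‖ ^ 2 / S ≤ ‖x - y‖ ^ 2 / s := by gcongr
  have h4 : ‖y - x₀‖ ^ 2 / S ≤ 2 * (‖x - y‖ ^ 2 / S) + 2 := by
    rw [div_le_iff₀ hS]
    have : (2 * (‖x - y‖ ^ 2 / S) + 2) * S = 2 * ‖x - y‖ ^ 2 + 2 * S := by field_simp
    linarith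
  calc _ ≤ 2 ^ hd E * (exp (1 / 8) * exp (-‖y - x₀‖ ^ 2 / (16 * S))) := by
        refine mul_le_mul_of_nonneg_left ?_ (by positivity)
        rw [← exp_add, exp_le_exp, show -‖y - x₀‖ ^ 2 / (16 * S) = -(‖y - x₀‖ ^ 2 / S) / 16 by
          field_simp]
        linarith
    _ = _ := by rw [← e1]; ring

/-- Averaging over points of bounded density. -/
theorem av_calm : ∃ C ≥ (1 : ℝ), ∀ (f h : E → ℝ), BM f → BM h → (∀ y, 0 ≤ f y) → (∀ y, 0 ≤ h y) →
    ∀ (s S D : ℝ) (x₀ : E) (Γ : Set E), 0 < s → s ≤ S → 0 < D → MeasurableSet Γ →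
    (∀ x ∈ Γ, ‖x - x₀‖ ^ 2 ≤ S ∧ 2 * s * P (2 * s) f x ≤ D) →
    ∫ x in Γ, s * P s h x * f x ≤ C * D * S ^ hd E * P (4 * S) h x₀ := by
  have hcav := cAV_pos (V := E)
  refine ⟨2 ^ hd E * exp (1 / 8) * (16 * π) ^ hd E * cAV E / 2 + 1,
    le_add_of_nonneg_left (by positivity), ?_⟩
  intro f h hf hh hf0 hh0 s S D x₀ Γ hs hsS hD hΓ hc
  have hS : 0 < S := hs.trans_le hsS
  have hbd : Bornology.IsBounded Γ := bdd_Ph1 fun x hx => (hc x hx).1
  have hg : BM (Γ.indicator f) := hf.indicator hΓ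
  have hg0 : ∀ y, 0 ≤ Γ.indicator f y := fun y => indicator_nonneg (fun y _ => hf0 y) y
  have hgi : Integrable (Γ.indicator f) := (integrable_indicator_iff hΓ).2 (hf.integrableOn hbd)
  have hs2 : 0 < 2 * s := by positivity
  have hP2 : ∀ y, P (2 * s) (Γ.indicator f) y ≤ D / (2 * s) * cAV E := by
    intro y
    obtain ⟨hb, hle⟩ := P_div_le hf hf0 hs2 (D := fun x => max (P (2 * s) f x) (D / (2 * s)))
      ((hf.P hs2).meas.max measurable_const) (η := D / (2 * s)) (by positivity)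
      (fun x => le_max_right _ _) (fun x => le_max_left _ _) y
    calc _ ≤ P (2 * s) (fun x => D / (2 * s) * (f x / max (P (2 * s) f x) (D / (2 * s)))) y := by
          refine P_mono hg (hb.const_mul _) hs2 (fun x => ?_) y
          by_cases hx : x ∈ Γ
          · have h1 : P (2 * s) f x ≤ D / (2 * s) := by
              rw [le_div_iff₀ hs2, mul_comm]; exact (hc x hx).2
            rw [indicator_of_mem hx, max_eq_right h1]
            apply le_of_eq
            field_simp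
          · rw [indicator_of_notMem hx]
            have := hf0 x
            have : 0 < max (P (2 * s) f x) (D / (2 * s)) :=
              lt_max_of_lt_right (by positivity)
            positivity
      _ ≤ _ := by
          rw [P_const_mul]
          gcongr
  have hP1 : ∀ y, P s (Γ.indicator f) y ≤ 2 ^ hd E * exp (1 / 8) * (16 * π) ^ hd E * S ^ hd E *
      G (4 * S) (y - x₀) * (D / (2 * s) * cAV E) := by
    intro y
    have hG := G_pos (V := E) (show 0 < 4 * S by positivity) (y - x₀)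
    calc _ ≤ ∫ x, 2 ^ hd E * exp (1 / 8) * (16 * π) ^ hd E * S ^ hd E * G (4 * S) (y - x₀) *
          (G (2 * s) (x - y) * Γ.indicator f x) := by
          refine integral_mono (hg.integrable_G hs y) ((hg.integrable_G hs2 y).const_mul _)
            fun x => ?_
          by_cases hx : x ∈ Γ
          · have h1 := ker_Ph1 hs hsS (hc x hx).1 y
            have h2 := hg0 x
            calc _ ≤ 2 ^ hd E * exp (1 / 8) * (16 * π) ^ hd E * S ^ hd E * G (4 * S) (y - x₀) *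
                  G (2 * s) (x - y) * Γ.indicator f x := mul_le_mul_of_nonneg_right h1 h2
              _ = _ := by ring
          · simp [indicator_of_notMem hx]
      _ = 2 ^ hd E * exp (1 / 8) * (16 * π) ^ hd E * S ^ hd E * G (4 * S) (y - x₀) *
          P (2 * s) (Γ.indicator f) y := by rw [integral_const_mul]; rfl
      _ ≤ _ := by
          have := hP2 y
          gcongr
  have e1 : ∫ x in Γ, s * P s h x * f x = s * ∫ y, P s (Γ.indicator f) y * h y := by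
    rw [← integral_mul_P hgi hh hs, ← integral_const_mul, ← integral_indicator hΓ]
    refine integral_congr_ae (Filter.Eventually.of_forall fun x => ?_)
    by_cases hx : x ∈ Γ
    · simp only [indicator_of_mem hx]; ring
    · simp [indicator_of_notMem hx]
  have hS4 : 0 < 4 * S := by positivity
  have h2 : ∫ y, P s (Γ.indicator f) y * h y ≤
      2 ^ hd E * exp (1 / 8) * (16 * π) ^ hd E * S ^ hd E * (D / (2 * s) * cAV E) *
        P (4 * S) h x₀ := by
    refine (le_abs_self _).trans (abs_integral_le_P hh hS4 fun y => ?_)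
    have h1 := hP1 y
    have h2 := hh0 y
    rw [abs_of_nonneg (mul_nonneg (P_nonneg hs.le hg0 y) h2)]
    calc _ ≤ 2 ^ hd E * exp (1 / 8) * (16 * π) ^ hd E * S ^ hd E *
          G (4 * S) (y - x₀) * (D / (2 * s) * cAV E) * h y := mul_le_mul_of_nonneg_right h1 h2
      _ = _ := by ring
  have h3 := P_nonneg hS4.le hh0 x₀
  rw [e1]
  calc _ ≤ s * (2 ^ hd E * exp (1 / 8) * (16 * π) ^ hd E * S ^ hd E * (D / (2 * s) * cAV E) *
        P (4 * S) h x₀) := by gcongr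
    _ = (2 ^ hd E * exp (1 / 8) * (16 * π) ^ hd E * cAV E / 2) * D * S ^ hd E *
        P (4 * S) h x₀ := by field_simp
    _ ≤ _ := by gcongr; linarith

theorem av_Fs : ∃ C ≥ (1 : ℝ), ∀ (ε : E → ℝ) (T : E → E →L[ℝ] E) (c : E) (R μ : ℝ),
    St ε T c R μ → ∀ n : Fin 2 → E, Orthonormal ℝ n → ∀ (r S D : ℝ) (J : ℕ) (x₀ : E) (Γ : Set E),
    0 < r → 4 * (2 ^ J * r ^ 2) ≤ S → 0 < D → MeasurableSet Γ →
    (∀ x ∈ Γ, ‖x - x₀‖ ^ 2 ≤ S ∧ ∀ t, r ^ 2 ≤ t → t ≤ 2 * S → t * P t (tau T) x ≤ D) →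
    ∫ x in Γ, Fs T n r J x * tau T x ≤
      C * D * √(2 ^ J * r ^ 2) * S ^ hd E * P (4 * S) (tpar T n) x₀ := by
  obtain ⟨C, hC, H⟩ := av_calm (E := E)
  refine ⟨3 * C, by linarith, ?_⟩
  intro ε T c R μ h n hn r S D J x₀ Γ hr hJ hD hΓ hc
  have hS : 0 < S := lt_of_lt_of_le (by positivity) hJ
  have hbd : Bornology.IsBounded Γ := bdd_Ph1 fun x hx => (hc x hx).1
  have hr2 : 0 < r ^ 2 := by positivity
  have e1 : ∫ x in Γ, Fs T n r J x * tau T x = ∑ j ∈ Finset.range J, √(2 ^ j * r ^ 2) *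
      ∫ x in Γ, 8 * 2 ^ j * r ^ 2 * P (8 * 2 ^ j * r ^ 2) (tpar T n) x * tau T x := by
    simp only [Fs, Finset.sum_mul]
    rw [integral_finsetSum]
    · refine Finset.sum_congr rfl fun j _ => ?_
      rw [← integral_const_mul]
      simp only [mul_assoc]
    · intro j _
      exact (((((h.bm_tpar n).P (by positivity)).const_mul _).const_mul _).mul
        h.bm_tau).integrableOn hbd
  have h3 := P_nonneg (t := 4 * S) (by positivity) (h.tpar_nonneg hn) x₀
  have hC0 : 0 ≤ C := by linarith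
  have hK : 0 ≤ C * D * S ^ hd E * P (4 * S) (tpar T n) x₀ := by positivity
  rw [e1]
  calc _ ≤ ∑ j ∈ Finset.range J, √(2 ^ j * r ^ 2) *
        (C * D * S ^ hd E * P (4 * S) (tpar T n) x₀) := by
        refine Finset.sum_le_sum fun j hj => mul_le_mul_of_nonneg_left ?_ (sqrt_nonneg _)
        have hj' : j + 1 ≤ J := Finset.mem_range.1 hj
        have hjJ : (2 : ℝ) ^ (j + 1) ≤ 2 ^ J := pow_le_pow_right₀ (by norm_num) hj'
        rw [pow_succ] at hjJ
        have h2j : (1 : ℝ) ≤ 2 ^ j := one_le_pow₀ (by norm_num)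
        have hle : 8 * 2 ^ j * r ^ 2 ≤ S := by nlinarith
        exact H (tau T) (tpar T n) h.bm_tau (h.bm_tpar n) h.tau_nonneg (h.tpar_nonneg hn)
          (8 * 2 ^ j * r ^ 2) S D x₀ Γ (by positivity) hle hD hΓ fun x hx =>
          ⟨(hc x hx).1, (hc x hx).2 _ (by nlinarith) (by linarith)⟩
    _ ≤ 3 * √(2 ^ J * r ^ 2) * (C * D * S ^ hd E * P (4 * S) (tpar T n) x₀) := by
        rw [← Finset.sum_mul]
        exact mul_le_mul_of_nonneg_right (sum_sqrt_le hr J) hK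
    _ = _ := by ring

/-- Markov inequality on a bounded set. -/
theorem markov {f F : E → ℝ} (hf : BM f) (h0 : ∀ y, 0 ≤ f y) (hF : Measurable F)
    (hF0 : ∀ y, 0 ≤ F y) {Γ : Set E} (hΓ : MeasurableSet Γ) (hb : Bornology.IsBounded Γ)
    (hi : IntegrableOn (fun y => F y * f y) Γ) {ρ : ℝ} (hρ : 0 < ρ) :
    ∫ y in Γ ∩ {y | ρ < F y}, f y ≤ (∫ y in Γ, F y * f y) / ρ := by
  have hm : MeasurableSet (Γ ∩ {y | ρ < F y}) := hΓ.inter (measurableSet_lt measurable_const hF)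
  rw [le_div_iff₀ hρ, ← integral_mul_const]
  calc _ ≤ ∫ y in Γ ∩ {y | ρ < F y}, F y * f y := by
        refine setIntegral_mono_on (((hf.mul_const ρ).integrableOn hb).mono_set inter_subset_left)
          (hi.mono_set inter_subset_left) hm fun y hy => ?_
        rw [mul_comm]
        exact mul_le_mul_of_nonneg_right (le_of_lt hy.2) (h0 y)
    _ ≤ _ := setIntegral_mono_set hi
        (Filter.Eventually.of_forall fun y => mul_nonneg (hF0 y) (h0 y))
        (LE.le.eventuallyLE inter_subset_left)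

end Pool.Agent.Lib.MP_8daebb_an.G6
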