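import Pool.Agent.Lib.MP_8daebb_an.G6.Id
import Pool.Agent.Lib.MP_8daebb_an.G6.Fld

/-! The moments change slowly in time. -/

open MeasureTheory Metric Set Module Real
open scoped RealInnerProductSpace

namespace Pool.Agent.Lib.MP_8daebb_an.G6

open AS HK

variable {E : Type*} [NormedAddCommGroup E] [InnerProductSpace ℝ E] [FiniteDimensional ℝ E]
  [MeasurableSpace E] [BorelSpace E]

/-- The moment of the excess against the kernel centred at `w`. -/
noncomputable def mom (ε : E → ℝ) (n : Fin 2 → E) (α : ℝ) (ν : E) (t b : ℝ) (w : E) : ℝ :=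
  ∫ y, ε y * Kk n α ν t b (y - w)

theorem integrable_mom {ε : E → ℝ} (hε : BM ε) {n : Fin 2 → E} (hn : Orthonormal ℝ n) (α : ℝ)
    {ν : E} (hν : Pn n ν = ν) {t b : ℝ} (ht : 0 < t) (hb : 0 < b) (w : E) :
    Integrable fun y => ε y * Kk n α ν t b (y - w) := by
  refine hε.mul_integrable (integrable_of_le_G (x := w) (s := t + b)
    ((continuous_Kk n α ν t b).comp (continuous_sub_right w)).measurable (by positivity)
    fun y => abs_Kk_le hn hν ht hb (by linarith) (by linarith) le_rfl (y - w))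

theorem mom_lin {ε : E → ℝ} (hε : BM ε) {n : Fin 2 → E} (hn : Orthonormal ℝ n) (α : ℝ)
    {ν : E} (hν : Pn n ν = ν) {t b : ℝ} (ht : 0 < t) (hb : 0 < b) (w : E) :
    mom ε n α ν t b w = α * mom ε n 1 0 t b w + mom ε n 0 ν t b w := by
  unfold mom
  rw [← integral_const_mul, ← integral_add
    ((integrable_mom hε hn 1 (map_zero _) ht hb w).const_mul α) (integrable_mom hε hn 0 hν ht hb w)]
  refine integral_congr_ae (Filter.Eventually.of_forall fun y => ?_)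
  simp only [Kk, inner_zero_left]
  ring

theorem meas_pair_time {ε : E → ℝ} {T : E → E →L[ℝ] E} {c : E} {R μ : ℝ} (h : St ε T c R μ)
    {B : E → E →L[ℝ] E} (hB : Continuous B) : Measurable fun y => pair (ε y) (T y) (B y) := by
  let b := stdOrthonormalBasis ℝ E
  have h1 : (fun y => pair (ε y) (T y) (B y)) = fun y =>
      ε y * (∑ i, ⟪B y (b i), b i⟫) - ∑ i, ⟪T y (B y (b i)), b i⟫ := funext fun y => by
    rw [pair, tr_eq_sum b, tr_eq_sum b]
    rfl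
  rw [h1]
  refine (h.bε.meas.mul (Continuous.measurable (by fun_prop))).sub
    (Finset.measurable_sum _ fun i _ => h.meas_T (Continuous.measurable (by fun_prop))
      measurable_const)

/-- The derivative of the moment is small. -/
theorem int_dK_le : ∃ C ≥ (1 : ℝ), ∀ (ε : E → ℝ) (T : E → E →L[ℝ] E) (c : E) (R μ : ℝ),
    St ε T c R μ → ∀ n : Fin 2 → E, Orthonormal ℝ n → ∀ (α θ t b S Λ : ℝ) (ν w : E),
    Pn n ν = ν → 0 < t → 0 < b → 2 * t ≤ S → b ≤ S → S ≤ R ^ 2 → ‖w - c‖ ≤ R → 0 ≤ θ → θ ≤ 1 →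
    |α| + 2 * ‖ν‖ * √b ≤ Λ →
    |∫ y, ε y * dK n α ν θ t b (y - w)| ≤ C * Λ * (S / t) ^ hd E * S *
      (P S (tpar T n) w / t + Hs ε T n S w / b ^ 2 + μ * (1 / t + 1 / b)) := by
  obtain ⟨C₁, hC₁, h₁⟩ := pair_Yk_le (E := E)
  obtain ⟨C₂, hC₂, h₂⟩ := Yk_le (E := E)
  obtain ⟨C₃, -, h₃⟩ := abs_dK_le (E := E)
  refine ⟨C₁ + C₂, by linarith, ?_⟩
  intro ε T c R μ h n hn α θ t b S Λ ν w hν ht hb htS hbS hSR hw hθ hθ' hΛ
  have hS : 0 < S := by linarith
  have hR : 0 ≤ R := (norm_nonneg _).trans hw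
  have hS1 : S ≤ 1 := hSR.trans (pow_le_one₀ hR h.R_le)
  have hΛ0 : 0 ≤ Λ := le_trans (by positivity) hΛ
  have hYc : ContDiff ℝ 1 (fun y => Yk n α ν t b (y - w)) :=
    (contDiff_Yk n α ν t b).comp (contDiff_id.sub contDiff_const)
  have hfd : ∀ y, fderiv ℝ (fun y => Yk n α ν t b (y - w)) y = fderiv ℝ (Yk n α ν t b) (y - w) :=
    fun y => fderiv_comp_sub w
  have hs := h.s1 _ _ S w hYc hS hSR hw
    (fun y => (h₂ n hn α t b S Λ ν hν ht hb htS hbS hS1 hΛ (y - w)).1)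
    (fun y => by rw [hfd]; exact (h₂ n hn α t b S Λ ν hν ht hb htS hbS hS1 hΛ (y - w)).2)
  simp only [hfd] at hs
  have hmd : Measurable fun y => dK n α ν θ t b (y - w) :=
    ((continuous_dK n α ν θ t b).comp (continuous_sub_right w)).measurable
  have hi1 : Integrable fun y => ε y * dK n α ν θ t b (y - w) :=
    h.bε.mul_integrable (integrable_of_le_G (x := w) hmd hS
      fun y => h₃ n hn α θ t b S Λ ν hν ht hb htS hbS hθ hθ' hΛ (y - w))
  have hmp : Measurable fun y => pair (ε y) (T y) (fderiv ℝ (Yk n α ν t b) (y - w)) :=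
    meas_pair_time h (((contDiff_Yk n α ν t b).continuous_fderiv one_ne_zero).comp
      (continuous_sub_right w))
  have hj1 := ((h.bm_tpar n).integrable_G hS w).div_const t
  have hj2 := (h.integrable_Hs hn hS w).div_const (b ^ 2)
  have hbd : ∀ y, ‖ε y * dK n α ν θ t b (y - w) -
      pair (ε y) (T y) (fderiv ℝ (Yk n α ν t b) (y - w))‖ ≤ C₁ * Λ * (S / t) ^ hd E * S *
        (G S (y - w) * tpar T n y / t +
          G S (y - w) * (‖Pn n (y - w)‖ ^ 2 * (tau T y + |bet ε T y|)) / b ^ 2) := fun y => by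
    refine (h₁ n hn α θ t b S Λ ν hν ht hb htS hbS hθ hθ' hΛ (y - w) (ε y) (T y)
      (h.psd' y)).trans (le_of_eq ?_)
    simp only [tpar, tau, bet]
    ring
  have hj := (hj1.add hj2).const_mul (C₁ * Λ * (S / t) ^ hd E * S)
  have hi2 : Integrable fun y => ε y * dK n α ν θ t b (y - w) -
      pair (ε y) (T y) (fderiv ℝ (Yk n α ν t b) (y - w)) :=
    hj.mono' ((h.bε.meas.mul hmd).sub hmp).aestronglyMeasurable
      (Filter.Eventually.of_forall hbd)
  have hi3 : Integrable fun y => pair (ε y) (T y) (fderiv ℝ (Yk n α ν t b) (y - w)) := by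
    refine (hi1.sub hi2).congr (Filter.Eventually.of_forall fun y => ?_)
    simp
  have hb2 := norm_integral_le_of_norm_le hj (Filter.Eventually.of_forall hbd)
  simp only [Pi.add_apply] at hb2
  rw [integral_const_mul, integral_add hj1 hj2, integral_div, integral_div, integral_sub hi1 hi3,
    Real.norm_eq_abs] at hb2
  change _ ≤ C₁ * Λ * (S / t) ^ hd E * S * (P S (tpar T n) w / t + Hs ε T n S w / b ^ 2) at hb2
  have hX : 0 ≤ P S (tpar T n) w / t + Hs ε T n S w / b ^ 2 :=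
    add_nonneg (div_nonneg (P_nonneg hS.le (h.tpar_nonneg hn) w) ht.le)
      (div_nonneg (h.Hs_nonneg n hS w) (sq_nonneg b))
  have hY : 0 ≤ μ * (1 / t + 1 / b) := mul_nonneg h.μ0 (by positivity)
  have hK : 0 ≤ Λ * (S / t) ^ hd E * S := by positivity
  have hs' : |∫ y, pair (ε y) (T y) (fderiv ℝ (Yk n α ν t b) (y - w))| ≤
      C₂ * ((Λ * (S / t) ^ hd E * S) * (μ * (1 / t + 1 / b))) := hs.trans (le_of_eq (by ring))
  generalize P S (tpar T n) w / t + Hs ε T n S w / b ^ 2 = X at *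
  generalize μ * (1 / t + 1 / b) = Y at *
  have e1 : C₁ * Λ * (S / t) ^ hd E * S * X = C₁ * ((Λ * (S / t) ^ hd E * S) * X) := by ring
  have e2 : (C₁ + C₂) * Λ * (S / t) ^ hd E * S * (X + Y) =
      (C₁ + C₂) * ((Λ * (S / t) ^ hd E * S) * X + (Λ * (S / t) ^ hd E * S) * Y) := by ring
  rw [e1] at hb2
  rw [e2]
  have hKX := mul_nonneg hK hX
  have hKY := mul_nonneg hK hY
  generalize (Λ * (S / t) ^ hd E * S) * X = a at *
  generalize (Λ * (S / t) ^ hd E * S) * Y = a' at *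
  have h5 := abs_sub_abs_le_abs_sub (∫ y, ε y * dK n α ν θ t b (y - w))
    (∫ y, pair (ε y) (T y) (fderiv ℝ (Yk n α ν t b) (y - w)))
  nlinarith

theorem hasDerivAt_mom {ε : E → ℝ} (hε : BM ε) {n : Fin 2 → E} (hn : Orthonormal ℝ n) (α : ℝ)
    {ν : E} (hν : Pn n ν = ν) {b₀ θ t : ℝ} (ht : 0 < t) (hb₀ : 0 ≤ b₀) (hθ : 0 ≤ θ) (hθ' : θ ≤ 1)
    (hb : 0 < b₀ + θ * t) (w : E) :
    HasDerivAt (fun s => mom ε n α ν s (b₀ + θ * s) w)
      (∫ y, ε y * dK n α ν θ t (b₀ + θ * t) (y - w)) t := by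
  obtain ⟨C, hC, h₃⟩ := abs_dK_le (E := E)
  obtain ⟨M, hM0, hM⟩ := hε.bdd'
  have hnb : Ioo (t / 2) (2 * t) ∈ nhds t := Ioo_mem_nhds (by linarith) (by linarith)
  have hbs : ∀ s ∈ Ioo (t / 2) (2 * t), (b₀ + θ * t) / 2 ≤ b₀ + θ * s ∧
      b₀ + θ * s ≤ 2 * (b₀ + θ * t) := fun s hs => by
    have h1 := mul_le_mul_of_nonneg_left hs.1.le hθ
    have h2 := mul_le_mul_of_nonneg_left hs.2.le hθ
    constructor <;> linarith
  set S := 4 * t + 2 * (b₀ + θ * t) with hSdef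
  set Λ := |α| + 2 * ‖ν‖ * √(2 * (b₀ + θ * t)) with hΛdef
  have hS : 0 < S := by linarith
  have hΛ0 : 0 ≤ Λ := by positivity
  refine (hasDerivAt_integral_of_dominated_loc_of_deriv_le (μ := volume)
    (F := fun s y => ε y * Kk n α ν s (b₀ + θ * s) (y - w))
    (F' := fun s y => ε y * dK n α ν θ s (b₀ + θ * s) (y - w))
    (bound := fun y => M * (C * Λ * (S / (t / 2)) ^ hd E * S *
      (1 / (t / 2) + 1 / ((b₀ + θ * t) / 2)) * G S (y - w))) hnb
    (Filter.Eventually.of_forall fun s => (hε.meas.mul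
      ((continuous_Kk n α ν _ _).comp (continuous_sub_right w)).measurable).aestronglyMeasurable)
    (integrable_mom hε hn α hν ht hb w)
    (hε.meas.mul
      ((continuous_dK n α ν _ _ _).comp (continuous_sub_right w)).measurable).aestronglyMeasurable
    (Filter.Eventually.of_forall fun y s hs => ?_)
    (((integrable_G_sub hS w).const_mul _).const_mul M)
    (Filter.Eventually.of_forall fun y s hs => ?_)).2
  · obtain ⟨hb1, hb2⟩ := hbs s hs
    have hs0 : 0 < s := by linarith [hs.1]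
    have hbs0 : 0 < b₀ + θ * s := by linarith
    have hΛ : |α| + 2 * ‖ν‖ * √(b₀ + θ * s) ≤ Λ := by
      rw [hΛdef]
      gcongr
    have h1 := h₃ n hn α θ s (b₀ + θ * s) S Λ ν hν hs0 hbs0 (by linarith [hs.2]) (by linarith)
      hθ hθ' hΛ (y - w)
    rw [Real.norm_eq_abs, abs_mul]
    refine mul_le_mul (hM y) (h1.trans ?_) (abs_nonneg _) hM0
    have hG := (G_pos hS (y - w)).le
    have hh := hd_nonneg (V := E)
    have hs1 := hs.1.le
    gcongr
  · obtain ⟨hb1, -⟩ := hbs s hs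
    exact (hasDerivAt_Kk n α ν (by linarith [hs.1]) (by linarith) (y - w)).const_mul (ε y)

theorem time_step : ∃ C ≥ (1 : ℝ), ∀ (ε : E → ℝ) (T : E → E →L[ℝ] E) (c : E) (R μ : ℝ),
    St ε T c R μ → ∀ n : Fin 2 → E, Orthonormal ℝ n → ∀ (α θ t₁ t₂ b₀ S Λ : ℝ) (ν w : E),
    Pn n ν = ν → 0 < t₁ → t₁ ≤ t₂ → 0 ≤ b₀ → 0 ≤ θ → θ ≤ 1 → 0 < b₀ + θ * t₁ → 2 * t₂ ≤ S →
    b₀ + θ * t₂ ≤ S → S ≤ R ^ 2 → ‖w - c‖ ≤ R → |α| + 2 * ‖ν‖ * √(b₀ + θ * t₂) ≤ Λ →
    |mom ε n α ν t₂ (b₀ + θ * t₂) w - mom ε n α ν t₁ (b₀ + θ * t₁) w| ≤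
      C * Λ * (t₂ - t₁) * (S / t₁) ^ hd E * S * (P S (tpar T n) w / t₁ +
        Hs ε T n S w / (b₀ + θ * t₁) ^ 2 + μ * (1 / t₁ + 1 / (b₀ + θ * t₁))) := by
  obtain ⟨C, hC, h₁⟩ := int_dK_le (E := E)
  refine ⟨C, hC, ?_⟩
  intro ε T c R μ h n hn α θ t₁ t₂ b₀ S Λ ν w hν ht₁ ht hb₀ hθ hθ' hb htS hbS hSR hw hΛ
  have hS : 0 < S := by linarith
  have hΛ0 : 0 ≤ Λ := le_trans (by positivity) hΛ
  have hbs : ∀ s ∈ Icc t₁ t₂, b₀ + θ * t₁ ≤ b₀ + θ * s ∧ b₀ + θ * s ≤ b₀ + θ * t₂ := fun s hs => by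
    have h1 := mul_le_mul_of_nonneg_left hs.1 hθ
    have h2 := mul_le_mul_of_nonneg_left hs.2 hθ
    constructor <;> linarith
  have key := norm_image_sub_le_of_norm_deriv_le_segment'
    (f := fun s => mom ε n α ν s (b₀ + θ * s) w)
    (f' := fun s => ∫ y, ε y * dK n α ν θ s (b₀ + θ * s) (y - w))
    (C := C * Λ * (S / t₁) ^ hd E * S * (P S (tpar T n) w / t₁ +
        Hs ε T n S w / (b₀ + θ * t₁) ^ 2 + μ * (1 / t₁ + 1 / (b₀ + θ * t₁))))
    (fun s hs => (hasDerivAt_mom h.bε hn α hν (ht₁.trans_le hs.1) hb₀ hθ hθ'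
      (hb.trans_le (hbs s hs).1) w).hasDerivWithinAt)
    (fun s hs => ?_) t₂ (right_mem_Icc.2 ht)
  · exact key.trans (le_of_eq (by ring))
  obtain ⟨hb1, hb2⟩ := hbs s (Ico_subset_Icc_self hs)
  have hs0 : 0 < s := ht₁.trans_le hs.1
  have hΛ' : |α| + 2 * ‖ν‖ * √(b₀ + θ * s) ≤ Λ := le_trans (by gcongr) hΛ
  refine (h₁ ε T c R μ h n hn α θ s (b₀ + θ * s) S Λ ν w hν hs0 (hb.trans_le hb1)
    (by linarith [hs.2]) (by linarith) hSR hw hθ hθ' hΛ').trans ?_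
  have h1 := P_nonneg hS.le (h.tpar_nonneg hn) w
  have h2 := h.Hs_nonneg n hS w
  have h3 := h.μ0
  have hh := hd_nonneg (V := E)
  have hs1 := hs.1
  have hbs0 : 0 < b₀ + θ * s := hb.trans_le hb1
  gcongr

end Pool.Agent.Lib.MP_8daebb_an.G6
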